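import Mathlib

/-!
# Ray class fields, partial zeta functions and Stark units: definitions

`K` is a number field, `AlgebraicClosure K` its algebraic closure, `R` a set of real embeddings
of `K` and `𝔪` an ideal of the ring of integers.  The modulus is `𝔪` times the real places in `R`.
-/

set_option autoImplicit false

namespace Pool.Agent.R363.SD

open NumberField

section

variable {K : Type} [Field K] [NumberField K]

/-- `I` is a nonzero ideal coprime to `𝔪`. -/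
def Cop (𝔪 I : Ideal (𝓞 K)) : Prop := I ≠ ⊥ ∧ IsCoprime I 𝔪

/-- `x ≡ 1` modulo `𝔪`, and `x` is positive at the real embeddings in `R`. -/
def Ray (R : Set (K →+* ℝ)) (𝔪 : Ideal (𝓞 K)) (x : 𝓞 K) : Prop :=
  x ≠ 0 ∧ x - 1 ∈ 𝔪 ∧ ∀ τ ∈ R, 0 < τ (x : K)

/-- `I` and `J` are in the same ray class modulo `𝔪` and the real places in `R`: they differ by
the principal fractional ideal generated by `x / y`, where `x ≡ y ≡ 1` modulo `𝔪` and `x`, `y` are
positive at the real embeddings in `R`. -/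
def SameClass (R : Set (K →+* ℝ)) (𝔪 I J : Ideal (𝓞 K)) : Prop :=
  ∃ x y : 𝓞 K, Ray R 𝔪 x ∧ Ray R 𝔪 y ∧ Ideal.span {x} * I = Ideal.span {y} * J

/-- `F` is the analytic continuation to the complex numbers without `1` of the partial zeta
function `ζ(s, A) = ∑ N(I)^(-s)`, the sum over the nonzero ideals `I` coprime to `𝔪` in the ray
class of `A` (which converges for `Re s > 1`). -/
def IsPartialZeta (R : Set (K →+* ℝ)) (𝔪 A : Ideal (𝓞 K)) (F : ℂ → ℂ) : Prop :=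
  DifferentiableOn ℂ F {1}ᶜ ∧ ∀ s : ℂ, 1 < s.re →
    HasSum (fun I : {I : Ideal (𝓞 K) // Cop 𝔪 I ∧ SameClass R 𝔪 I A} =>
      ((Ideal.absNorm I.1 : ℕ) : ℂ) ^ (-s)) (F s)

/-- All `k`-fold differences of `Z` have the property `P`: `k` times, `Z(A)` is replaced by
`Z(A) - Z(A 𝔠)` for an arbitrary principal ideal `𝔠 = (γ)` coprime to `𝔣` such that `γ ≡ 1` modulo
`𝔪` (with no condition on the signs of `γ`). -/
def Differences (𝔪 𝔣 : Ideal (𝓞 K)) (P : (Ideal (𝓞 K) → ℂ) → Prop) :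
    ℕ → (Ideal (𝓞 K) → ℂ) → Prop
  | 0, Z => P Z
  | k + 1, Z => ∀ γ : 𝓞 K, γ - 1 ∈ 𝔪 → Cop 𝔣 (Ideal.span {γ}) →
      Differences 𝔪 𝔣 P k (fun A => Z A - Z (A * Ideal.span {γ}))

/-- The partial zeta functions of the classes modulo `𝔣` and `R` have continuations `F A`, and all
`k`-fold differences (along ideals `(γ)` with `γ ≡ 1` modulo `𝔪`) of the function `A ↦ -ζ'(0, A)`
have the property `P`. -/
def ForZeta (R : Set (K →+* ℝ)) (𝔪 𝔣 : Ideal (𝓞 K)) (k : ℕ)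
    (P : (Ideal (𝓞 K) → ℂ) → Prop) : Prop :=
  ∃ F : Ideal (𝓞 K) → ℂ → ℂ, (∀ A : Ideal (𝓞 K), Cop 𝔣 A → IsPartialZeta R 𝔣 A (F A)) ∧
    Differences 𝔪 𝔣 P k (fun A => -deriv (F A) 0)

/-- `𝔮` is a principal prime ideal of prime norm, with a generator `γ ≡ 1` modulo `𝔪`, and it is
coprime to `𝔟`. -/
def GoodPrime (𝔪 𝔟 𝔮 : Ideal (𝓞 K)) : Prop :=
  𝔮.IsPrime ∧ (Ideal.absNorm 𝔮).Prime ∧ IsCoprime 𝔮 𝔟 ∧ ∃ γ : 𝓞 K, 𝔮 = Ideal.span {γ} ∧ γ - 1 ∈ 𝔪

/-- `𝔣` is a nonzero multiple of `4 ^ j 𝔫` with the same prime divisors as `𝔫`. -/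
def DeepMultiple (j : ℕ) (𝔫 𝔣 : Ideal (𝓞 K)) : Prop :=
  𝔣 ≠ ⊥ ∧ 𝔣 ≤ Ideal.span {4} ^ j * 𝔫 ∧ ∀ 𝔭 : Ideal (𝓞 K), 𝔭.IsPrime → 𝔣 ≤ 𝔭 → 𝔫 ≤ 𝔭

/-- For every set `s` of `n` good primes there is a multiple `𝔣` of `4 ^ (n + k) 𝔪 ∏ 𝔮` (the
product over `𝔮 ∈ s`), with the same prime divisors as `𝔪 ∏ 𝔮`, such that the partial zeta functions
modulo `𝔣` and `R` have continuations `F A`, and all `k`-fold differences of `A ↦ -ζ'(0, A)` along
ideals `(γ)` with `γ ≡ 1` modulo `𝔪` have the property `P 𝔣`. -/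
def HoldsDeep (R : Set (K →+* ℝ)) (P : Ideal (𝓞 K) → (Ideal (𝓞 K) → ℂ) → Prop) (n k : ℕ)
    (𝔪 𝔟 : Ideal (𝓞 K)) : Prop :=
  ∀ s : Finset (Ideal (𝓞 K)), s.card = n → (∀ 𝔮 ∈ s, GoodPrime 𝔪 𝔟 𝔮) →
    ∃ 𝔣 : Ideal (𝓞 K), DeepMultiple (n + k) (𝔪 * ∏ 𝔮 ∈ s, 𝔮) 𝔣 ∧ ForZeta R 𝔪 𝔣 k (P 𝔣)

end

section

variable {K H : Type} [Field K] [NumberField K] [Field H] [Algebra K H]

/-- `g` is a Frobenius element at every prime ideal of `H` above `P`. -/
def IsFrobenius (P : Ideal (𝓞 K)) (g : H ≃ₐ[K] H) : Prop :=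
  ∀ Q : Ideal (𝓞 H), Q.IsPrime → Q.comap (algebraMap (𝓞 K) (𝓞 H)) = P →
    ∀ x : 𝓞 H, RingOfIntegers.mapRingHom g x - x ^ Ideal.absNorm P ∈ Q

/-- `art` is the Artin map of the ray class field `H` modulo `𝔪` and the real places in `R`: it
induces an isomorphism from the ray class group onto the Galois group of `H`, and maps every prime
ideal not dividing `𝔪` to its Frobenius element. -/
structure IsArtinMap (R : Set (K →+* ℝ)) (𝔪 : Ideal (𝓞 K)) (art : Ideal (𝓞 K) → (H ≃ₐ[K] H)) :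
    Prop where
  mul : ∀ I J : Ideal (𝓞 K), Cop 𝔪 I → Cop 𝔪 J → art (I * J) = art I * art J
  eq_iff : ∀ I J : Ideal (𝓞 K), Cop 𝔪 I → Cop 𝔪 J → (art I = art J ↔ SameClass R 𝔪 I J)
  surjective : ∀ g : H ≃ₐ[K] H, ∃ I : Ideal (𝓞 K), Cop 𝔪 I ∧ art I = g
  frobenius : ∀ P : Ideal (𝓞 K), P.IsPrime → Cop 𝔪 P → IsFrobenius P (art P)

/-- The units `ε_A` of `H` (for `A` coprime to `𝔪`) are such that `ε_A = exp (2 Z(A))` in the
embedding `ι`, the Artin symbol of `B` maps `ε_A` to `ε_{AB}`, and `ε_A` has absolute value `1` in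
every embedding of `H` which extends a real embedding of `K` in `R`. -/
structure StarkFamily (R : Set (K →+* ℝ)) (𝔪 : Ideal (𝓞 K)) (art : Ideal (𝓞 K) → (H ≃ₐ[K] H))
    (ι : H →+* ℂ) (Z : Ideal (𝓞 K) → ℂ) (ε : Ideal (𝓞 K) → (𝓞 H)ˣ) : Prop where
  value : ∀ A : Ideal (𝓞 K), Cop 𝔪 A → ι (ε A : 𝓞 H) = Complex.exp (2 * Z A)
  galois : ∀ A B : Ideal (𝓞 K), Cop 𝔪 A → Cop 𝔪 B → art B (ε A : 𝓞 H) = (ε (A * B) : 𝓞 H)
  abs : ∀ A : Ideal (𝓞 K), Cop 𝔪 A → ∀ τ ∈ R, ∀ g : H →+* ℂ,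
    g.comp (algebraMap K H) = Complex.ofRealHom.comp τ → ‖g (ε A : 𝓞 H)‖ = 1

/-- With `e` the number of roots of unity in `H`: the unit `u` of `H` is such that
`Z(A) = (1/e) log |ι(u^A)|²` for all ideals `A` coprime to `𝔪`, where `u^A` is the image of `u`
under the Artin symbol of `A`, and `u` has absolute value `1` in every embedding of `H` which extends
a real embedding of `K` in `R`. -/
structure StarkUnit (R : Set (K →+* ℝ)) (𝔪 : Ideal (𝓞 K)) (art : Ideal (𝓞 K) → (H ≃ₐ[K] H))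
    (ι : H →+* ℂ) (e : ℕ) (Z : Ideal (𝓞 K) → ℂ) (u : (𝓞 H)ˣ) : Prop where
  value : ∀ A : Ideal (𝓞 K), Cop 𝔪 A →
    Z A = ((1 / (e : ℝ)) * Real.log (‖ι (art A (u : 𝓞 H))‖ ^ 2) : ℝ)
  abs : ∀ τ ∈ R, ∀ g : H →+* ℂ,
    g.comp (algebraMap K H) = Complex.ofRealHom.comp τ → ‖g (u : 𝓞 H)‖ = 1

/-- the number of roots of unity in a field -/
noncomputable def rootCount (H : Type) [Field H] : ℕ := Nat.card (CommGroup.torsion Hˣ)

/-- There are units `ε_A` as in `StarkFamily`. -/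
def HasStarkFamily (R : Set (K →+* ℝ)) (𝔪 : Ideal (𝓞 K)) (art : Ideal (𝓞 K) → (H ≃ₐ[K] H))
    (ι : H →+* ℂ) (Z : Ideal (𝓞 K) → ℂ) : Prop :=
  ∃ ε : Ideal (𝓞 K) → (𝓞 H)ˣ, StarkFamily R 𝔪 art ι Z ε

/-- There are units `ε_A` as in `StarkFamily` which all have the property `Q`. -/
def HasStarkFamilyWith (Q : H → Prop) (R : Set (K →+* ℝ)) (𝔪 : Ideal (𝓞 K))
    (art : Ideal (𝓞 K) → (H ≃ₐ[K] H)) (ι : H →+* ℂ) (Z : Ideal (𝓞 K) → ℂ) : Prop :=
  ∃ ε : Ideal (𝓞 K) → (𝓞 H)ˣ, StarkFamily R 𝔪 art ι Z ε ∧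
    ∀ A : Ideal (𝓞 K), Cop 𝔪 A → Q (ε A : 𝓞 H)

/-- There is a unit `u` as in `StarkUnit` which has the property `Q`. -/
def HasStarkUnitWith (Q : H → Prop) (R : Set (K →+* ℝ)) (𝔪 : Ideal (𝓞 K))
    (art : Ideal (𝓞 K) → (H ≃ₐ[K] H)) (ι : H →+* ℂ) (e : ℕ) (Z : Ideal (𝓞 K) → ℂ) : Prop :=
  ∃ u : (𝓞 H)ˣ, StarkUnit R 𝔪 art ι e Z u ∧ Q (u : 𝓞 H)

end

section

variable {K : Type} [Field K] [NumberField K]

/-- `H` is a finite abelian extension of `K`, and `art` is the Artin map which makes it the ray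
class field of `K` modulo `𝔪` and the real places in `R`. -/
structure IsRayClassField (R : Set (K →+* ℝ)) (𝔪 : Ideal (𝓞 K)) (H : Type) [Field H]
    [Algebra K H] (art : Ideal (𝓞 K) → (H ≃ₐ[K] H)) : Prop where
  finite : FiniteDimensional K H
  abelian : IsAbelianGalois K H
  artin : IsArtinMap R 𝔪 art

/-- The ray class field of `K` modulo `𝔪` and the real places in `R`, inside the algebraic closure
of `K`, with its Artin map. -/
structure RayClassField (R : Set (K →+* ℝ)) (𝔪 : Ideal (𝓞 K)) where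
  /-- the field -/
  H : IntermediateField K (AlgebraicClosure K)
  /-- the Artin map -/
  art : Ideal (𝓞 K) → (H ≃ₐ[K] H)
  isRayClassField : IsRayClassField R 𝔪 H art

/-- `H(x^(1/n))` is an abelian extension of `K`, for every choice of the `n`-th root. -/
def AbelianRoot (n : ℕ) (H : IntermediateField K (AlgebraicClosure K)) (x : H) : Prop :=
  ∀ y : AlgebraicClosure K, y ^ n = x → IsAbelianGalois K ↥(H ⊔ IntermediateField.adjoin K {y})

variable {R : Set (K →+* ℝ)} {𝔪 : Ideal (𝓞 K)}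

/-- the embedding `ι` of the algebraic closure on the ray class field -/
noncomputable def RayClassField.emb (C : RayClassField R 𝔪) (ι : AlgebraicClosure K →+* ℂ) :
    C.H →+* ℂ := ι.comp (algebraMap C.H (AlgebraicClosure K))

/-- There are units `ε_A` of the ray class field `H`, equal to `exp (2 Z(A))` in the embedding `ι`,
permuted by the Artin symbols, and of absolute value `1` above `R`. -/
def Stark (ι : AlgebraicClosure K →+* ℂ) (C : RayClassField R 𝔪) (Z : Ideal (𝓞 K) → ℂ) : Prop :=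
  HasStarkFamily R 𝔪 C.art (C.emb ι) Z

/-- There are units `ε_A` of the ray class field `H`, equal to `exp (2 Z(A))` in the embedding `ι`,
permuted by the Artin symbols, and of absolute value `1` above `R`, such that `H(√ε_A)` is abelian
over `K`. -/
def StarkTate (ι : AlgebraicClosure K →+* ℂ) (C : RayClassField R 𝔪) (Z : Ideal (𝓞 K) → ℂ) :
    Prop :=
  HasStarkFamilyWith (AbelianRoot 2 C.H) R 𝔪 C.art (C.emb ι) Z

/-- With `e` the number of roots of unity in the ray class field `H`, there is a unit `u` of `H`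
with `Z(A) = (1/e) log |u^A|²` in the embedding `ι`, of absolute value `1` above `R`, such that
`H(u^(1/e))` is abelian over `K`. -/
def StarkComplex (ι : AlgebraicClosure K →+* ℂ) (C : RayClassField R 𝔪) (Z : Ideal (𝓞 K) → ℂ) :
    Prop :=
  HasStarkUnitWith (AbelianRoot (rootCount C.H) C.H) R 𝔪 C.art (C.emb ι) (rootCount C.H) Z

end

end Pool.Agent.R363.SD
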