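import Pool.Agent.Y773.HG.Ent
import Pool.Agent.Y772.HG.Sgn
import Pool.Agent.R363.SD.Defs

/-!
# Partial zeta functions: continuation and behaviour at `s = 0`
-/

set_option autoImplicit false
set_option linter.unusedSectionVars false

open NumberField Complex Filter Topology
open Pool.Agent.Y773 (LI)
open Pool.Agent.Y773.G (rl sg IsModChar ex)

namespace Pool.Agent.R363.SD

variable {K : Type} [Field K] [NumberField K]

/-- `(s - 1) L(s, η)` is an entire function times the inverses of the gamma factors. -/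
theorem exists_entire {𝔪 : Ideal (𝓞 K)} {e : InfinitePlace K → ℕ} {η : Ideal (𝓞 K) →*₀ ℂ}
    (h : IsModChar 𝔪 e η) :
    ∃ E : ℂ → ℂ, Differentiable ℂ E ∧ ∀ s : ℂ, 1 < s.re →
      E s * ∏ φ : K →+* ℂ, (Complex.Gammaℝ (s + ex e φ))⁻¹ = (s - 1) * LI η s := by
  classical
  obtain ⟨V, hV, hweak⟩ := Pool.Agent.Y773.G.fam_weak K
  obtain ⟨C, hC, hmel⟩ := Pool.Agent.Y773.G.mellin_Ftot K
  have hN : ∀ c, Pool.Agent.Y773.G.Nice e (Pool.Agent.Y773.G.Ps η e (Pool.Agent.Y773.rp K c)) :=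
    fun c => h.nice (Pool.Agent.Y773.rp_ne_bot c)
  choose B hB using fun c => (hN c).bdd
  have hN0 := hN (Classical.arbitrary _)
  have hB' : ∀ c x, ‖Pool.Agent.Y773.G.Ps η e (Pool.Agent.Y773.rp K c) x‖ ≤ ∑ c, |B c| :=
    fun c x => (hB c x).trans ((le_abs_self _).trans (Finset.single_le_sum (f := fun c => |B c|)
      (fun _ _ => abs_nonneg _) (Finset.mem_univ c)))
  obtain ⟨P, hPf, hPg, hPk, hPε, hPf0, hPg0⟩ := hweak (Pool.Agent.Y773.rp K)
    Pool.Agent.Y773.reps_rp e hN0.he hN0.cpx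
    (fun c => Pool.Agent.Y773.G.Ps η e (Pool.Agent.Y773.rp K c)) _ hB' (fun c => (hN c).unit)
    (Pool.Agent.Y773.mm (Pool.Agent.Y773.rp K) 𝔪) (Pool.Agent.Y773.Dd K)
    (Pool.Agent.Y773.mm_pos Pool.Agent.Y773.rp_ne_bot h.ne_bot) Pool.Agent.Y773.Dd_pos
    Pool.Agent.Y773.Dd_mem
    (fun c => h.per_m (Pool.Agent.Y773.rp_ne_bot c) (Pool.Agent.Y773.mm_mem _ _ c))
  have hf0 : P.f₀ = 0 := by
    rw [hPf0, Finset.sum_eq_zero fun c _ => (hN c).zero, mul_zero]
  have hfF : P.f = Pool.Agent.Y773.G.Ftot η e (Pool.Agent.Y773.rp K) := hPf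
  have hC' : (C : ℂ) ≠ 0 := by exact_mod_cast hC.ne'
  have hlam : ∀ s : ℂ, 1 < s.re →
      (s - 1) * mellin (Pool.Agent.Y773.G.Ftot η e (Pool.Agent.Y773.rp K)) s =
      (s - 1) * P.Λ₀ s + P.ε * P.g₀ := by
    intro s hs
    have h1 := (P.hasMellin (s := s) (by rw [hPk]; exact hs)).2
    rw [hf0] at h1
    simp only [sub_zero] at h1
    rw [hfF] at h1
    have h2 : P.Λ s = P.Λ₀ s - (P.ε / (1 - s)) * P.g₀ := by
      unfold WeakFEPair.Λ
      rw [hf0, hPk, smul_zero, sub_zero, smul_eq_mul, Complex.ofReal_one]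
    have h3 : (1 : ℂ) - s ≠ 0 := by
      intro h4
      have := congrArg Complex.re h4
      simp at this
      linarith
    have h5 : mellin (Pool.Agent.Y773.G.Ftot η e (Pool.Agent.Y773.rp K)) s = P.Λ s := h1
    rw [h5, h2]
    field_simp
    ring
  refine ⟨fun s => (C : ℂ)⁻¹ * ((s - 1) * P.Λ₀ s + P.ε * P.g₀), ?_, ?_⟩
  · refine Differentiable.const_mul ?_ _
    exact ((differentiable_id.sub_const 1).mul P.differentiable_Λ₀).add_const _
  · intro s hs
    simp only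
    rw [← hlam s hs, (hmel (Pool.Agent.Y773.rp K) Pool.Agent.Y773.reps_rp e η h.norm_le_one hN s
      hs).2, Finset.prod_inv_distrib]
    have h3 := Pool.Agent.Y773.G.gam_ne_zero (ex e) (s := s) (by linarith)
    field_simp

lemma gam_zero : (Complex.Gammaℝ 0)⁻¹ = 0 := by
  rw [inv_eq_zero, Complex.Gammaℝ_eq_zero_iff]
  exact ⟨0, by simp⟩

/-- The continuation of `L(s, η)` and its zeros at `s = 0`. -/
theorem exists_L {𝔪 : Ideal (𝓞 K)} {e : InfinitePlace K → ℕ} {η : Ideal (𝓞 K) →*₀ ℂ}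
    (h : IsModChar 𝔪 e η) :
    ∃ L : ℂ → ℂ, DifferentiableOn ℂ L {1}ᶜ ∧ (∀ s : ℂ, 1 < s.re → L s = LI η s) ∧
      ((∃ φ, ex e φ = 0) → L 0 = 0) ∧
      ((∃ φ φ', φ ≠ φ' ∧ ex e φ = 0 ∧ ex e φ' = 0) → deriv L 0 = 0) := by
  classical
  obtain ⟨E, hE, hE1⟩ := exists_entire h
  refine ⟨fun s => E s * (∏ φ : K →+* ℂ, (Complex.Gammaℝ (s + ex e φ))⁻¹) / (s - 1), ?_, ?_, ?_, ?_⟩
  · refine DifferentiableOn.div ?_ (by fun_prop) ?_
    · exact (hE.mul (Pool.Agent.Y773.G.differentiable_gam (ex e))).differentiableOn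
    · intro s hs
      exact sub_ne_zero.mpr hs
  · intro s hs
    have h1 : s - 1 ≠ 0 := by
      intro h4
      have := congrArg Complex.re h4
      simp at this
      linarith
    simp only
    rw [hE1 s hs]
    field_simp
  · rintro ⟨φ, hφ⟩
    simp only
    rw [Finset.prod_eq_zero (Finset.mem_univ φ), mul_zero, zero_div]
    rw [hφ, Nat.cast_zero, add_zero, gam_zero]
  · rintro ⟨φ, φ', hne, hφ, hφ'⟩
    have hmem : φ' ∈ Finset.univ.erase φ := Finset.mem_erase.mpr ⟨hne.symm, Finset.mem_univ _⟩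
    have hfun : (fun s : ℂ => E s * (∏ φ : K →+* ℂ, (Complex.Gammaℝ (s + ex e φ))⁻¹) / (s - 1)) =
        fun s => (Complex.Gammaℝ s)⁻¹ * ((Complex.Gammaℝ s)⁻¹ *
          (E s * (∏ ψ ∈ (Finset.univ.erase φ).erase φ', (Complex.Gammaℝ (s + ex e ψ))⁻¹) /
            (s - 1))) := by
      funext s
      rw [← Finset.mul_prod_erase _ _ (Finset.mem_univ φ), ← Finset.mul_prod_erase _ _ hmem, hφ,
        hφ']
      simp only [Nat.cast_zero, add_zero]
      ring
    rw [hfun]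
    set g : ℂ → ℂ := fun s => (E s * (∏ ψ ∈ (Finset.univ.erase φ).erase φ',
      (Complex.Gammaℝ (s + ex e ψ))⁻¹) / (s - 1)) with hg
    have hgd : DifferentiableAt ℂ g 0 := by
      refine DifferentiableAt.div ?_ (by fun_prop) (by norm_num)
      refine (hE 0).mul ?_
      refine DifferentiableAt.fun_finsetProd fun ψ _ => ?_
      exact (Complex.differentiable_Gammaℝ_inv.comp (differentiable_id.add_const _)) 0
    have hGd : DifferentiableAt ℂ (fun s : ℂ => (Complex.Gammaℝ s)⁻¹) 0 :=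
      Complex.differentiable_Gammaℝ_inv 0
    have h1 : deriv (fun s => (Complex.Gammaℝ s)⁻¹ * ((Complex.Gammaℝ s)⁻¹ * g s)) 0 =
        deriv (fun s : ℂ => (Complex.Gammaℝ s)⁻¹) 0 * ((Complex.Gammaℝ 0)⁻¹ * g 0) +
          (Complex.Gammaℝ 0)⁻¹ * deriv (fun s => (Complex.Gammaℝ s)⁻¹ * g s) 0 :=
      deriv_fun_mul hGd (hGd.mul hgd)
    rw [h1, gam_zero]
    ring

end Pool.Agent.R363.SD
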