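import Pool.Agent.R363.SD.Main

/-!
# Fields with exactly one complex place
-/

set_option autoImplicit false
set_option linter.unusedSectionVars false

open NumberField IntermediateField

namespace Pool.Agent.R363.SD

variable {K : Type} [Field K] [NumberField K]

theorem atr_embeddings (hc : InfinitePlace.nrComplexPlaces K = 1)
    (hr : InfinitePlace.nrRealPlaces K ≠ 0) {ι : AlgebraicClosure K →+* ℂ}
    (hι : ¬ ComplexEmbedding.IsReal (ι.comp (algebraMap K (AlgebraicClosure K)))) :
    ((Set.univ : Set (K →+* ℝ)) = RR (ι.comp (algebraMap K (AlgebraicClosure K)))) ∧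
    (Set.univ : Set (K →+* ℝ)).Nonempty ∧
    (∀ g : AlgebraicClosure K →+* ℂ, ¬ Above ι g →
      ∃ τ ∈ (Set.univ : Set (K →+* ℝ)),
        g.comp (algebraMap K (AlgebraicClosure K)) = Complex.ofRealHom.comp τ) := by
  classical
  refine ⟨?_, ?_, ?_⟩
  · symm
    rw [Set.eq_univ_iff_forall]
    intro τ h
    apply hι
    rw [← h, ComplexEmbedding.isReal_iff]
    ext x
    simp [ComplexEmbedding.conjugate]
  · have h1 : 0 < Fintype.card {w : InfinitePlace K // w.IsReal} := Nat.pos_of_ne_zero hr
    obtain ⟨w, hw⟩ := Fintype.card_pos_iff.1 h1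
    exact ⟨InfinitePlace.embedding_of_isReal hw, trivial⟩
  · intro g hg
    have hreal : ComplexEmbedding.IsReal (g.comp (algebraMap K (AlgebraicClosure K))) := by
      by_contra hn
      apply hg
      unfold Above
      have h1 : (InfinitePlace.mk (g.comp (algebraMap K (AlgebraicClosure K)))).IsComplex :=
        ⟨_, hn, rfl⟩
      have h2 : (InfinitePlace.mk (ι.comp (algebraMap K (AlgebraicClosure K)))).IsComplex :=
        ⟨_, hι, rfl⟩
      have h3 : Fintype.card {w : InfinitePlace K // w.IsComplex} = 1 := hc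
      rw [Fintype.card_eq_one_iff] at h3
      obtain ⟨w, hw⟩ := h3
      have e1 := hw ⟨_, h1⟩
      have e2 := hw ⟨_, h2⟩
      exact congrArg Subtype.val (e1.trans e2.symm)
    refine ⟨hreal.embedding, trivial, ?_⟩
    ext x
    simp [ComplexEmbedding.IsReal.coe_embedding_apply]

end Pool.Agent.R363.SD
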