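import Pool.Agent.R363.SD.Defs

/-!
# Working forms of the definitions
-/

set_option autoImplicit false

open NumberField

namespace Pool.Agent.R363.SD

variable {K : Type} [Field K] [NumberField K] {R : Set (K →+* ℝ)} {𝔪 : Ideal (𝓞 K)}

namespace RayClassField

variable (C : RayClassField R 𝔪)

lemma finite : FiniteDimensional K C.H := C.isRayClassField.finite

lemma abelian : IsAbelianGalois K C.H := C.isRayClassField.abelian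

lemma art_mul (I J : Ideal (𝓞 K)) (hI : Cop 𝔪 I) (hJ : Cop 𝔪 J) :
    C.art (I * J) = C.art I * C.art J := C.isRayClassField.artin.mul I J hI hJ

lemma art_eq_iff (I J : Ideal (𝓞 K)) (hI : Cop 𝔪 I) (hJ : Cop 𝔪 J) :
    C.art I = C.art J ↔ SameClass R 𝔪 I J := C.isRayClassField.artin.eq_iff I J hI hJ

lemma art_surjective (g : C.H ≃ₐ[K] C.H) : ∃ I : Ideal (𝓞 K), Cop 𝔪 I ∧ C.art I = g :=
  C.isRayClassField.artin.surjective g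

lemma art_frobenius (P : Ideal (𝓞 K)) (hP : P.IsPrime) (h : Cop 𝔪 P) (Q : Ideal (𝓞 C.H))
    (hQ : Q.IsPrime) (hQP : Q.under (𝓞 K) = P) (x : 𝓞 C.H) :
    C.art P • x - x ^ Ideal.absNorm P ∈ Q :=
  C.isRayClassField.artin.frobenius P hP h Q hQ hQP x

end RayClassField

/-- the working form of `StarkTate` -/
def RealStarkUnits (ι : AlgebraicClosure K →+* ℂ)
    (C : RayClassField R 𝔪) (Z : Ideal (𝓞 K) → ℂ) : Prop :=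
  ∃ ε : Ideal (𝓞 K) → (𝓞 C.H)ˣ, ∀ A : Ideal (𝓞 K), Cop 𝔪 A →
    ι (((ε A : 𝓞 C.H) : C.H) : AlgebraicClosure K) = Complex.exp (2 * Z A) ∧
    (∀ B : Ideal (𝓞 K), Cop 𝔪 B → C.art B • (ε A : 𝓞 C.H) = ε (A * B)) ∧
    (∀ τ ∈ R, ∀ g : C.H →+* ℂ, g.comp (algebraMap K C.H) = Complex.ofRealHom.comp τ →
      ‖g ((ε A : 𝓞 C.H) : C.H)‖ = 1) ∧
    ∀ y : AlgebraicClosure K, y ^ 2 = (((ε A : 𝓞 C.H) : C.H) : AlgebraicClosure K) →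
      IsAbelianGalois K ↥(C.H ⊔ IntermediateField.adjoin K {y})

/-- the working form of `Stark` -/
def PlainStarkUnits (ι : AlgebraicClosure K →+* ℂ)
    (C : RayClassField R 𝔪) (Z : Ideal (𝓞 K) → ℂ) : Prop :=
  ∃ ε : Ideal (𝓞 K) → (𝓞 C.H)ˣ, ∀ A : Ideal (𝓞 K), Cop 𝔪 A →
    ι (((ε A : 𝓞 C.H) : C.H) : AlgebraicClosure K) = Complex.exp (2 * Z A) ∧
    (∀ B : Ideal (𝓞 K), Cop 𝔪 B → C.art B • (ε A : 𝓞 C.H) = ε (A * B)) ∧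
    ∀ τ ∈ R, ∀ g : C.H →+* ℂ, g.comp (algebraMap K C.H) = Complex.ofRealHom.comp τ →
      ‖g ((ε A : 𝓞 C.H) : C.H)‖ = 1

/-- the working form of `StarkComplex` -/
def ComplexStarkUnit (ι : AlgebraicClosure K →+* ℂ)
    (C : RayClassField R 𝔪) (Z : Ideal (𝓞 K) → ℂ) : Prop :=
  ∃ u : (𝓞 C.H)ˣ,
    (∀ A : Ideal (𝓞 K), Cop 𝔪 A → Z A = ((1 / (rootCount C.H : ℝ)) *
      Real.log (‖ι (((C.art A • (u : 𝓞 C.H) : 𝓞 C.H) : C.H) : AlgebraicClosure K)‖ ^ 2) : ℝ)) ∧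
    (∀ τ ∈ R, ∀ g : C.H →+* ℂ, g.comp (algebraMap K C.H) = Complex.ofRealHom.comp τ →
      ‖g ((u : 𝓞 C.H) : C.H)‖ = 1) ∧
    ∀ y : AlgebraicClosure K, y ^ rootCount C.H = (((u : 𝓞 C.H) : C.H) : AlgebraicClosure K) →
      IsAbelianGalois K ↥(C.H ⊔ IntermediateField.adjoin K {y})

lemma starkTate_iff (ι : AlgebraicClosure K →+* ℂ) (C : RayClassField R 𝔪)
    (Z : Ideal (𝓞 K) → ℂ) : StarkTate ι C Z ↔ RealStarkUnits ι C Z := by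
  constructor
  · rintro ⟨ε, h, hr⟩
    exact ⟨ε, fun A hA => ⟨h.value A hA, fun B hB => RingOfIntegers.coe_injective
      (h.galois A B hA hB), h.abs A hA, hr A hA⟩⟩
  · rintro ⟨ε, h⟩
    exact ⟨ε, ⟨fun A hA => (h A hA).1, fun A B hA hB => congrArg
      (fun x : 𝓞 C.H => (x : C.H)) ((h A hA).2.1 B hB), fun A hA => (h A hA).2.2.1⟩,
      fun A hA => (h A hA).2.2.2⟩

lemma stark_iff (ι : AlgebraicClosure K →+* ℂ) (C : RayClassField R 𝔪)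
    (Z : Ideal (𝓞 K) → ℂ) : Stark ι C Z ↔ PlainStarkUnits ι C Z := by
  constructor
  · rintro ⟨ε, h⟩
    exact ⟨ε, fun A hA => ⟨h.value A hA, fun B hB => RingOfIntegers.coe_injective
      (h.galois A B hA hB), h.abs A hA⟩⟩
  · rintro ⟨ε, h⟩
    exact ⟨ε, ⟨fun A hA => (h A hA).1, fun A B hA hB => congrArg
      (fun x : 𝓞 C.H => (x : C.H)) ((h A hA).2.1 B hB), fun A hA => (h A hA).2.2⟩⟩

lemma starkComplex_iff (ι : AlgebraicClosure K →+* ℂ) (C : RayClassField R 𝔪)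
    (Z : Ideal (𝓞 K) → ℂ) : StarkComplex ι C Z ↔ ComplexStarkUnit ι C Z := by
  constructor
  · rintro ⟨u, h, hr⟩
    exact ⟨u, h.value, h.abs, hr⟩
  · rintro ⟨u, h1, h2, h3⟩
    exact ⟨u, ⟨h1, h2⟩, h3⟩

/-- the hypothesis on the moduli, in the common form -/
def DeepHyp (R : Set (K →+* ℝ)) (n k : ℕ) (𝔪 𝔟 : Ideal (𝓞 K))
    (P : Ideal (𝓞 K) → (Ideal (𝓞 K) → ℂ) → Prop) : Prop :=
  ∀ s : Finset (Ideal (𝓞 K)), s.card = n →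
      (∀ 𝔮 ∈ s, 𝔮.IsPrime ∧ (Ideal.absNorm 𝔮).Prime ∧ IsCoprime 𝔮 𝔟 ∧
        ∃ γ : 𝓞 K, 𝔮 = Ideal.span {γ} ∧ γ - 1 ∈ 𝔪) →
      ∃ 𝔣 : Ideal (𝓞 K), 𝔣 ≠ ⊥ ∧ 𝔣 ≤ Ideal.span {(4 : 𝓞 K)} ^ (n + k) * 𝔪 * ∏ 𝔮 ∈ s, 𝔮 ∧
        (∀ 𝔭 : Ideal (𝓞 K), 𝔭.IsPrime → 𝔣 ≤ 𝔭 → 𝔪 * ∏ 𝔮 ∈ s, 𝔮 ≤ 𝔭) ∧
        ForZeta R 𝔪 𝔣 k (P 𝔣)

lemma holdsDeep_iff (R : Set (K →+* ℝ)) (n k : ℕ) (𝔪 𝔟 : Ideal (𝓞 K))
    (P : Ideal (𝓞 K) → (Ideal (𝓞 K) → ℂ) → Prop) :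
    HoldsDeep R P n k 𝔪 𝔟 ↔ DeepHyp R n k 𝔪 𝔟 P := by
  unfold HoldsDeep DeepHyp DeepMultiple
  simp only [mul_assoc, and_assoc]
  rfl

end Pool.Agent.R363.SD
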