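import Pool.Agent.R363.SD.Roots
import Pool.Agent.R363.SD.Old
import Pool.Agent.W401.Cheb.Main

/-!
# Compatibility of the Artin maps of different ray class fields
-/

set_option autoImplicit false
set_option linter.unusedSectionVars false

open NumberField IntermediateField

namespace Pool.Agent.R363.SD

variable {K : Type} [Field K] [NumberField K]

section sep

variable {H : Type} [Field H] [NumberField H] [Algebra K H]

/-- distinct automorphisms are distinct modulo almost all primes -/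
lemma frob_sep [FiniteDimensional K H] : ∃ D : ℕ, 0 < D ∧ ∀ (p : ℕ), ¬ p ∣ D →
    ∀ (F : Type) [Field F] [CharP F p] (f : 𝓞 H →+* F) (a b : H ≃ₐ[K] H),
      (∀ x : 𝓞 H, f (a • x) = f (b • x)) → a = b := by
  classical
  have := Fintype.ofFinite (H ≃ₐ[K] H)
  have key : ∀ ab : (H ≃ₐ[K] H) × (H ≃ₐ[K] H), ∃ z : 𝓞 H, z ≠ 0 ∧ (ab.1 ≠ ab.2 →
      ∀ (F : Type) [Field F] (f : 𝓞 H →+* F), (∀ x : 𝓞 H, f (ab.1 • x) = f (ab.2 • x)) →
        f z = 0) := by
    rintro ⟨a, b⟩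
    by_cases hab : a = b
    · exact ⟨1, one_ne_zero, fun h => absurd hab h⟩
    · have h1 : ∃ x : 𝓞 H, a • x ≠ b • x := by
        by_contra h
        push Not at h
        apply hab
        ext y
        obtain ⟨c, d, hd, rfl⟩ := IsFractionRing.div_surjective (A := 𝓞 H) y
        rw [map_div₀, map_div₀]
        have e1 : a (algebraMap (𝓞 H) H c) = b (algebraMap (𝓞 H) H c) :=
          congrArg (algebraMap (𝓞 H) H) (h c)
        have e2 : a (algebraMap (𝓞 H) H d) = b (algebraMap (𝓞 H) H d) :=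
          congrArg (algebraMap (𝓞 H) H) (h d)
        rw [e1, e2]
      obtain ⟨x, hx⟩ := h1
      exact ⟨a • x - b • x, sub_ne_zero.2 hx, fun _ F _ f hf => by rw [map_sub, hf x, sub_self]⟩
  choose z hz0 hz using key
  refine ⟨∏ ab, Ideal.absNorm (Ideal.span {z ab}), Finset.prod_pos fun ab _ => ?_, ?_⟩
  · rw [Nat.pos_iff_ne_zero, Ne, Ideal.absNorm_eq_zero_iff]
    simpa using hz0 ab
  · intro p hp F _ _ f a b hf
    by_contra hab
    apply hp
    refine dvd_trans ?_ (Finset.dvd_prod_of_mem _ (Finset.mem_univ (a, b)))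
    rw [← CharP.cast_eq_zero_iff F p]
    have h1 := Ideal.absNorm_mem (Ideal.span {z (a, b)})
    obtain ⟨w, hw⟩ := Ideal.mem_span_singleton.mp h1
    have h2 := congrArg f hw
    rw [map_natCast, map_mul, hz (a, b) hab F f hf, zero_mul] at h2
    exact h2

end sep

/-- Chebotarev: every element of the Galois group is a Frobenius element at some prime of degree
one, outside any given finite set of primes -/
lemma exists_frob (H : IntermediateField K (AlgebraicClosure K)) [FiniteDimensional K H]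
    [Normal K H] (σ : GK K) (D : ℕ) (hD : 0 < D) : ∃ (p : ℕ) (_ : Fact p.Prime), ¬ p ∣ D ∧
      ∃ f : 𝓞 H →+* AlgebraicClosure (ZMod p),
        ∀ x : 𝓞 H, f (AlgEquiv.restrictNormalHom H σ • x) = f x ^ p := by
  have hcl : IsAlgClosure ℚ (AlgebraicClosure K) :=
    ⟨inferInstance, Algebra.IsAlgebraic.trans ℚ K (AlgebraicClosure K)⟩
  have hnorm : Normal ℚ (AlgebraicClosure K) := IsAlgClosure.normal ℚ (AlgebraicClosure K)
  set E : IntermediateField ℚ (AlgebraicClosure K) := H.restrictScalars ℚ with hE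
  have hEfin : FiniteDimensional ℚ E := by
    have : FiniteDimensional ℚ H := FiniteDimensional.trans ℚ K H
    exact this
  set N : IntermediateField ℚ (AlgebraicClosure K) := normalClosure ℚ E (AlgebraicClosure K)
    with hN
  have hNfin : FiniteDimensional ℚ N := inferInstance
  have hNnf : NumberField N := ⟨⟩
  have hNn : Normal ℚ N := normalClosure.normal ℚ E (AlgebraicClosure K)
  have hNg : IsGalois ℚ N := ⟨⟩
  have hle : E ≤ N := E.le_normalClosure
  set g : Gal(N/ℚ) := AlgEquiv.restrictNormalHom N (σ.restrictScalars ℚ) with hg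
  obtain ⟨p, hp, hpD⟩ := (Pool.Agent.W401.Cheb.infinite_frob N g).exists_gt D
  have hpf : Fact p.Prime := ⟨hp.1⟩
  refine ⟨p, hpf, fun h => absurd (Nat.le_of_dvd hD h) (not_le.2 hpD), ?_⟩
  have hx := hp.2
  unfold Pool.Agent.W401.Cheb.xp at hx
  rw [dif_pos hp.1] at hx
  obtain ⟨⟨φ, hφ⟩⟩ := (Nat.card_ne_zero.1 hx).1
  let j : H →+* N :=
    { toFun := fun x => ⟨(x : AlgebraicClosure K), hle x.2⟩
      map_one' := rfl
      map_mul' := fun _ _ => rfl
      map_zero' := rfl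
      map_add' := fun _ _ => rfl }
  refine ⟨φ.comp (RingOfIntegers.mapRingHom j), fun x => ?_⟩
  rw [RingHom.comp_apply, RingHom.comp_apply, ← hφ]
  congr 1
  apply RingOfIntegers.coe_injective
  apply Subtype.val_injective
  have h1 : ((RingOfIntegers.mapRingHom j (AlgEquiv.restrictNormalHom H σ • x) : N) :
      AlgebraicClosure K) = σ ((x : H) : AlgebraicClosure K) :=
    AlgEquiv.restrictNormalHom_apply H σ (x : H)
  have h2 : ((g • RingOfIntegers.mapRingHom j x : 𝓞 N) : N) =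
      g ((RingOfIntegers.mapRingHom j x : 𝓞 N) : N) := rfl
  have h3 : ((g ((RingOfIntegers.mapRingHom j x : 𝓞 N) : N) : N) : AlgebraicClosure K) =
      σ (((RingOfIntegers.mapRingHom j x : 𝓞 N) : N) : AlgebraicClosure K) :=
    AlgEquiv.restrictNormalHom_apply N (σ.restrictScalars ℚ) _
  have h4 : (((RingOfIntegers.mapRingHom j x : 𝓞 N) : N) : AlgebraicClosure K) =
      ((x : H) : AlgebraicClosure K) := rfl
  exact h1.trans ((congrArg (fun y : AlgebraicClosure K => σ y) h4).symm.trans h3.symm)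

/-- the prime of `K` of a homomorphism with Frobenius -/
lemma absNorm_ker (p : ℕ) [Fact p.Prime] (f : 𝓞 K →+* AlgebraicClosure (ZMod p))
    (hf : ∀ x, f x ^ p = f x) : Ideal.absNorm (RingHom.ker f) = p := by
  have h1 : Ideal.absNorm (RingHom.ker f) = Nat.card f.range := by
    have e := RingHom.quotientKerEquivRange f
    rw [← Nat.card_congr e.toEquiv]
    rfl
  have h2 : (f.range : Set (AlgebraicClosure (ZMod p))) =
      Set.range (algebraMap (ZMod p) (AlgebraicClosure (ZMod p))) := by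
    ext y
    constructor
    · rintro ⟨x, rfl⟩
      exact W54.ChTor.frob_fixed p (f x) (hf x)
    · rintro ⟨z, rfl⟩
      refine ⟨(z.val : 𝓞 K), ?_⟩
      rw [map_natCast]
      have : ((z.val : ℕ) : ZMod p) = z := ZMod.natCast_zmod_val z
      conv_rhs => rw [← this]
      rw [map_natCast]
  have h3 : Nat.card f.range =
      Nat.card (Set.range (algebraMap (ZMod p) (AlgebraicClosure (ZMod p)))) := by
    rw [← h2]
    rfl
  rw [h1, h3, Nat.card_range_of_injective (algebraMap (ZMod p) _).injective, Nat.card_zmod]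

section

variable {R : Set (K →+* ℝ)} {𝔣 : Ideal (𝓞 K)} (C : RayClassField R 𝔣)

instance : FiniteDimensional K C.H := C.finite
instance : IsAbelianGalois K C.H := C.abelian

/-- the restriction of an element of the absolute Galois group -/
noncomputable def RayClassField.res : GK K →* (C.H ≃ₐ[K] C.H) := AlgEquiv.restrictNormalHom C.H

/-- the inclusion of rings of integers -/
noncomputable def incl {H L : IntermediateField K (AlgebraicClosure K)} (h : H ≤ L) : 𝓞 H →+* 𝓞 L :=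
  RingOfIntegers.mapRingHom (IntermediateField.inclusion h : H →+* L)

lemma incl_coe {H L : IntermediateField K (AlgebraicClosure K)} (h : H ≤ L) (x : 𝓞 H) :
    ((incl h x : L) : AlgebraicClosure K) = ((x : H) : AlgebraicClosure K) := rfl

lemma art_eq_of_frob {L : IntermediateField K (AlgebraicClosure K)} [Normal K L] (hL : C.H ≤ L)
    {σ : GK K} {D : ℕ} (hD : ∀ (p : ℕ), ¬ p ∣ D →
      ∀ (F : Type) [Field F] [CharP F p] (f : 𝓞 C.H →+* F) (a b : C.H ≃ₐ[K] C.H),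
        (∀ x : 𝓞 C.H, f (a • x) = f (b • x)) → a = b)
    {p : ℕ} [Fact p.Prime] (hpD : ¬ p ∣ D) (f : 𝓞 L →+* AlgebraicClosure (ZMod p))
    (hf : ∀ x : 𝓞 L, f (AlgEquiv.restrictNormalHom L σ • x) = f x ^ p)
    (hP : Cop 𝔣 (RingHom.ker (f.comp (algebraMap (𝓞 K) (𝓞 L)))))
    (hN : Ideal.absNorm (RingHom.ker (f.comp (algebraMap (𝓞 K) (𝓞 L)))) = p) :
    C.art (RingHom.ker (f.comp (algebraMap (𝓞 K) (𝓞 L)))) = C.res σ := by
  have hchar : CharP (AlgebraicClosure (ZMod p)) p := inferInstance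
  refine hD p hpD (AlgebraicClosure (ZMod p)) (f.comp (incl hL)) _ _ fun x => ?_
  set P := RingHom.ker (f.comp (algebraMap (𝓞 K) (𝓞 L))) with hPdef
  have hPp : P.IsPrime := RingHom.ker_isPrime _
  set Q := RingHom.ker (f.comp (incl hL)) with hQdef
  have hQp : Q.IsPrime := RingHom.ker_isPrime _
  have hunder : Q.under (𝓞 K) = P := by
    ext y
    rw [Ideal.under_def, Ideal.mem_comap, hQdef, hPdef, RingHom.mem_ker, RingHom.mem_ker]
    have h1 : incl hL (algebraMap (𝓞 K) (𝓞 C.H) y) = algebraMap (𝓞 K) (𝓞 L) y := by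
      apply RingOfIntegers.coe_injective
      apply Subtype.val_injective
      rw [incl_coe]
      rfl
    rw [RingHom.comp_apply, RingHom.comp_apply, h1]
  have h2 := C.art_frobenius P hPp hP Q hQp hunder x
  rw [hN, hQdef, RingHom.mem_ker, map_sub, sub_eq_zero, map_pow] at h2
  rw [h2]
  have h3 : incl hL (C.res σ • x) = AlgEquiv.restrictNormalHom L σ • incl hL x := by
    apply RingOfIntegers.coe_injective
    apply Subtype.val_injective
    rw [incl_coe]
    have e1 : (((C.res σ • x : 𝓞 C.H) : C.H) : AlgebraicClosure K) =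
        σ ((x : C.H) : AlgebraicClosure K) :=
      AlgEquiv.restrictNormalHom_apply C.H σ (x : C.H)
    have e2 : (((AlgEquiv.restrictNormalHom L σ • incl hL x : 𝓞 L) : L) : AlgebraicClosure K) =
        σ (((incl hL x : 𝓞 L) : L) : AlgebraicClosure K) :=
      AlgEquiv.restrictNormalHom_apply L σ _
    rw [e1, e2, incl_coe]
  rw [RingHom.comp_apply, RingHom.comp_apply, h3, hf]

lemma frob_K {L : IntermediateField K (AlgebraicClosure K)} [Normal K L] {σ : GK K} {p : ℕ}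
    [Fact p.Prime] {f : 𝓞 L →+* AlgebraicClosure (ZMod p)}
    (hf : ∀ x : 𝓞 L, f (AlgEquiv.restrictNormalHom L σ • x) = f x ^ p) (x : 𝓞 K) :
    (f.comp (algebraMap (𝓞 K) (𝓞 L))) x ^ p = (f.comp (algebraMap (𝓞 K) (𝓞 L))) x := by
  rw [RingHom.comp_apply, ← hf]
  congr 1
  apply RingOfIntegers.coe_injective
  apply Subtype.val_injective
  have e2 : (((AlgEquiv.restrictNormalHom L σ • algebraMap (𝓞 K) (𝓞 L) x : 𝓞 L) : L) :
      AlgebraicClosure K) = σ (((algebraMap (𝓞 K) (𝓞 L) x : 𝓞 L) : L) : AlgebraicClosure K) :=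
    AlgEquiv.restrictNormalHom_apply L σ _
  have e3 : (((algebraMap (𝓞 K) (𝓞 L) x : 𝓞 L) : L) : AlgebraicClosure K) =
      algebraMap K (AlgebraicClosure K) (x : K) := rfl
  rw [e2, e3, AlgEquiv.commutes]

lemma coprime_of_norm {P 𝔤 : Ideal (𝓞 K)} (hPp : P.IsPrime) (hPm : P ≠ ⊥) {p : ℕ}
    [Fact p.Prime] (hp : (p : 𝓞 K) ∈ P) (h : ¬ p ∣ Ideal.absNorm 𝔤) : IsCoprime P 𝔤 := by
  have hmax := hPp.isMaximal hPm
  rw [Ideal.isCoprime_iff_sup_eq]
  by_contra h1
  have h2 : P = P ⊔ 𝔤 := hmax.eq_of_le h1 le_sup_left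
  have h3 : 𝔤 ≤ P := by
    rw [h2]
    exact le_sup_right
  have h4 := h3 (Ideal.absNorm_mem 𝔤)
  have h5 : IsCoprime (p : ℤ) (Ideal.absNorm 𝔤 : ℤ) :=
    Nat.isCoprime_iff_coprime.2 ((Fact.out : p.Prime).coprime_iff_not_dvd.2 h)
  obtain ⟨a, b, hab⟩ := h5
  apply hPp.ne_top
  rw [Ideal.eq_top_iff_one]
  have h6 : (1 : 𝓞 K) = (a : 𝓞 K) * (p : 𝓞 K) + (b : 𝓞 K) * (Ideal.absNorm 𝔤 : 𝓞 K) := by
    have := congrArg (fun z : ℤ => (z : 𝓞 K)) hab
    push_cast at this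
    exact this.symm
  rw [h6]
  exact P.add_mem (P.mul_mem_left _ hp) (P.mul_mem_left _ h4)

/-- the kernel of a homomorphism with Frobenius -/
lemma ker_props {L : IntermediateField K (AlgebraicClosure K)} [Normal K L] {σ : GK K} {p : ℕ}
    [Fact p.Prime] {f : 𝓞 L →+* AlgebraicClosure (ZMod p)}
    (hf : ∀ x : 𝓞 L, f (AlgEquiv.restrictNormalHom L σ • x) = f x ^ p) :
    (RingHom.ker (f.comp (algebraMap (𝓞 K) (𝓞 L)))).IsPrime ∧
    RingHom.ker (f.comp (algebraMap (𝓞 K) (𝓞 L))) ≠ ⊥ ∧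
    Ideal.absNorm (RingHom.ker (f.comp (algebraMap (𝓞 K) (𝓞 L)))) = p ∧
    (p : 𝓞 K) ∈ RingHom.ker (f.comp (algebraMap (𝓞 K) (𝓞 L))) := by
  have hNP := absNorm_ker p _ (frob_K hf)
  refine ⟨RingHom.ker_isPrime _, ?_, hNP, ?_⟩
  · intro h1
    rw [h1, Ideal.absNorm_bot] at hNP
    exact (Fact.out : p.Prime).ne_zero hNP.symm
  · rw [RingHom.mem_ker, map_natCast, CharP.cast_eq_zero_iff _ p]

/-- Chebotarev for a ray class field -/
lemma exists_prime (h0 : 𝔣 ≠ ⊥) {𝔟 : Ideal (𝓞 K)} (hb : 𝔟 ≠ ⊥) (σ : GK K) :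
    ∃ 𝔮 : Ideal (𝓞 K), 𝔮.IsPrime ∧ 𝔮 ≠ ⊥ ∧ (Ideal.absNorm 𝔮).Prime ∧ IsCoprime 𝔮 (𝔣 * 𝔟) ∧
      C.art 𝔮 = C.res σ := by
  have hnf := numberField_of_finite C.H
  obtain ⟨D, hD0, hD⟩ := frob_sep (K := K) (H := C.H)
  have hfb : 𝔣 * 𝔟 ≠ ⊥ := by
    rw [Ne, Ideal.mul_eq_bot]
    tauto
  have hN0 : 0 < Ideal.absNorm (𝔣 * 𝔟) := by
    rw [Nat.pos_iff_ne_zero, Ne, Ideal.absNorm_eq_zero_iff]
    exact hfb
  obtain ⟨p, hp, hpD, f, hf⟩ := exists_frob C.H σ (D * Ideal.absNorm (𝔣 * 𝔟))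
    (Nat.mul_pos hD0 hN0)
  have hpD1 : ¬ p ∣ D := fun h => hpD (h.mul_right _)
  have hpD3 : ¬ p ∣ Ideal.absNorm (𝔣 * 𝔟) := fun h => hpD (h.mul_left _)
  obtain ⟨hPp, hPm, hNP, hpP⟩ := ker_props hf
  have hcop := coprime_of_norm hPp hPm hpP hpD3
  refine ⟨_, hPp, hPm, by rw [hNP]; exact hp.out, hcop, ?_⟩
  exact art_eq_of_frob C (L := C.H) le_rfl hD hpD1 f hf ⟨hPm, hcop.of_mul_right_left⟩ hNP

lemma Ray.mono {𝔣' : Ideal (𝓞 K)} (hle : 𝔣' ≤ 𝔣) {x : 𝓞 K} (h : Ray R 𝔣' x) : Ray R 𝔣 x :=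
  ⟨h.1, hle h.2.1, h.2.2⟩

lemma SameClass.mono {𝔣' : Ideal (𝓞 K)} (hle : 𝔣' ≤ 𝔣) {I J : Ideal (𝓞 K)}
    (h : SameClass R 𝔣' I J) : SameClass R 𝔣 I J := by
  obtain ⟨x, y, hx, hy, h⟩ := h
  exact ⟨x, y, hx.mono hle, hy.mono hle, h⟩

lemma Cop.mono {𝔣' : Ideal (𝓞 K)} (hle : 𝔣' ≤ 𝔣) {I : Ideal (𝓞 K)} (h : Cop 𝔣' I) : Cop 𝔣 I := by
  refine ⟨h.1, ?_⟩
  have h1 := h.2
  rw [Ideal.isCoprime_iff_sup_eq] at h1 ⊢
  exact top_le_iff.1 (h1 ▸ sup_le_sup_left hle I)

/-- **The Artin maps are compatible.** -/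
theorem compat {𝔣' : Ideal (𝓞 K)} (h0 : 𝔣' ≠ ⊥) (hle : 𝔣' ≤ 𝔣) (C' : RayClassField R 𝔣')
    (σ : GK K) (I : Ideal (𝓞 K)) (hI : Cop 𝔣' I) (h : C'.art I = C'.res σ) :
    C.art I = C.res σ := by
  set L := C.H ⊔ C'.H with hL
  have hLfin : FiniteDimensional K L := inferInstance
  have hLn : Normal K L := inferInstance
  have hnf := numberField_of_finite C.H
  have hnf' := numberField_of_finite C'.H
  have hnfL := numberField_of_finite L
  obtain ⟨D, hD0, hD⟩ := frob_sep (K := K) (H := C.H)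
  obtain ⟨D', hD0', hD'⟩ := frob_sep (K := K) (H := C'.H)
  have hN0 : 0 < Ideal.absNorm 𝔣' := by
    rw [Nat.pos_iff_ne_zero, Ne, Ideal.absNorm_eq_zero_iff]
    exact h0
  obtain ⟨p, hp, hpD, f, hf⟩ := exists_frob L σ (D * D' * Ideal.absNorm 𝔣')
    (Nat.mul_pos (Nat.mul_pos hD0 hD0') hN0)
  have hpD1 : ¬ p ∣ D := fun h => hpD ((h.mul_right _).mul_right _)
  have hpD2 : ¬ p ∣ D' := fun h => hpD ((h.mul_left _).mul_right _)
  have hpD3 : ¬ p ∣ Ideal.absNorm 𝔣' := fun h => hpD (h.mul_left _)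
  obtain ⟨hPp, hPm, hNP, hpP⟩ := ker_props hf
  set P := RingHom.ker (f.comp (algebraMap (𝓞 K) (𝓞 L))) with hP
  have hcop : Cop 𝔣' P := ⟨hPm, coprime_of_norm hPp hPm hpP hpD3⟩
  have h1 := art_eq_of_frob C (L := L) le_sup_left hD hpD1 f hf (hcop.mono hle) hNP
  have h2 := art_eq_of_frob C' (L := L) le_sup_right hD' hpD2 f hf hcop hNP
  rw [← h2, C'.art_eq_iff I P hI hcop] at h
  rw [← h1, C.art_eq_iff I P (hI.mono hle) (hcop.mono hle)]
  exact h.mono hle

end

end Pool.Agent.R363.SD
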