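import Pool.Agent.R363.SD.Rel

/-!
# The derivatives of partial zeta functions as functions on the absolute Galois group
-/

set_option autoImplicit false
set_option linter.unusedSectionVars false

open NumberField Complex Filter Topology

namespace Pool.Agent.R363.SD

variable {K : Type} [Field K] [NumberField K]

/-- A finite commutative quotient of a group `𝒢` together with an Artin map. -/
structure RCG (𝒢 : Type) [Group 𝒢] (R : Set (K →+* ℝ)) (𝔪 : Ideal (𝓞 K)) where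
  G : Type
  grp : CommGroup G
  fin : Finite G
  res : 𝒢 →* G
  res_surj : Function.Surjective res
  art : Ideal (𝓞 K) → G
  art_mul : ∀ I J, Cop 𝔪 I → Cop 𝔪 J → art (I * J) = art I * art J
  art_eq_iff : ∀ I J, Cop 𝔪 I → Cop 𝔪 J → (art I = art J ↔ SameClass R 𝔪 I J)
  art_surj : ∀ g : G, ∃ I : Ideal (𝓞 K), Cop 𝔪 I ∧ art I = g

attribute [instance] RCG.grp RCG.fin

namespace RCG

variable {𝒢 : Type} [Group 𝒢] {v : K →+* ℂ} {R : Set (K →+* ℝ)} {𝔣 𝔣' : Ideal (𝓞 K)}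

lemma artLike (D : RCG 𝒢 R 𝔣) : ArtLike R 𝔣 D.art where
  mul := D.art_mul
  ray x hx := by
    have h0 : D.art ⊤ = 1 := by
      have h1 := D.art_mul ⊤ ⊤ (cop_top 𝔣) (cop_top 𝔣)
      rw [Ideal.top_mul] at h1
      exact (mul_eq_left.mp h1.symm)
    rw [← h0, D.art_eq_iff _ _ (cop_span hx.1 hx.2.1) (cop_top 𝔣)]
    refine ⟨1, x, ⟨one_ne_zero, by simp, fun τ _ => by simp⟩, hx, ?_⟩
    rw [Ideal.span_singleton_one, Ideal.top_mul, Ideal.mul_top]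

open Classical in
/-- minus the derivative at `0` of the partial zeta function of the class of `σ` -/
noncomputable def ff (D : RCG 𝒢 R 𝔣) (σ : 𝒢) : ℝ :=
  -(deriv (Classical.epsilon fun F : ℂ → ℂ => ZF 𝔣 D.art (D.res σ) F) 0).re

lemma ff_eq (D : RCG 𝒢 R 𝔣) {σ : 𝒢} {F : ℂ → ℂ} (h : ZF 𝔣 D.art (D.res σ) F) :
    D.ff σ = -(deriv F 0).re := by
  have h1 : ZF 𝔣 D.art (D.res σ) (Classical.epsilon fun F : ℂ → ℂ => ZF 𝔣 D.art (D.res σ) F) :=
    Classical.epsilon_spec (p := fun F : ℂ → ℂ => ZF 𝔣 D.art (D.res σ) F) ⟨F, h⟩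
  unfold ff
  rw [h1.deriv_eq h]

lemma ff_of_res (D : RCG 𝒢 R 𝔣) {σ τ : 𝒢} (h : D.res σ = D.res τ) : D.ff σ = D.ff τ := by
  unfold ff
  rw [h]

lemma cop_neg {v : K →+* ℂ} (h0 : 𝔣 ≠ ⊥) {τ : K →+* ℝ} :
    ∃ x : 𝓞 K, x ≠ 0 ∧ x - 1 ∈ 𝔣 ∧ τ (x : K) < 0 ∧ ∀ τ' ∈ RR v, τ' ≠ τ → 0 < τ' (x : K) := by
  obtain ⟨x, hx0, hx1, hx2, hx3⟩ := Pool.Agent.Y772.G.exists_neg h0
    (InfinitePlace.mk (Complex.ofRealHom.comp τ))
  refine ⟨x, hx0, hx1, ?_, fun τ' _ hne => ?_⟩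
  · rw [← rl_mk]
    exact hx2 ⟨_, isReal_mk_ofReal τ, rfl⟩
  · rw [← rl_mk]
    refine hx3 _ fun _ h => hne ?_
    rw [mk_ofReal_eq_iff] at h
    ext y
    have := congrArg (fun f => f y) h
    simpa using this

/-- (R1) -/
lemma ff_neg (D : RCG 𝒢 (RR v) 𝔣) (h0 : 𝔣 ≠ ⊥) (h𝔣 : 𝔣 ≠ ⊤) (hR : (RR v).Nonempty) :
    ∃ (c : 𝒢) (x : 𝓞 K), x ≠ 0 ∧ x - 1 ∈ 𝔣 ∧ D.art (Ideal.span {x}) = D.res c ∧
      ∀ σ, D.ff (σ * c) = -D.ff σ := by
  obtain ⟨F, hF1, -, hF3⟩ := exists_fam h0 h𝔣 D.artLike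
  obtain ⟨τ, hτ⟩ := hR
  obtain ⟨x, hx0, hx1, hx2, hx3⟩ := cop_neg (v := v) h0 (τ := τ)
  obtain ⟨c, hc⟩ := D.res_surj (D.art (Ideal.span {x}))
  refine ⟨c, x, hx0, hx1, hc.symm, fun σ => ?_⟩
  rw [D.ff_eq (hF1 (D.res (σ * c))), D.ff_eq (hF1 (D.res σ)), map_mul, hc]
  have h1 := congrArg Complex.re (hF3 τ hτ x hx1 hx2 hx3 (D.res σ))
  simp only [Complex.add_re, Complex.zero_re] at h1
  linarith

/-- compatibility of two Artin maps -/
def Compat (D : RCG 𝒢 R 𝔣) (D' : RCG 𝒢 R 𝔣') : Prop :=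
  ∀ σ I, Cop 𝔣' I → D'.art I = D'.res σ → D.art I = D.res σ

section compat

variable {D : RCG 𝒢 R 𝔣} {D' : RCG 𝒢 R 𝔣'}

lemma Compat.res_eq (h : Compat D D') {σ τ : 𝒢} (hστ : D'.res σ = D'.res τ) :
    D.res σ = D.res τ := by
  obtain ⟨I, hI, hI'⟩ := D'.art_surj (D'.res σ)
  rw [← h σ I hI hI', ← h τ I hI (hI'.trans hστ)]

/-- the map between the quotients -/
noncomputable def Compat.r (h : Compat D D') : D'.G →* D.G :=
  MonoidHom.mk' (fun g => D.res (Function.surjInv D'.res_surj g)) (by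
    intro g g'
    rw [← map_mul]
    apply h.res_eq
    rw [map_mul, Function.surjInv_eq D'.res_surj, Function.surjInv_eq D'.res_surj,
      Function.surjInv_eq D'.res_surj])

lemma Compat.r_res (h : Compat D D') (σ : 𝒢) : h.r (D'.res σ) = D.res σ := by
  apply h.res_eq
  rw [Function.surjInv_eq D'.res_surj]

lemma Compat.r_art (h : Compat D D') {I : Ideal (𝓞 K)} (hI : Cop 𝔣' I) :
    h.r (D'.art I) = D.art I := by
  obtain ⟨σ, hσ⟩ := D'.res_surj (D'.art I)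
  rw [← hσ, h.r_res, ← h σ I hI hσ.symm]

open Classical in
/-- the sum over a fibre of the map between the quotients -/
lemma Compat.sum_fibre [Fintype D'.G] (h : Compat D D') (f : D'.G → ℝ) (σ : 𝒢) :
    ∑ g' ∈ Finset.univ.filter (fun g' => h.r g' = D.res σ), f g' =
      ∑ n ∈ Finset.univ.filter (fun g' => h.r g' = 1), f (D'.res σ * n) := by
  symm
  refine Finset.sum_bij (fun n _ => D'.res σ * n) ?_ ?_ ?_ ?_
  · intro n hn
    rw [Finset.mem_filter] at hn ⊢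
    exact ⟨Finset.mem_univ _, by rw [map_mul, hn.2, mul_one, h.r_res]⟩
  · intro n _ n' _ hnn
    exact mul_left_cancel hnn
  · intro g' hg'
    rw [Finset.mem_filter] at hg'
    refine ⟨(D'.res σ)⁻¹ * g', ?_, by rw [mul_inv_cancel_left]⟩
    rw [Finset.mem_filter]
    refine ⟨Finset.mem_univ _, ?_⟩
    rw [map_mul, hg'.2, map_inv, h.r_res, inv_mul_cancel]
  · intro n _
    rfl

/-- (R2) moduli with the same prime divisors -/
lemma Compat.ff_same {D : RCG 𝒢 (RR v) 𝔣} {D' : RCG 𝒢 (RR v) 𝔣'} (h : Compat D D')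
    (h0 : 𝔣' ≠ ⊥) (h𝔣 : 𝔣' ≠ ⊤) (hc : ∀ I, Cop 𝔣 I ↔ Cop 𝔣' I) :
    ∃ (J : Type) (_ : Fintype J) (ρ : J → 𝒢), Nat.card J = Nat.card h.r.ker ∧
      (∀ j, D.res (ρ j) = 1) ∧ ∀ σ, D.ff σ = ∑ j, D'.ff (σ * ρ j) := by
  classical
  have := Fintype.ofFinite D'.G
  have := Fintype.ofFinite D.G
  obtain ⟨F, hF1, -, -⟩ := exists_fam h0 h𝔣 D'.artLike
  refine ⟨h.r.ker, inferInstance, fun n => Function.surjInv D'.res_surj n, rfl, fun n => ?_,
    fun σ => ?_⟩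
  · rw [← h.r_res, Function.surjInv_eq D'.res_surj]
    exact MonoidHom.mem_ker.1 n.2
  have h1 := (zf_push h.r (fun I hI => h.r_art hI) hF1 (D.res σ)).of_cop_iff hc
  rw [D.ff_eq h1]
  have h2 : deriv (fun s => ∑ g' ∈ Finset.univ.filter (fun g' => h.r g' = D.res σ), F g' s) 0 =
      ∑ g' ∈ Finset.univ.filter (fun g' => h.r g' = D.res σ), deriv (F g') 0 :=
    deriv_fun_sum fun g' _ =>
      (hF1 g').1.differentiableAt (isOpen_compl_singleton.mem_nhds (by simp))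
  rw [h2, Complex.re_sum, ← Finset.sum_neg_distrib, h.sum_fibre (fun g' => -(deriv (F g') 0).re)]
  have h3 : ∀ n : h.r.ker, D'.ff (σ * Function.surjInv D'.res_surj n) =
      -(deriv (F (D'.res σ * n)) 0).re := by
    intro n
    have h4 : D'.res (σ * Function.surjInv D'.res_surj n) = D'.res σ * n := by
      rw [map_mul, Function.surjInv_eq D'.res_surj]
    rw [D'.ff_eq (F := F (D'.res σ * n)) (by rw [h4]; exact hF1 _)]
  rw [Finset.sum_congr rfl fun n _ => h3 n]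
  rw [← Finset.sum_subtype (Finset.univ.filter (fun g' => h.r g' = 1))
    (fun x => by simp [MonoidHom.mem_ker]) (fun n => -(deriv (F (D'.res σ * n)) 0).re)]

/-- (R3) removing a prime -/
lemma Compat.ff_prime {D : RCG 𝒢 (RR v) 𝔣} {𝔮 : Ideal (𝓞 K)} {D' : RCG 𝒢 (RR v) (𝔣 * 𝔮)}
    (h : Compat D D') (h0 : 𝔣 ≠ ⊥) (h𝔣 : 𝔣 ≠ ⊤) (hq : 𝔮.IsPrime) (hq0 : 𝔮 ≠ ⊥)
    (hqf : Cop 𝔣 𝔮) {φ : 𝒢} (hφ : D.res φ = D.art 𝔮) :
    ∃ (J : Type) (_ : Fintype J) (ρ : J → 𝒢),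
      ∀ σ, D.ff (σ * φ) - D.ff σ = ∑ j, D'.ff (σ * ρ j) := by
  classical
  have := Fintype.ofFinite D'.G
  have := Fintype.ofFinite D.G
  have h0' : 𝔣 * 𝔮 ≠ ⊥ := by
    rw [Ne, Ideal.mul_eq_bot]
    tauto
  have h𝔣' : 𝔣 * 𝔮 ≠ ⊤ := fun h => h𝔣 (top_le_iff.1 (h ▸ Ideal.mul_le_left))
  obtain ⟨F, hF1, hF2, -⟩ := exists_fam h0 h𝔣 D.artLike
  obtain ⟨F', hF1', -, -⟩ := exists_fam h0' h𝔣' D'.artLike
  refine ⟨h.r.ker, inferInstance, fun n => φ * Function.surjInv D'.res_surj n, fun σ => ?_⟩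
  have h1 := zf_push h.r (fun I hI => h.r_art hI) hF1' (D.res (σ * φ))
  have hq1 : (D.art 𝔮)⁻¹ * D.res (σ * φ) = D.res σ := by
    rw [map_mul, hφ, mul_comm, mul_inv_cancel_right]
  have h2 := zf_remove hq hq0 hqf (fun J hJ => D.art_mul 𝔮 J hqf hJ) (hF1 (D.res (σ * φ)))
    (F₂ := F (D.res σ)) (by rw [hq1]; exact hF1 _)
  have h3 := h1.deriv_eq h2
  have hd : ∀ g, DifferentiableAt ℂ (F g) 0 := fun g =>
    (hF1 g).1.differentiableAt (isOpen_compl_singleton.mem_nhds (by simp))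
  have hN : ((Ideal.absNorm 𝔮 : ℕ) : ℂ) ≠ 0 := by
    rw [Nat.cast_ne_zero, Ne, Ideal.absNorm_eq_zero_iff]
    exact hq0
  have hdN : DifferentiableAt ℂ (fun s : ℂ => ((Ideal.absNorm 𝔮 : ℕ) : ℂ) ^ (-s)) 0 :=
    (differentiableAt_id.neg).const_cpow (Or.inl hN)
  have h4 : deriv (fun s => F (D.res (σ * φ)) s -
      ((Ideal.absNorm 𝔮 : ℕ) : ℂ) ^ (-s) * F (D.res σ) s) 0 =
      deriv (F (D.res (σ * φ))) 0 - deriv (F (D.res σ)) 0 := by
    have h41 : deriv (fun s => F (D.res (σ * φ)) s -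
        ((Ideal.absNorm 𝔮 : ℕ) : ℂ) ^ (-s) * F (D.res σ) s) 0 =
        deriv (F (D.res (σ * φ))) 0 -
          deriv (fun s => ((Ideal.absNorm 𝔮 : ℕ) : ℂ) ^ (-s) * F (D.res σ) s) 0 :=
      deriv_fun_sub (hd _) (hdN.mul (hd _))
    have h42 : deriv (fun s => ((Ideal.absNorm 𝔮 : ℕ) : ℂ) ^ (-s) * F (D.res σ) s) 0 =
        deriv (fun s : ℂ => ((Ideal.absNorm 𝔮 : ℕ) : ℂ) ^ (-s)) 0 * F (D.res σ) 0 +
          ((Ideal.absNorm 𝔮 : ℕ) : ℂ) ^ (-(0 : ℂ)) * deriv (F (D.res σ)) 0 :=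
      deriv_fun_mul hdN (hd _)
    rw [h41, h42, hF2, neg_zero, Complex.cpow_zero]
    ring
  have h5 : deriv (fun s => ∑ g' ∈ Finset.univ.filter (fun g' => h.r g' = D.res (σ * φ)),
      F' g' s) 0 = ∑ g' ∈ Finset.univ.filter (fun g' => h.r g' = D.res (σ * φ)),
        deriv (F' g') 0 :=
    deriv_fun_sum fun g' _ =>
      (hF1' g').1.differentiableAt (isOpen_compl_singleton.mem_nhds (by simp))
  rw [h4, h5] at h3
  have h6 := congrArg Complex.re h3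
  rw [Complex.re_sum, Complex.sub_re] at h6
  rw [D.ff_eq (hF1 (D.res (σ * φ))), D.ff_eq (hF1 (D.res σ))]
  have h7 : -(deriv (F (D.res (σ * φ))) 0).re - -(deriv (F (D.res σ)) 0).re =
      ∑ g' ∈ Finset.univ.filter (fun g' => h.r g' = D.res (σ * φ)), -(deriv (F' g') 0).re := by
    rw [Finset.sum_neg_distrib, h6]
    ring
  rw [h7, h.sum_fibre (fun g' => -(deriv (F' g') 0).re)]
  have h8 : ∀ n : h.r.ker, D'.ff (σ * (φ * Function.surjInv D'.res_surj n)) =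
      -(deriv (F' (D'.res (σ * φ) * n)) 0).re := by
    intro n
    have h9 : D'.res (σ * (φ * Function.surjInv D'.res_surj n)) = D'.res (σ * φ) * n := by
      rw [← mul_assoc, map_mul D'.res (σ * φ), Function.surjInv_eq D'.res_surj]
    rw [D'.ff_eq (F := F' (D'.res (σ * φ) * n)) (by rw [h9]; exact hF1' _)]
  rw [Finset.sum_congr rfl fun n _ => h8 n]
  rw [← Finset.sum_subtype (Finset.univ.filter (fun g' => h.r g' = 1))
    (fun x => by simp [MonoidHom.mem_ker]) (fun n => -(deriv (F' (D'.res (σ * φ) * n)) 0).re)]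

end compat

end RCG

end Pool.Agent.R363.SD
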