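import Pool.Agent.R363.SD.Defs

/-!
# Tate's form of the rank one abelian Stark conjecture: definitions
-/

set_option autoImplicit false

namespace Pool.Agent.R363.SD

open NumberField

section

variable {K H : Type} [Field K] [NumberField K] [Field H] [Algebra K H]

/-- `F` is the analytic continuation to the complex numbers without `1` of the partial zeta
function `ζ_S(g, s) = ∑ N(I)^(-s)`, the sum over the nonzero ideals `I` coprime to `𝔪` with Artin
symbol `g`. -/
def IsPartialZetaOf (𝔪 : Ideal (𝓞 K)) (art : Ideal (𝓞 K) → (H ≃ₐ[K] H)) (g : H ≃ₐ[K] H)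
    (F : ℂ → ℂ) : Prop :=
  DifferentiableOn ℂ F {1}ᶜ ∧ ∀ s : ℂ, 1 < s.re →
    HasSum (fun I : {I : Ideal (𝓞 K) // Cop 𝔪 I ∧ art I = g} =>
      ((Ideal.absNorm I.1 : ℕ) : ℂ) ^ (-s)) (F s)

/-- The unit `u` of `H` is such that `d log |ι(g u)| = e Z(g)` for all `g` in the Galois group, and
`u` has absolute value `1` in every embedding of `H` which extends a real embedding of `K` in `R`. -/
structure TateUnit (R : Set (K →+* ℝ)) (ι : H →+* ℂ) (d e : ℕ) (Z : (H ≃ₐ[K] H) → ℂ)
    (u : (𝓞 H)ˣ) : Prop where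
  value : ∀ g : H ≃ₐ[K] H, ((d * Real.log ‖ι (g (u : 𝓞 H))‖ : ℝ) : ℂ) = e * Z g
  abs : ∀ τ ∈ R, ∀ φ : H →+* ℂ,
    φ.comp (algebraMap K H) = Complex.ofRealHom.comp τ → ‖φ (u : 𝓞 H)‖ = 1

/-- There is a unit `u` as in `TateUnit` which has the property `Q`. -/
def HasTateUnitWith (Q : H → Prop) (R : Set (K →+* ℝ)) (ι : H →+* ℂ) (d e : ℕ)
    (Z : (H ≃ₐ[K] H) → ℂ) : Prop :=
  ∃ u : (𝓞 H)ˣ, TateUnit R ι d e Z u ∧ Q (u : 𝓞 H)

/-- With `Z(g) = -ζ_S'(g, 0)`, where `S` consists of the archimedean places and the prime divisors of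
`𝔪`: the partial zeta functions have continuations `F g`, and there is a unit `u` as in `TateUnit`
which has the property `Q`. -/
def HasTateUnitZeta (Q : H → Prop) (R : Set (K →+* ℝ)) (𝔪 : Ideal (𝓞 K))
    (art : Ideal (𝓞 K) → (H ≃ₐ[K] H)) (ι : H →+* ℂ) (d e : ℕ) : Prop :=
  ∃ F : (H ≃ₐ[K] H) → ℂ → ℂ, (∀ g, IsPartialZetaOf 𝔪 art g (F g)) ∧
    HasTateUnitWith Q R ι d e (fun g => -deriv (F g) 0)

/-- For a function `Z` on the ideals coprime to `𝔪` which depends only on the Artin symbol: there is
a unit `u` as in `TateUnit` which has the property `Q`. -/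
def HasTateUnitOn (Q : H → Prop) (R : Set (K →+* ℝ)) (𝔪 : Ideal (𝓞 K))
    (art : Ideal (𝓞 K) → (H ≃ₐ[K] H)) (ι : H →+* ℂ) (d e : ℕ) (Z : Ideal (𝓞 K) → ℂ) : Prop :=
  ∃ Z' : (H ≃ₐ[K] H) → ℂ, (∀ A : Ideal (𝓞 K), Cop 𝔪 A → Z A = Z' (art A)) ∧
    HasTateUnitWith Q R ι d e Z'

/-- `art` is the Artin map of the abelian extension `H` of `K`, on the ideals coprime to `𝔪`, and
`H` is contained in the ray class field modulo `𝔪` and the real places in `R`. -/
structure IsArtinMapMod (R : Set (K →+* ℝ)) (𝔪 : Ideal (𝓞 K))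
    (art : Ideal (𝓞 K) → (H ≃ₐ[K] H)) : Prop where
  mul : ∀ I J : Ideal (𝓞 K), Cop 𝔪 I → Cop 𝔪 J → art (I * J) = art I * art J
  ray : ∀ x : 𝓞 K, Ray R 𝔪 x → art (Ideal.span {x}) = 1
  frobenius : ∀ P : Ideal (𝓞 K), P.IsPrime → Cop 𝔪 P → IsFrobenius P (art P)

end

section

variable {K : Type} [Field K] [NumberField K]

/-- `H` is a finite abelian extension of `K` with Artin map `art` on the ideals coprime to `𝔪`,
contained in the ray class field modulo `𝔪` and the real places in `R`. -/
structure IsAbelianExtension (R : Set (K →+* ℝ)) (𝔪 : Ideal (𝓞 K)) (H : Type) [Field H]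
    [Algebra K H] (art : Ideal (𝓞 K) → (H ≃ₐ[K] H)) : Prop where
  finite : FiniteDimensional K H
  abelian : IsAbelianGalois K H
  artin : IsArtinMapMod R 𝔪 art

/-- A finite abelian extension `H` of `K` inside the algebraic closure, contained in the ray class
field modulo `𝔪` and the real places in `R`, with its Artin map on the ideals coprime to `𝔪`. -/
structure AbelianExtension (R : Set (K →+* ℝ)) (𝔪 : Ideal (𝓞 K)) where
  /-- the field -/
  H : IntermediateField K (AlgebraicClosure K)
  /-- the Artin map -/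
  art : Ideal (𝓞 K) → (H ≃ₐ[K] H)
  isAbelianExtension : IsAbelianExtension R 𝔪 H art

/-- the local degree of the place of `K` defined by `ι` -/
noncomputable def localDegree (ι : AlgebraicClosure K →+* ℂ) : ℕ :=
  (InfinitePlace.mk (ι.comp (algebraMap K (AlgebraicClosure K)))).mult

/-- the real embeddings of `K` other than the restriction of `ι` -/
def otherReal (ι : AlgebraicClosure K →+* ℂ) : Set (K →+* ℝ) :=
  {τ | Complex.ofRealHom.comp τ ≠ ι.comp (algebraMap K (AlgebraicClosure K))}

variable {R : Set (K →+* ℝ)} {𝔪 : Ideal (𝓞 K)}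

/-- the embedding `ι` of the algebraic closure on the abelian extension -/
noncomputable def AbelianExtension.emb (E : AbelianExtension R 𝔪) (ι : AlgebraicClosure K →+* ℂ) :
    E.H →+* ℂ := ι.comp (algebraMap E.H (AlgebraicClosure K))

/-- **Tate's form of the rank one abelian Stark conjecture** for the extension `H` of `K`, where `S`
consists of the archimedean places and the primes dividing `𝔪`, and the split place is that of `ι`.
With `W` the number of roots of unity in `H`, there is a unit `u` of `H` such that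
`log |g u| = -W ζ_S'(g, 0)` for the normalised absolute value of `ι` and all `g` in the Galois group,
`u` has absolute value `1` above `R`, and `H(u^(1/W))` is abelian over `K`. -/
def AbelianExtension.Tate (E : AbelianExtension R 𝔪) (ι : AlgebraicClosure K →+* ℂ) : Prop :=
  HasTateUnitZeta (AbelianRoot (rootCount E.H) E.H) R 𝔪 E.art (E.emb ι) (localDegree ι)
    (rootCount E.H)

/-- The same for the ray class field, with a function `Z` on the ideals coprime to `𝔪`, which
depends only on the Artin symbol, in place of `-ζ_S'(g, 0)`. -/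
def TateOnIdeals (ι : AlgebraicClosure K →+* ℂ) (C : RayClassField R 𝔪) (Z : Ideal (𝓞 K) → ℂ) :
    Prop :=
  HasTateUnitOn (AbelianRoot (rootCount C.H) C.H) R 𝔪 C.art (C.emb ι) (localDegree ι)
    (rootCount C.H) Z

end

end Pool.Agent.R363.SD
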