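import Pool.Agent.R363.SD.Data

/-!
# The descent
-/

set_option autoImplicit false
set_option linter.unusedSectionVars false

open NumberField Complex Filter Topology

namespace Pool.Agent.R363.SD

section abstract_part

variable {𝒢 : Type} [Group 𝒢]

/-- a translation invariant additive group of functions -/
structure TI (L : (𝒢 → ℝ) → Prop) : Prop where
  zero : L (fun _ => 0)
  add : ∀ {f g : 𝒢 → ℝ}, L f → L g → L (fun σ => f σ + g σ)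
  neg : ∀ {f : 𝒢 → ℝ}, L f → L (fun σ => -f σ)
  tr : ∀ {f : 𝒢 → ℝ} (ρ : 𝒢), L f → L (fun σ => f (σ * ρ))

/-- all `k`-fold differences along `S` are in `L` -/
def Dk (L : (𝒢 → ℝ) → Prop) (S : Set 𝒢) : ℕ → (𝒢 → ℝ) → Prop
  | 0, f => L f
  | k + 1, f => ∀ ρ ∈ S, Dk L S k (fun σ => f σ - f (σ * ρ))

variable {L : (𝒢 → ℝ) → Prop} {S : Set 𝒢}

lemma TI.sum (hL : TI L) {J : Type} (s : Finset J) {f : J → 𝒢 → ℝ} (h : ∀ j ∈ s, L (f j)) :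
    L (fun σ => ∑ j ∈ s, f j σ) := by
  classical
  induction s using Finset.induction_on with
  | empty => simpa using hL.zero
  | insert a s ha ih =>
    simp only [Finset.sum_insert ha]
    exact hL.add (h a (Finset.mem_insert_self a s))
      (ih fun j hj => h j (Finset.mem_insert_of_mem hj))

lemma TI.nsmul (hL : TI L) (m : ℕ) {f : 𝒢 → ℝ} (h : L f) : L (fun σ => m * f σ) := by
  induction m with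
  | zero => simpa using hL.zero
  | succ m ih =>
    have := hL.add ih h
    refine (congrArg L (funext fun σ => ?_)).mp this
    push_cast
    ring

lemma TI.dk (hL : TI L) (hS : ∀ ρ ∈ S, ∀ ρ' : 𝒢, ρ'⁻¹ * ρ * ρ' ∈ S) (k : ℕ) :
    TI (Dk L S k) := by
  induction k with
  | zero => exact hL
  | succ k ih =>
    refine ⟨fun ρ _ => ?_, fun {f g} hf hg ρ hρ => ?_, fun {f} hf ρ hρ => ?_,
      fun {f} ρ' hf ρ hρ => ?_⟩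
    · simpa using ih.zero
    · have := ih.add (hf ρ hρ) (hg ρ hρ)
      refine (congrArg (Dk L S k) (funext fun σ => ?_)).mp this
      ring
    · have := ih.neg (hf ρ hρ)
      refine (congrArg (Dk L S k) (funext fun σ => ?_)).mp this
      ring
    · have := ih.tr ρ' (hf (ρ'⁻¹ * ρ * ρ') (hS ρ hρ ρ'))
      refine (congrArg (Dk L S k) (funext fun σ => ?_)).mp this
      simp only [mul_assoc, mul_inv_cancel_left]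

/-- sums of an even number of translates -/
lemma TI.even_sum (hL : TI L) {f : 𝒢 → ℝ} {c : 𝒢} (hcS : c ∈ S) (hc : ∀ σ, f (σ * c) = -f σ)
    (hf : ∀ ρ ∈ S, L (fun σ => f σ - f (σ * ρ))) {J : Type} [Fintype J] (hJ : Even (Nat.card J))
    (ρ : J → 𝒢) (hρ : ∀ j, ρ j ∈ S) : L (fun σ => ∑ j, f (σ * ρ j)) := by
  obtain ⟨m, hm⟩ := hJ
  have h1 := hL.nsmul m (hf c hcS)
  have h2 := hL.sum Finset.univ (f := fun j σ => -(f σ - f (σ * ρ j))) fun j _ =>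
    hL.neg (hf (ρ j) (hρ j))
  refine (congrArg L (funext fun σ => ?_)).mp (hL.add h1 h2)
  rw [Finset.sum_neg_distrib, Finset.sum_sub_distrib, hc, Finset.sum_const, Finset.card_univ,
    ← Nat.card_eq_fintype_card, hm, nsmul_eq_mul]
  push_cast
  ring

end abstract_part

section chain

variable {K : Type} [Field K] [NumberField K] {𝒢 : Type} [Group 𝒢] {v : K →+* ℂ}
  {L : (𝒢 → ℝ) → Prop}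

/-- every prime ideal above `2` divides `𝔣` -/
def E2 (𝔣 : Ideal (𝓞 K)) : Prop := ∀ 𝔭 : Ideal (𝓞 K), 𝔭.IsPrime → (2 : 𝓞 K) ∈ 𝔭 → 𝔣 ≤ 𝔭

lemma E2.mono {𝔣 𝔣' : Ideal (𝓞 K)} (h : E2 𝔣) (h' : 𝔣' ≤ 𝔣) : E2 𝔣' :=
  fun 𝔭 h1 h2 => h'.trans (h 𝔭 h1 h2)

lemma two_ne_unit : ¬ IsUnit (2 : 𝓞 K) := by
  intro h
  have h1 := h.map (Algebra.norm ℤ (S := 𝓞 K))
  have h2 : Algebra.norm ℤ (2 : 𝓞 K) = 2 ^ Module.finrank ℤ (𝓞 K) := by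
    have := Algebra.norm_algebraMap (S := 𝓞 K) (2 : ℤ)
    simpa using this
  rw [h2, Int.isUnit_iff_natAbs_eq, Int.natAbs_pow] at h1
  have h3 : Module.finrank ℤ (𝓞 K) ≠ 0 := by
    rw [RingOfIntegers.rank]
    exact Module.finrank_pos.ne'
  rcases pow_eq_one_iff.1 h1 with h4 | h4
  · norm_num at h4
  · exact h3 h4

lemma E2.ne_top {𝔣 : Ideal (𝓞 K)} (h : E2 𝔣) : 𝔣 ≠ ⊤ := by
  obtain ⟨M, hM, hM2⟩ := Ideal.exists_le_maximal (Ideal.span {(2 : 𝓞 K)}) (by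
    rw [Ne, Ideal.span_singleton_eq_top]
    exact two_ne_unit)
  have h1 := h M hM.isPrime (hM2 (Ideal.mem_span_singleton_self _))
  rintro rfl
  exact hM.ne_top (top_le_iff.1 h1)

/-- `4 𝔣` has the same prime divisors as `𝔣` -/
lemma E2.cop_four {𝔣 : Ideal (𝓞 K)} (h : E2 𝔣) (I : Ideal (𝓞 K)) :
    Cop 𝔣 I ↔ Cop (Ideal.span {(4 : 𝓞 K)} * 𝔣) I := by
  unfold Cop
  rw [IsCoprime.mul_right_iff]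
  refine and_congr_right fun _ => ⟨fun h1 => ⟨?_, h1⟩, fun h1 => h1.2⟩
  by_contra h2
  rw [Ideal.isCoprime_iff_sup_eq] at h2
  obtain ⟨M, hM, hM2⟩ := Ideal.exists_le_maximal _ h2
  have h3 : (4 : 𝓞 K) ∈ M := hM2 (Ideal.mem_sup_right (Ideal.mem_span_singleton_self _))
  have h4 : (2 : 𝓞 K) ∈ M := by
    have h5 : (2 : 𝓞 K) * 2 ∈ M := by norm_num; exact h3
    exact (hM.isPrime.mem_or_mem h5).elim id id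
  have h6 := h M hM.isPrime h4
  have h7 : I ≤ M := le_sup_left.trans hM2
  rw [Ideal.isCoprime_iff_sup_eq] at h1
  exact hM.ne_top (top_le_iff.1 (h1 ▸ sup_le h7 h6))

/-- a compatible family of Artin maps, with the existence of primes of prime norm in all classes -/
structure Tower (𝒢 : Type) [Group 𝒢] (R : Set (K →+* ℝ)) where
  D : ∀ 𝔣 : Ideal (𝓞 K), 𝔣 ≠ ⊥ → RCG 𝒢 R 𝔣
  compat : ∀ (𝔣 𝔣' : Ideal (𝓞 K)) (h : 𝔣 ≠ ⊥) (h' : 𝔣' ≠ ⊥), 𝔣' ≤ 𝔣 →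
    RCG.Compat (D 𝔣 h) (D 𝔣' h')
  frob : ∀ (𝔣 𝔟 : Ideal (𝓞 K)) (h : 𝔣 ≠ ⊥), 𝔟 ≠ ⊥ → ∀ ρ : 𝒢, ∃ 𝔮 : Ideal (𝓞 K), 𝔮.IsPrime ∧
    𝔮 ≠ ⊥ ∧ (Ideal.absNorm 𝔮).Prime ∧ IsCoprime 𝔮 (𝔣 * 𝔟) ∧ (D 𝔣 h).art 𝔮 = (D 𝔣 h).res ρ

/-- the allowed primes: principal, with a generator congruent to `1`, of prime norm -/
def Allowed (𝔪 𝔮 : Ideal (𝓞 K)) : Prop :=
  𝔮.IsPrime ∧ 𝔮 ≠ ⊥ ∧ (Ideal.absNorm 𝔮).Prime ∧ ∃ γ : 𝓞 K, 𝔮 = Ideal.span {γ} ∧ γ - 1 ∈ 𝔪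

variable (T : Tower 𝒢 (RR v))

/-- the elements which are Artin symbols of principal ideals with a generator congruent to `1` -/
def Tower.S {𝔪 : Ideal (𝓞 K)} (h𝔪 : 𝔪 ≠ ⊥) : Set 𝒢 :=
  {ρ | ∃ γ : 𝓞 K, γ ≠ 0 ∧ γ - 1 ∈ 𝔪 ∧ (T.D 𝔪 h𝔪).art (Ideal.span {γ}) = (T.D 𝔪 h𝔪).res ρ}

lemma Tower.S_conj {𝔪 : Ideal (𝓞 K)} (h𝔪 : 𝔪 ≠ ⊥) :
    ∀ ρ ∈ T.S h𝔪, ∀ ρ' : 𝒢, ρ'⁻¹ * ρ * ρ' ∈ T.S h𝔪 := by
  rintro ρ ⟨γ, hγ0, hγ1, hγ⟩ ρ'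
  refine ⟨γ, hγ0, hγ1, ?_⟩
  rw [hγ, map_mul, map_mul, map_inv, mul_comm, mul_inv_cancel_left]

/-- an ideal with Artin symbol in `S` is principal, with a generator congruent to `1` -/
lemma Tower.gen_of_S {𝔪 𝔣 : Ideal (𝓞 K)} (h𝔪 : 𝔪 ≠ ⊥) (h𝔣 : 𝔣 ≠ ⊥) (hle : 𝔣 ≤ 𝔪) {ρ : 𝒢}
    (hρ : ρ ∈ T.S h𝔪) {I : Ideal (𝓞 K)} (hI : Cop 𝔣 I)
    (h : (T.D 𝔣 h𝔣).art I = (T.D 𝔣 h𝔣).res ρ) : ∃ γ : 𝓞 K, I = Ideal.span {γ} ∧ γ - 1 ∈ 𝔪 := by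
  obtain ⟨γ, hγ0, hγ1, hγ⟩ := hρ
  have h1 := T.compat 𝔪 𝔣 h𝔪 h𝔣 hle ρ I hI h
  have hI' : Cop 𝔪 I := by
    refine ⟨hI.1, ?_⟩
    have h2 := hI.2
    rw [Ideal.isCoprime_iff_sup_eq] at h2 ⊢
    exact top_le_iff.1 (h2 ▸ sup_le_sup_left hle I)
  rw [← hγ, (T.D 𝔪 h𝔪).art_eq_iff I _ hI' (cop_span hγ0 hγ1)] at h1
  obtain ⟨x, y, hx, hy, hxy⟩ := h1
  rw [Ideal.span_singleton_mul_span_singleton] at hxy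
  have h2 : y * γ ∈ Ideal.span {x} * I := by
    rw [hxy]
    exact Ideal.mem_span_singleton_self _
  obtain ⟨δ, hδ, hδ2⟩ := Ideal.mem_span_singleton_mul.1 h2
  refine ⟨δ, ?_, ?_⟩
  · have h3 : Ideal.span {x} * I = Ideal.span {x} * Ideal.span {δ} := by
      rw [hxy, Ideal.span_singleton_mul_span_singleton, hδ2]
    exact mul_left_cancel₀ (by simpa using hx.1) h3
  · have h4 : δ - 1 = -((x - 1) * δ) + (y - 1) * γ + (γ - 1) := by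
      linear_combination hδ2
    rw [h4]
    exact 𝔪.add_mem (𝔪.add_mem (𝔪.neg_mem (𝔪.mul_mem_right _ hx.2.1))
      (𝔪.mul_mem_right _ hy.2.1)) hγ1

/-- removing a prime -/
lemma Tower.step_prime (hL : TI L) {𝔪 𝔣 𝔟 : Ideal (𝓞 K)} (h𝔪 : 𝔪 ≠ ⊥) (h0 : 𝔣 ≠ ⊥) (h𝔣 : 𝔣 ≠ ⊤)
    (hb : 𝔟 ≠ ⊥) (hle : 𝔣 ≤ 𝔪)
    (h : ∀ 𝔮 : Ideal (𝓞 K), Allowed 𝔪 𝔮 → IsCoprime 𝔮 (𝔣 * 𝔟) →
      ∀ h' : 𝔣 * 𝔮 ≠ ⊥, L (T.D (𝔣 * 𝔮) h').ff) (ρ : 𝒢) (hρ : ρ ∈ T.S h𝔪) :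
    L (fun σ => (T.D 𝔣 h0).ff σ - (T.D 𝔣 h0).ff (σ * ρ)) := by
  obtain ⟨𝔮, hq, hq0, hqN, hqc, hqρ⟩ := T.frob 𝔣 𝔟 h0 hb ρ
  have hqf : Cop 𝔣 𝔮 := ⟨hq0, hqc.of_mul_right_left⟩
  have hall : Allowed 𝔪 𝔮 := ⟨hq, hq0, hqN, T.gen_of_S h𝔪 h0 hle hρ hqf hqρ⟩
  have h' : 𝔣 * 𝔮 ≠ ⊥ := by
    rw [Ne, Ideal.mul_eq_bot]
    tauto
  obtain ⟨J, _, ρ', hρ'⟩ := (T.compat 𝔣 (𝔣 * 𝔮) h0 h' Ideal.mul_le_left).ff_prime h0 h𝔣 hq hq0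
    hqf hqρ.symm
  have h1 := hL.neg (hL.sum Finset.univ (f := fun j σ => (T.D (𝔣 * 𝔮) h').ff (σ * ρ' j))
    fun j _ => hL.tr (ρ' j) (h 𝔮 hall hqc h'))
  refine (congrArg L (funext fun σ => ?_)).mp h1
  rw [← hρ' σ]
  ring

lemma Tower.ff_congr {𝔣 𝔣' : Ideal (𝓞 K)} (h : 𝔣 = 𝔣') (h0 : 𝔣 ≠ ⊥) (h0' : 𝔣' ≠ ⊥) :
    (T.D 𝔣 h0).ff = (T.D 𝔣' h0').ff := by
  subst h
  rfl

/-- removing `n` primes -/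
lemma Tower.chain_primes (hL : TI L) {𝔪 : Ideal (𝓞 K)} (h𝔪 : 𝔪 ≠ ⊥) (n : ℕ) :
    ∀ (k : ℕ) (𝔣 𝔟 : Ideal (𝓞 K)) (h0 : 𝔣 ≠ ⊥) (_ : 𝔣 ≠ ⊤) (_ : 𝔟 ≠ ⊥) (_ : 𝔣 ≤ 𝔪),
    (∀ s : Finset (Ideal (𝓞 K)), s.card = n →
      (∀ 𝔮 ∈ s, Allowed 𝔪 𝔮 ∧ IsCoprime 𝔮 (𝔣 * 𝔟)) →
        ∀ h' : 𝔣 * ∏ 𝔮 ∈ s, 𝔮 ≠ ⊥, Dk L (T.S h𝔪) k (T.D (𝔣 * ∏ 𝔮 ∈ s, 𝔮) h').ff) →
      Dk L (T.S h𝔪) (k + n) (T.D 𝔣 h0).ff := by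
  classical
  induction n with
  | zero =>
    intro k 𝔣 𝔟 h0 _ _ _ h
    have h1 : 𝔣 * ∏ 𝔮 ∈ (∅ : Finset (Ideal (𝓞 K))), 𝔮 = 𝔣 := by simp
    have h2 := h ∅ rfl (by simp) (by rwa [h1])
    rwa [T.ff_congr h1 _ h0] at h2
  | succ n ih =>
    intro k 𝔣 𝔟 h0 h𝔣 hb hle h
    rw [← add_assoc]
    intro ρ hρ
    refine T.step_prime (hL.dk (T.S_conj h𝔪) (k + n)) h𝔪 h0 h𝔣 hb hle
      (fun 𝔮 hq hqc h' => ?_) ρ hρ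
    have h𝔣' : 𝔣 * 𝔮 ≠ ⊤ := fun h => h𝔣 (top_le_iff.1 (h ▸ Ideal.mul_le_left))
    refine ih k (𝔣 * 𝔮) 𝔟 h' h𝔣' hb (Ideal.mul_le_left.trans hle) fun s hs hs' h'' => ?_
    have hqs : 𝔮 ∉ s := by
      intro hmem
      have h1 := (hs' 𝔮 hmem).2.of_mul_right_left.of_mul_right_right
      rw [Ideal.isCoprime_iff_sup_eq, sup_idem] at h1
      exact hq.1.ne_top h1
    have h1 : 𝔣 * ∏ 𝔭 ∈ insert 𝔮 s, 𝔭 = 𝔣 * 𝔮 * ∏ 𝔭 ∈ s, 𝔭 := by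
      rw [Finset.prod_insert hqs, mul_assoc]
    have h2 := h (insert 𝔮 s) (by rw [Finset.card_insert_of_notMem hqs, hs]) (by
      intro 𝔭 h𝔭
      rcases Finset.mem_insert.1 h𝔭 with rfl | h3
      · exact ⟨hq, hqc⟩
      · obtain ⟨h4, h6⟩ := hs' 𝔭 h3
        refine ⟨h4, ?_⟩
        rw [IsCoprime.mul_right_iff] at h6 ⊢
        exact ⟨h6.1.of_mul_right_left, h6.2⟩) (by rwa [h1])
    rwa [T.ff_congr h1 _ h''] at h2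

/-- removing a factor `4` -/
lemma Tower.step_four (hR : (RR v).Nonempty)
    (heven : ∀ (𝔣 : Ideal (𝓞 K)) (h0 : 𝔣 ≠ ⊥) (h1 : Ideal.span {(4 : 𝓞 K)} * 𝔣 ≠ ⊥), E2 𝔣 →
      Even (Nat.card (T.compat 𝔣 (Ideal.span {(4 : 𝓞 K)} * 𝔣) h0 h1 Ideal.mul_le_right).r.ker))
    (hL : TI L) {𝔪 𝔣 : Ideal (𝓞 K)} (h𝔪 : 𝔪 ≠ ⊥) (h0 : 𝔣 ≠ ⊥) (hle : 𝔣 ≤ 𝔪)
    (h1 : Ideal.span {(4 : 𝓞 K)} * 𝔣 ≠ ⊥) (h2 : E2 𝔣) (k : ℕ)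
    (h : Dk L (T.S h𝔪) (k + 1) (T.D (Ideal.span {(4 : 𝓞 K)} * 𝔣) h1).ff) :
    Dk L (T.S h𝔪) k (T.D 𝔣 h0).ff := by
  have hle4 : Ideal.span {(4 : 𝓞 K)} * 𝔣 ≤ 𝔣 := Ideal.mul_le_right
  have h2' : E2 (Ideal.span {(4 : 𝓞 K)} * 𝔣) := h2.mono hle4
  obtain ⟨c, x, hx0, hx1, hxc, hc⟩ :=
    (T.D (Ideal.span {(4 : 𝓞 K)} * 𝔣) h1).ff_neg h1 h2'.ne_top hR
  obtain ⟨J, _, ρ, hJ, hρ1, hρ⟩ := (T.compat 𝔣 (Ideal.span {(4 : 𝓞 K)} * 𝔣) h0 h1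
    hle4).ff_same h1 h2'.ne_top h2.cop_four
  have hcS : c ∈ T.S h𝔪 := by
    refine ⟨x, hx0, (hle4.trans hle) hx1, ?_⟩
    exact T.compat 𝔪 (Ideal.span {(4 : 𝓞 K)} * 𝔣) h𝔪 h1 (hle4.trans hle) c _
      (cop_span hx0 hx1) hxc
  have hρS : ∀ j, ρ j ∈ T.S h𝔪 := by
    intro j
    refine ⟨1, one_ne_zero, by simp, ?_⟩
    refine T.compat 𝔪 𝔣 h𝔪 h0 hle (ρ j) _ (by
      rw [Ideal.span_singleton_one]; exact cop_top _) ?_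
    rw [hρ1 j, Ideal.span_singleton_one]
    exact (T.D 𝔣 h0).artLike.top
  have h3 := (hL.dk (T.S_conj h𝔪) k).even_sum hcS hc h (hJ ▸ heven 𝔣 h0 h1 h2) ρ hρS
  refine (congrArg (Dk L (T.S h𝔪) k) (funext fun σ => ?_)).mp h3
  exact (hρ σ).symm

lemma four_ne : (Ideal.span {(4 : 𝓞 K)} : Ideal (𝓞 K)) ≠ ⊥ := by
  simp

lemma Tower.chain_four (hR : (RR v).Nonempty)
    (heven : ∀ (𝔣 : Ideal (𝓞 K)) (h0 : 𝔣 ≠ ⊥) (h1 : Ideal.span {(4 : 𝓞 K)} * 𝔣 ≠ ⊥), E2 𝔣 →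
      Even (Nat.card (T.compat 𝔣 (Ideal.span {(4 : 𝓞 K)} * 𝔣) h0 h1 Ideal.mul_le_right).r.ker))
    (hL : TI L) {𝔪 : Ideal (𝓞 K)} (h𝔪 : 𝔪 ≠ ⊥) (j : ℕ) : ∀ (k : ℕ) (𝔣 : Ideal (𝓞 K)) (h0 : 𝔣 ≠ ⊥)
      (_ : 𝔣 ≤ 𝔪) (h1 : Ideal.span {(4 : 𝓞 K)} ^ j * 𝔣 ≠ ⊥) (_ : E2 𝔣),
      Dk L (T.S h𝔪) (k + j) (T.D (Ideal.span {(4 : 𝓞 K)} ^ j * 𝔣) h1).ff →
        Dk L (T.S h𝔪) k (T.D 𝔣 h0).ff := by
  induction j with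
  | zero =>
    intro k 𝔣 h0 _ h1 h2 h
    have h3 : Ideal.span {(4 : 𝓞 K)} ^ 0 * 𝔣 = 𝔣 := by rw [pow_zero, one_mul]
    rwa [T.ff_congr h3 _ h0] at h
  | succ j ih =>
    intro k 𝔣 h0 hle h1 h2 h
    have h3 : Ideal.span {(4 : 𝓞 K)} ^ (j + 1) * 𝔣 =
        Ideal.span {(4 : 𝓞 K)} ^ j * (Ideal.span {(4 : 𝓞 K)} * 𝔣) := by
      rw [pow_succ, mul_assoc]
    have h4 : Ideal.span {(4 : 𝓞 K)} * 𝔣 ≠ ⊥ := mul_ne_zero four_ne h0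
    have h5 : Ideal.span {(4 : 𝓞 K)} ^ j * (Ideal.span {(4 : 𝓞 K)} * 𝔣) ≠ ⊥ := h3 ▸ h1
    rw [T.ff_congr h3 _ h5, ← add_assoc, add_right_comm] at h
    exact T.step_four hR heven hL h𝔪 h0 hle h4 h2 k
      (ih (k + 1) _ h4 (Ideal.mul_le_right.trans hle) h5 (h2.mono Ideal.mul_le_right) h)

/-- going down between moduli with the same prime divisors -/
lemma Tower.step_same (hL : TI L) {𝔣 𝔣' : Ideal (𝓞 K)} (h0 : 𝔣 ≠ ⊥) (h0' : 𝔣' ≠ ⊥)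
    (h𝔣 : 𝔣' ≠ ⊤) (hle : 𝔣' ≤ 𝔣) (hc : ∀ I, Cop 𝔣 I ↔ Cop 𝔣' I) (h : L (T.D 𝔣' h0').ff) :
    L (T.D 𝔣 h0).ff := by
  obtain ⟨J, _, ρ, -, -, hρ⟩ := (T.compat 𝔣 𝔣' h0 h0' hle).ff_same h0' h𝔣 hc
  have h1 := hL.sum Finset.univ (f := fun j σ => (T.D 𝔣' h0').ff (σ * ρ j)) fun j _ =>
    hL.tr (ρ j) h
  refine (congrArg L (funext fun σ => ?_)).mp h1
  exact (hρ σ).symm

/-- ideals coprime to `𝔣` are those coprime to `𝔣'` when the prime divisors are the same -/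
lemma cop_iff_of_primes {𝔣 𝔣' : Ideal (𝓞 K)} (hle : 𝔣' ≤ 𝔣)
    (hp : ∀ 𝔭 : Ideal (𝓞 K), 𝔭.IsPrime → 𝔣' ≤ 𝔭 → 𝔣 ≤ 𝔭) (I : Ideal (𝓞 K)) :
    Cop 𝔣 I ↔ Cop 𝔣' I := by
  unfold Cop
  refine and_congr_right fun _ => ⟨fun h1 => ?_, fun h1 => ?_⟩
  · by_contra h2
    rw [Ideal.isCoprime_iff_sup_eq] at h1 h2
    obtain ⟨M, hM, hM2⟩ := Ideal.exists_le_maximal _ h2
    have h3 := hp M hM.isPrime (le_sup_right.trans hM2)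
    exact hM.ne_top (top_le_iff.1 (h1 ▸ sup_le (le_sup_left.trans hM2) h3))
  · rw [Ideal.isCoprime_iff_sup_eq] at h1 ⊢
    exact top_le_iff.1 (h1 ▸ sup_le_sup_left hle I)

/-- **The descent.** -/
theorem Tower.descent (hR : (RR v).Nonempty)
    (heven : ∀ (𝔣 : Ideal (𝓞 K)) (h0 : 𝔣 ≠ ⊥) (h1 : Ideal.span {(4 : 𝓞 K)} * 𝔣 ≠ ⊥), E2 𝔣 →
      Even (Nat.card (T.compat 𝔣 (Ideal.span {(4 : 𝓞 K)} * 𝔣) h0 h1 Ideal.mul_le_right).r.ker))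
    (hL : TI L) (n k : ℕ) (𝔪 𝔟 : Ideal (𝓞 K)) (h0 : 𝔪 ≠ ⊥) (hb : 𝔟 ≠ ⊥) (h2 : E2 𝔪)
    (h : ∀ s : Finset (Ideal (𝓞 K)), s.card = n →
      (∀ 𝔮 ∈ s, Allowed 𝔪 𝔮 ∧ IsCoprime 𝔮 𝔟) →
        ∃ (𝔣 : Ideal (𝓞 K)) (h' : 𝔣 ≠ ⊥),
          𝔣 ≤ Ideal.span {(4 : 𝓞 K)} ^ (n + k) * 𝔪 * ∏ 𝔮 ∈ s, 𝔮 ∧
          (∀ 𝔭 : Ideal (𝓞 K), 𝔭.IsPrime → 𝔣 ≤ 𝔭 → 𝔪 * ∏ 𝔮 ∈ s, 𝔮 ≤ 𝔭) ∧
          Dk L (T.S h0) k (T.D 𝔣 h').ff) :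
    L (T.D 𝔪 h0).ff := by
  have h3 : Ideal.span {(4 : 𝓞 K)} ^ (n + k) * 𝔪 ≠ ⊥ := mul_ne_zero (pow_ne_zero _ four_ne) h0
  have h4 := T.chain_primes hL h0 n k (Ideal.span {(4 : 𝓞 K)} ^ (n + k) * 𝔪) 𝔟 h3
    (h2.mono Ideal.mul_le_right).ne_top hb Ideal.mul_le_right (fun s hs hs' h' => by
      obtain ⟨𝔣, h𝔣, hle, hpr, hD⟩ := h s hs (fun 𝔮 hq => by
        obtain ⟨h5, h7⟩ := hs' 𝔮 hq
        rw [IsCoprime.mul_right_iff] at h7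
        exact ⟨h5, h7.2⟩)
      have hle2 : 𝔣 ≤ 𝔪 := hle.trans (Ideal.mul_le_left.trans Ideal.mul_le_right)
      refine T.step_same (hL.dk (T.S_conj h0) k) h' h𝔣 (h2.mono hle2).ne_top hle
        (cop_iff_of_primes hle fun 𝔭 hp hp' => ?_) hD
      have h6 := hpr 𝔭 hp hp'
      rcases (hp.mul_le).1 h6 with h7 | h7
      · exact (Ideal.mul_le_left.trans Ideal.mul_le_right).trans h7
      · exact Ideal.mul_le_right.trans h7)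
  have h5 : k + n = 0 + (n + k) := by ring
  rw [h5] at h4
  exact T.chain_four hR heven hL h0 (n + k) 0 𝔪 h0 le_rfl h3 h2 h4

end chain

end Pool.Agent.R363.SD
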