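import Pool.Agent.R363.SD.Units

/-!
# The converse direction and the equivalences
-/

set_option autoImplicit false
set_option linter.unusedSectionVars false

open NumberField IntermediateField

namespace Pool.Agent.R363.SD

lemma TI.dk_of {𝒢 : Type} [Group 𝒢] {L : (𝒢 → ℝ) → Prop} (hL : TI L) (S : Set 𝒢) (k : ℕ) :
    ∀ f : 𝒢 → ℝ, L f → Dk L S k f := by
  induction k with
  | zero => exact fun f h => h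
  | succ k ih =>
    intro f h ρ _
    refine ih _ ?_
    have := hL.add h (hL.neg (hL.tr ρ h))
    refine (congrArg L (funext fun σ => ?_)).mp this
    ring

variable {K : Type} [Field K] [NumberField K] {R : Set (K →+* ℝ)}

lemma differences_of_dk {𝔪 𝔣 : Ideal (𝓞 K)} {C : RayClassField R 𝔣}
    {P : (Ideal (𝓞 K) → ℂ) → Prop} {L : (GK K → ℝ) → Prop}
    (hLP : ∀ Z f, Match C Z f → (∀ σ τ, C.res σ = C.res τ → f σ = f τ) → L f → P Z) (k : ℕ) :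
    ∀ Z f, Match C Z f → (∀ σ τ, C.res σ = C.res τ → f σ = f τ) → Dk L Set.univ k f →
      Differences 𝔪 𝔣 P k Z := by
  induction k with
  | zero => exact hLP
  | succ k ih =>
    intro Z f hZf hf h γ _ hc
    obtain ⟨ρ, hρ⟩ := C.res_surj (C.art (Ideal.span {γ}))
    refine ih _ _ (hZf.diff hc hρ.symm) (fun σ τ hστ => ?_) (h ρ trivial)
    rw [hf σ τ hστ, hf (σ * ρ) (τ * ρ) (by rw [map_mul, map_mul, hστ])]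

lemma prod_ne_bot {n : ℕ} {𝔪 : Ideal (𝓞 K)} (h𝔪 : 𝔪 ≠ ⊥) {s : Finset (Ideal (𝓞 K))}
    (hs : ∀ 𝔮 ∈ s, (Ideal.absNorm 𝔮).Prime) :
    Ideal.span {(4 : 𝓞 K)} ^ n * 𝔪 * ∏ 𝔮 ∈ s, 𝔮 ≠ ⊥ := by
  refine mul_ne_zero (mul_ne_zero (pow_ne_zero _ four_ne) h𝔪) ?_
  refine Finset.prod_ne_zero_iff.2 fun 𝔮 hq => ?_
  intro h
  have h1 := hs 𝔮 hq
  rw [h, Ideal.zero_eq_bot, Ideal.absNorm_bot] at h1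
  exact Nat.not_prime_zero h1

lemma support_four {n : ℕ} {𝔪 𝔫 : Ideal (𝓞 K)} (h2 : E2 𝔪) :
    ∀ 𝔭 : Ideal (𝓞 K), 𝔭.IsPrime → Ideal.span {(4 : 𝓞 K)} ^ n * 𝔪 * 𝔫 ≤ 𝔭 → 𝔪 * 𝔫 ≤ 𝔭 := by
  intro 𝔭 hp h
  rcases (hp.mul_le).1 h with h1 | h1
  · rcases (hp.mul_le).1 h1 with h3 | h3
    · have h4 := hp.le_of_pow_le h3
      have h5 : (4 : 𝓞 K) ∈ 𝔭 := h4 (Ideal.mem_span_singleton_self _)
      have h6 : (2 : 𝓞 K) ∈ 𝔭 := by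
        have h7 : (2 : 𝓞 K) * 2 ∈ 𝔭 := by norm_num; exact h5
        exact (hp.mem_or_mem h7).elim id id
      exact Ideal.mul_le_left.trans (h2 𝔭 hp h6)
    · exact Ideal.mul_le_left.trans h3
  · exact Ideal.mul_le_right.trans h1

/-- **The converse for a general property.** -/
theorem general_converse (C : ∀ 𝔣 : Ideal (𝓞 K), RayClassField R 𝔣) (n k : ℕ)
    (𝔪 𝔟 : Ideal (𝓞 K)) (h𝔪 : 𝔪 ≠ ⊥)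
    (h2 : ∀ 𝔭 : Ideal (𝓞 K), 𝔭.IsPrime → (2 : 𝓞 K) ∈ 𝔭 → 𝔪 ≤ 𝔭)
    {P : Ideal (𝓞 K) → (Ideal (𝓞 K) → ℂ) → Prop} {L : (GK K → ℝ) → Prop} (hL : TI L)
    (hPL : ∀ 𝔣 Z f, Match (C 𝔣) Z f → P 𝔣 Z → L f)
    (hLP : ∀ 𝔣 Z f, Match (C 𝔣) Z f → (∀ σ τ, (C 𝔣).res σ = (C 𝔣).res τ → f σ = f τ) →
      L f → P 𝔣 Z)
    (h : ∀ 𝔣 : Ideal (𝓞 K), 𝔣 ≠ ⊥ → 𝔣 ≤ 𝔪 → ForZeta R 𝔣 𝔣 0 (P 𝔣)) :
    DeepHyp R n k 𝔪 𝔟 P := by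
  intro s _ hs
  have h0 := prod_ne_bot (n := n + k) h𝔪 fun 𝔮 hq => (hs 𝔮 hq).2.1
  obtain ⟨F, hF, hP⟩ := h _ h0 (Ideal.mul_le_left.trans Ideal.mul_le_right)
  refine ⟨_, h0, le_rfl, support_four h2, F, hF, ?_⟩
  have hm := match_zeta (C _) hF
  exact differences_of_dk (hLP _) k _ _ hm (fun σ τ hστ => (C _).toRCG.ff_of_res hστ)
    (hL.dk_of _ k _ (hPL _ _ _ hm hP))

theorem real_converse {ι : AlgebraicClosure K →+* ℂ}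
    (hR : R = RR (ι.comp (algebraMap K (AlgebraicClosure K))))
    (hall : ∀ g : AlgebraicClosure K →+* ℂ, ¬ Above ι g →
      ∃ τ ∈ R, g.comp (algebraMap K (AlgebraicClosure K)) = Complex.ofRealHom.comp τ)
    {τ₁ : K →+* ℝ} (hι : ι.comp (algebraMap K (AlgebraicClosure K)) = Complex.ofRealHom.comp τ₁)
    (C : ∀ 𝔣 : Ideal (𝓞 K), RayClassField R 𝔣) (n k : ℕ) (𝔪 𝔟 : Ideal (𝓞 K)) (h𝔪 : 𝔪 ≠ ⊥)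
    (h2 : ∀ 𝔭 : Ideal (𝓞 K), 𝔭.IsPrime → (2 : 𝓞 K) ∈ 𝔭 → 𝔪 ≤ 𝔭)
    (h : ∀ 𝔣 : Ideal (𝓞 K), 𝔣 ≠ ⊥ → 𝔣 ≤ 𝔪 → ForZeta R 𝔣 𝔣 0 (RealStarkUnits ι (C 𝔣))) :
    DeepHyp R n k 𝔪 𝔟 fun 𝔣 => RealStarkUnits ι (C 𝔣) :=
  general_converse C n k 𝔪 𝔟 h𝔪 h2 (P := fun 𝔣 => RealStarkUnits ι (C 𝔣))
    (LL.ti ι 1) (fun _ _ _ hm hP => real_to_LL hall hm hP)
    (fun _ _ _ hm hf hL => LL_to_real (mk_ne_of_RR hR) hι hm hf hL) h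

theorem plain_converse {ι : AlgebraicClosure K →+* ℂ}
    (hR : R = RR (ι.comp (algebraMap K (AlgebraicClosure K))))
    (hall : ∀ g : AlgebraicClosure K →+* ℂ, ¬ Above ι g →
      ∃ τ ∈ R, g.comp (algebraMap K (AlgebraicClosure K)) = Complex.ofRealHom.comp τ)
    (C : ∀ 𝔣 : Ideal (𝓞 K), RayClassField R 𝔣) (n k : ℕ) (𝔪 𝔟 : Ideal (𝓞 K)) (h𝔪 : 𝔪 ≠ ⊥)
    (h2 : ∀ 𝔭 : Ideal (𝓞 K), 𝔭.IsPrime → (2 : 𝓞 K) ∈ 𝔭 → 𝔪 ≤ 𝔭)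
    (h : ∀ 𝔣 : Ideal (𝓞 K), 𝔣 ≠ ⊥ → 𝔣 ≤ 𝔪 → ForZeta R 𝔣 𝔣 0 (PlainStarkUnits ι (C 𝔣))) :
    DeepHyp R n k 𝔪 𝔟 fun 𝔣 => PlainStarkUnits ι (C 𝔣) :=
  general_converse C n k 𝔪 𝔟 h𝔪 h2 (P := fun 𝔣 => PlainStarkUnits ι (C 𝔣))
    (LP.ti ι) (fun _ _ _ hm hP => plain_to_LP hall hm hP)
    (fun _ _ _ hm hf hL => LP_to_plain (mk_ne_of_RR hR) hm hf hL) h

theorem complex_converse {ι : AlgebraicClosure K →+* ℂ}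
    (hR : R = RR (ι.comp (algebraMap K (AlgebraicClosure K))))
    (hall : ∀ g : AlgebraicClosure K →+* ℂ, ¬ Above ι g →
      ∃ τ ∈ R, g.comp (algebraMap K (AlgebraicClosure K)) = Complex.ofRealHom.comp τ)
    (C : ∀ 𝔣 : Ideal (𝓞 K), RayClassField R 𝔣) (n k : ℕ) (𝔪 𝔟 : Ideal (𝓞 K)) (h𝔪 : 𝔪 ≠ ⊥)
    (h2 : ∀ 𝔭 : Ideal (𝓞 K), 𝔭.IsPrime → (2 : 𝓞 K) ∈ 𝔭 → 𝔪 ≤ 𝔭)
    (h : ∀ 𝔣 : Ideal (𝓞 K), 𝔣 ≠ ⊥ → 𝔣 ≤ 𝔪 → ForZeta R 𝔣 𝔣 0 (ComplexStarkUnit ι (C 𝔣))) :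
    DeepHyp R n k 𝔪 𝔟 fun 𝔣 => ComplexStarkUnit ι (C 𝔣) :=
  general_converse C n k 𝔪 𝔟 h𝔪 h2 (P := fun 𝔣 => ComplexStarkUnit ι (C 𝔣))
    (LL.ti ι 2) (fun _ _ _ hm hP => complex_to_LL hall hm hP)
    (fun _ _ _ hm hf hL => LL_to_complex (mk_ne_of_RR hR) hm hf hL) h

end Pool.Agent.R363.SD
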