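import Pool.Agent.R363.SD.Desc

/-!
# The kernel of the map from the ray class group modulo `4 𝔣` to that modulo `𝔣` has even order
-/

set_option autoImplicit false
set_option linter.unusedSectionVars false

open NumberField Module

namespace Pool.Agent.R363.SD

variable {K : Type} [Field K] [NumberField K]

/-- A homomorphism from a torsion free group of units onto an elementary abelian `2`-group `V`:
the order of `V` is at most `2 ^ rank`. -/
lemma card_le_of_units (E : Subgroup (𝓞 K)ˣ)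
    (hE : ∀ u ∈ E, u ∈ NumberField.Units.torsion K → u = 1)
    {V : Type} [AddCommGroup V] (hV : ∀ w : V, w + w = 0) (Φ : Additive E →+ V)
    (hΦ : Function.Surjective Φ) : Nat.card V ≤ 2 ^ NumberField.Units.rank K := by
  classical
  set incl : Additive E →ₗ[ℤ] Additive (𝓞 K)ˣ := (MonoidHom.toAdditive E.subtype).toIntLinearMap
    with hincl
  have hinj : Function.Injective incl := fun x y h => Subtype.val_injective h
  have hfin : Module.Finite ℤ (Additive E) := Module.Finite.of_injective incl hinj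
  have htf0 : IsMulTorsionFree E := by
    refine ⟨fun n hn x y hxy => ?_⟩
    have h1 : (x / y) ^ n = 1 := by
      rw [div_pow, div_eq_one]
      exact hxy
    have h2 : ((x / y : E) : (𝓞 K)ˣ) = 1 := by
      refine hE _ (x / y).2 ?_
      rw [NumberField.Units.torsion, CommGroup.mem_torsion, isOfFinOrder_iff_pow_eq_one]
      refine ⟨n, Nat.pos_of_ne_zero hn, ?_⟩
      rw [← Subgroup.coe_pow, h1, Subgroup.coe_one]
    have h3 : x / y = 1 := Subtype.ext h2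
    exact div_eq_one.1 h3
  have htf : Module.IsTorsionFree ℤ (Additive E) := by
    rw [Module.isTorsionFree_int_iff_isAddTorsionFree]
    infer_instance
  have hfree : Module.Free ℤ (Additive E) := inferInstance
  have hrank : finrank ℤ (Additive E) ≤ NumberField.Units.rank K := by
    rw [← NumberField.Units.finrank_eq K]
    exact LinearMap.finrank_le_finrank_of_injective hinj
  set b := Module.finBasis ℤ (Additive E) with hb
  have hsurj : Function.Surjective (fun S : Finset (Fin (finrank ℤ (Additive E))) =>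
      ∑ i ∈ S, Φ (b i)) := by
    intro w
    obtain ⟨x, hx⟩ := hΦ w
    refine ⟨Finset.univ.filter fun i => ¬ Even (b.repr x i), ?_⟩
    simp only
    have h1 : Φ x = ∑ i, b.repr x i • Φ (b i) := by
      conv_lhs => rw [← b.sum_repr x]
      rw [map_sum]
      exact Finset.sum_congr rfl fun i _ => map_zsmul _ _ _
    rw [← hx, h1, Finset.sum_filter]
    refine Finset.sum_congr rfl fun i _ => ?_
    by_cases h : Even (b.repr x i)
    · rw [if_neg (not_not.2 h)]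
      obtain ⟨m, hm⟩ := h
      rw [hm, add_smul, ← smul_add, hV, smul_zero]
    · rw [if_pos h]
      rw [Int.not_even_iff_odd] at h
      obtain ⟨m, hm⟩ := h
      rw [hm, add_smul, one_smul, mul_comm, mul_smul, two_smul, hV, smul_zero, zero_add]
  calc Nat.card V ≤ Nat.card (Finset (Fin (finrank ℤ (Additive E)))) :=
        Nat.card_le_card_of_surjective _ hsurj
    _ = 2 ^ finrank ℤ (Additive E) := by simp
    _ ≤ 2 ^ NumberField.Units.rank K := Nat.pow_le_pow_right (by norm_num) hrank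

lemma rank_lt : NumberField.Units.rank K < finrank ℚ K := by
  have h1 := InfinitePlace.card_add_two_mul_card_eq_rank K
  have h2 := InfinitePlace.card_eq_nrRealPlaces_add_nrComplexPlaces K
  have h3 : 0 < Fintype.card (InfinitePlace K) := Fintype.card_pos
  unfold NumberField.Units.rank
  omega

/-- the units congruent to `1` modulo `𝔤` and positive at `R` -/
def ray_units (R : Set (K →+* ℝ)) (𝔤 : Ideal (𝓞 K)) : Subgroup (𝓞 K)ˣ where
  carrier := {u | (u : 𝓞 K) - 1 ∈ 𝔤 ∧ ∀ τ ∈ R, 0 < τ ((u : 𝓞 K) : K)}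
  one_mem' := ⟨by simp, fun τ _ => by simp⟩
  mul_mem' := by
    rintro u w ⟨hu1, hu2⟩ ⟨hw1, hw2⟩
    refine ⟨?_, fun τ hτ => ?_⟩
    · have h1 := 𝔤.add_mem (𝔤.mul_mem_left (w : 𝓞 K) hu1) hw1
      have h2 : (w : 𝓞 K) * ((u : 𝓞 K) - 1) + ((w : 𝓞 K) - 1) = ((u * w : (𝓞 K)ˣ) : 𝓞 K) - 1 := by
        push_cast
        ring
      rwa [h2] at h1
    · push_cast
      rw [map_mul]
      exact mul_pos (hu2 τ hτ) (hw2 τ hτ)
  inv_mem' := by
    rintro u ⟨hu1, hu2⟩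
    refine ⟨?_, fun τ hτ => ?_⟩
    · have h1 := 𝔤.neg_mem (𝔤.mul_mem_left ((u⁻¹ : (𝓞 K)ˣ) : 𝓞 K) hu1)
      have h2 : -(((u⁻¹ : (𝓞 K)ˣ) : 𝓞 K) * ((u : 𝓞 K) - 1)) = ((u⁻¹ : (𝓞 K)ˣ) : 𝓞 K) - 1 := by
        rw [mul_sub, Units.inv_mul]
        ring
      rwa [h2] at h1
    · have h1 : τ ((u : 𝓞 K) : K) * τ (((u⁻¹ : (𝓞 K)ˣ) : 𝓞 K) : K) = 1 := by
        rw [← map_mul, ← map_mul, Units.mul_inv, map_one, map_one]
      by_contra hneg
      have h2 := mul_nonpos_of_nonneg_of_nonpos (hu2 τ hτ).le (not_lt.1 hneg)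
      rw [h1] at h2
      linarith

lemma ray_units_torsion {R : Set (K →+* ℝ)} (hR : R.Nonempty) {𝔤 : Ideal (𝓞 K)} :
    ∀ u ∈ ray_units R 𝔤, u ∈ NumberField.Units.torsion K → u = 1 := by
  intro u hu hut
  obtain ⟨τ, hτ⟩ := hR
  rw [NumberField.Units.torsion, CommGroup.mem_torsion, isOfFinOrder_iff_pow_eq_one] at hut
  obtain ⟨n, hn, hun⟩ := hut
  have h1 : (τ ((u : 𝓞 K) : K)) ^ n = 1 := by
    have := congrArg (fun w : (𝓞 K)ˣ => τ ((w : 𝓞 K) : K)) hun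
    simpa using this
  have h2 := (pow_eq_one_iff_of_nonneg (hu.2 τ hτ).le hn.ne').1 h1
  have h3 : ((u : 𝓞 K) : K) = 1 := τ.injective (by rw [h2, map_one])
  have h4 : (u : 𝓞 K) = 1 := by
    apply RingOfIntegers.coe_injective
    simpa using h3
  exact Units.ext h4

lemma absNorm_two : Ideal.absNorm (Ideal.span {(2 : 𝓞 K)}) = 2 ^ finrank ℚ K := by
  rw [Ideal.absNorm_span_singleton]
  have h2 : Algebra.norm ℤ (2 : 𝓞 K) = 2 ^ Module.finrank ℤ (𝓞 K) := by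
    have := Algebra.norm_algebraMap (S := 𝓞 K) (2 : ℤ)
    simpa using this
  rw [h2, Int.natAbs_pow, RingOfIntegers.rank]
  rfl

/-- the index of `4 𝔣` in `2 𝔣` -/
lemma index_two {𝔣 : Ideal (𝓞 K)} (h0 : 𝔣 ≠ ⊥) :
    (Ideal.span {(4 : 𝓞 K)} * 𝔣).toAddSubgroup.relIndex (Ideal.span {(2 : 𝓞 K)} * 𝔣).toAddSubgroup
      = 2 ^ finrank ℚ K := by
  have h4 : Ideal.span {(4 : 𝓞 K)} * 𝔣 = Ideal.span {(2 : 𝓞 K)} * (Ideal.span {(2 : 𝓞 K)} * 𝔣) := by
    rw [← mul_assoc, Ideal.span_singleton_mul_span_singleton]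
    norm_num
  have hle : Ideal.span {(4 : 𝓞 K)} * 𝔣 ≤ Ideal.span {(2 : 𝓞 K)} * 𝔣 := by
    rw [h4]
    exact Ideal.mul_le_right
  have h1 := AddSubgroup.relIndex_mul_index
    (H := (Ideal.span {(4 : 𝓞 K)} * 𝔣).toAddSubgroup)
    (K := (Ideal.span {(2 : 𝓞 K)} * 𝔣).toAddSubgroup) hle
  have h2 : ∀ I : Ideal (𝓞 K), I.toAddSubgroup.index = Ideal.absNorm I := fun I => rfl
  have h5 : Ideal.absNorm (Ideal.span {(4 : 𝓞 K)} * 𝔣) =
      2 ^ finrank ℚ K * Ideal.absNorm (Ideal.span {(2 : 𝓞 K)} * 𝔣) := by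
    rw [h4, map_mul, absNorm_two]
  rw [h2, h2, h5] at h1
  have h3 : Ideal.absNorm (Ideal.span {(2 : 𝓞 K)} * 𝔣) ≠ 0 := by
    rw [Ne, Ideal.absNorm_eq_zero_iff, Ideal.mul_eq_bot]
    simp [h0]
  exact Nat.eq_of_mul_eq_mul_right (Nat.pos_of_ne_zero h3) h1

/-- adjusting the signs -/
lemma exists_pos {𝔤 : Ideal (𝓞 K)} (h0 : 𝔤 ≠ ⊥) (m : 𝓞 K) :
    ∃ z ∈ 𝔤, ∀ τ : K →+* ℝ, 0 < τ ((m + z : 𝓞 K) : K) := by
  classical
  have hN : 1 ≤ Ideal.absNorm 𝔤 := Nat.one_le_iff_ne_zero.2 (by rwa [Ne, Ideal.absNorm_eq_zero_iff])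
  obtain ⟨B, hB⟩ : ∃ B : ℕ, ∀ τ : K →+* ℝ, |τ (m : K)| < B := by
    have hfin : Finite (K →+* ℝ) := Finite.of_injective
      (fun τ : K →+* ℝ => Complex.ofRealHom.comp τ) (fun τ τ' h => by
        ext x
        have := congrArg (fun f => f x) h
        simpa using this)
    have := Fintype.ofFinite (K →+* ℝ)
    obtain ⟨B, hB⟩ := exists_nat_gt (∑ τ : K →+* ℝ, |τ (m : K)|)
    exact ⟨B, fun τ => lt_of_le_of_lt (Finset.single_le_sum (f := fun τ : K →+* ℝ => |τ (m : K)|)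
      (fun _ _ => abs_nonneg _) (Finset.mem_univ τ)) hB⟩
  refine ⟨(B : 𝓞 K) * (Ideal.absNorm 𝔤 : 𝓞 K), 𝔤.mul_mem_left _ (Ideal.absNorm_mem 𝔤), fun τ => ?_⟩
  push_cast
  rw [map_add, map_mul, map_natCast, map_natCast]
  have h1 := (abs_lt.1 (hB τ)).1
  have h2 : (1 : ℝ) ≤ Ideal.absNorm 𝔤 := by exact_mod_cast hN
  have h3 : (0 : ℝ) ≤ B := by positivity
  nlinarith

variable {𝒢 : Type} [Group 𝒢] {R : Set (K →+* ℝ)}

/-- the class of an integer congruent to `1` modulo `2 𝔣` -/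
lemma mem_four {𝔣 : Ideal (𝓞 K)} {x y : 𝓞 K} (hx : x ∈ Ideal.span {(2 : 𝓞 K)} * 𝔣)
    (hy : y ∈ Ideal.span {(2 : 𝓞 K)} * 𝔣) : x * y ∈ Ideal.span {(4 : 𝓞 K)} * 𝔣 := by
  rw [Ideal.mem_span_singleton_mul] at hx hy ⊢
  obtain ⟨a, ha, rfl⟩ := hx
  obtain ⟨b, hb, rfl⟩ := hy
  exact ⟨a * b, 𝔣.mul_mem_left _ hb, by ring⟩

lemma mem_four' {𝔣 : Ideal (𝓞 K)} {x : 𝓞 K} (hx : x ∈ Ideal.span {(2 : 𝓞 K)} * 𝔣) :
    x + x ∈ Ideal.span {(4 : 𝓞 K)} * 𝔣 := by
  rw [Ideal.mem_span_singleton_mul] at hx ⊢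
  obtain ⟨a, ha, rfl⟩ := hx
  exact ⟨a, ha, by ring⟩

lemma two_le {𝔣 : Ideal (𝓞 K)} : Ideal.span {(4 : 𝓞 K)} * 𝔣 ≤ Ideal.span {(2 : 𝓞 K)} * 𝔣 := by
  refine Ideal.mul_mono_left ?_
  rw [Ideal.span_singleton_le_span_singleton]
  exact ⟨2, by norm_num⟩

/-- **(U)** -/
theorem even_ker {𝔣 : Ideal (𝓞 K)} (hR : R.Nonempty) (h0 : 𝔣 ≠ ⊥)
    {D : RCG 𝒢 R 𝔣} {D' : RCG 𝒢 R (Ideal.span {(4 : 𝓞 K)} * 𝔣)} (h : RCG.Compat D D') :
    Even (Nat.card h.r.ker) := by
  classical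
  by_contra hodd
  rw [Nat.not_even_iff_odd] at hodd
  -- elements congruent to `1` modulo `2 𝔣` are units modulo `4 𝔣`
  have key : ∀ α : 𝓞 K, α - 1 ∈ Ideal.span {(2 : 𝓞 K)} * 𝔣 → (∀ τ : K →+* ℝ, 0 < τ (α : K)) →
      ∃ u ∈ ray_units R (Ideal.span {(2 : 𝓞 K)} * 𝔣),
        (u : 𝓞 K) - α ∈ Ideal.span {(4 : 𝓞 K)} * 𝔣 := by
    intro α hα hpos
    obtain ⟨τ₀, hτ₀⟩ := hR
    have hα0 : α ≠ 0 := by
      rintro rfl
      have := hpos τ₀
      simp at this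
    have hα1 : α - 1 ∈ 𝔣 := Ideal.mul_le_right hα
    have hsq : α * α - 1 ∈ Ideal.span {(4 : 𝓞 K)} * 𝔣 := by
      have h1 := (Ideal.span {(4 : 𝓞 K)} * 𝔣).add_mem (mem_four hα hα) (mem_four' hα)
      have h2 : (α - 1) * (α - 1) + ((α - 1) + (α - 1)) = α * α - 1 := by ring
      rwa [h2] at h1
    have hcopα : Cop (Ideal.span {(4 : 𝓞 K)} * 𝔣) (Ideal.span {α}) := by
      have h1 := cop_span (mul_ne_zero hα0 hα0) hsq
      rw [← Ideal.span_singleton_mul_span_singleton, cop_mul] at h1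
      exact h1.1
    have h1 : D'.art (Ideal.span {α}) ^ 2 = 1 := by
      rw [pow_two, ← D'.art_mul _ _ hcopα hcopα, Ideal.span_singleton_mul_span_singleton]
      refine D'.artLike.ray _ ⟨mul_ne_zero hα0 hα0, hsq, fun τ _ => ?_⟩
      push_cast
      rw [map_mul]
      exact mul_pos (hpos τ) (hpos τ)
    have h2 : h.r (D'.art (Ideal.span {α})) = 1 := by
      rw [h.r_art hcopα]
      exact D.artLike.ray _ ⟨hα0, hα1, fun τ _ => hpos τ⟩
    have h3 : D'.art (Ideal.span {α}) = 1 := by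
      set g : h.r.ker := ⟨D'.art (Ideal.span {α}), MonoidHom.mem_ker.2 h2⟩ with hg
      have h4 : g ^ 2 = 1 := Subtype.ext h1
      have h5 : g ^ Nat.card h.r.ker = 1 := pow_card_eq_one'
      have h6 : orderOf g ∣ Nat.gcd 2 (Nat.card h.r.ker) :=
        Nat.dvd_gcd (orderOf_dvd_of_pow_eq_one h4) (orderOf_dvd_of_pow_eq_one h5)
      rw [Nat.coprime_two_left.2 hodd, Nat.dvd_one, orderOf_eq_one_iff] at h6
      exact congrArg Subtype.val h6
    rw [← D'.artLike.top, D'.art_eq_iff _ _ hcopα (cop_top _)] at h3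
    obtain ⟨x, y, hx, hy, hxy⟩ := h3
    rw [Ideal.mul_top, Ideal.span_singleton_mul_span_singleton,
      Ideal.span_singleton_eq_span_singleton] at hxy
    obtain ⟨u, hu⟩ := hxy.symm
    -- `y * u = x * α`
    have h7 : (u : 𝓞 K) - α ∈ Ideal.span {(4 : 𝓞 K)} * 𝔣 := by
      have h8 : (u : 𝓞 K) - α = (x - 1) * α - (y - 1) * u := by
        have : y * (u : 𝓞 K) = x * α := hu
        linear_combination this
      rw [h8]
      exact Ideal.sub_mem _ (Ideal.mul_mem_right _ _ hx.2.1) (Ideal.mul_mem_right _ _ hy.2.1)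
    refine ⟨u, ⟨?_, fun τ hτ => ?_⟩, h7⟩
    · have h9 := Ideal.add_mem _ (two_le h7) hα
      have h10 : (u : 𝓞 K) - α + (α - 1) = (u : 𝓞 K) - 1 := by ring
      rwa [h10] at h9
    · have h11 : τ (y : K) * τ ((u : 𝓞 K) : K) = τ (x : K) * τ (α : K) := by
        have h12 : y * (u : 𝓞 K) = x * α := hu
        have h13 := congrArg (fun z : 𝓞 K => τ (z : K)) h12
        simpa using h13
      have h14 : 0 < τ (y : K) * τ ((u : 𝓞 K) : K) := by
        rw [h11]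
        exact mul_pos (hx.2.2 τ hτ) (hpos τ)
      exact (pos_iff_pos_of_mul_pos h14).1 (hy.2.2 τ hτ)
  -- the homomorphism from the units
  set A := (Ideal.span {(2 : 𝓞 K)} * 𝔣).toAddSubgroup with hA
  set B := (Ideal.span {(4 : 𝓞 K)} * 𝔣).toAddSubgroup with hB
  set E := ray_units R (Ideal.span {(2 : 𝓞 K)} * 𝔣) with hE
  have hmk : ∀ a b : A, ((a : 𝓞 K) - b ∈ Ideal.span {(4 : 𝓞 K)} * 𝔣) →
      (QuotientAddGroup.mk a : A ⧸ B.addSubgroupOf A) = QuotientAddGroup.mk b := by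
    intro a b hab
    rw [QuotientAddGroup.eq, AddSubgroup.mem_addSubgroupOf]
    have h1 := Ideal.neg_mem_iff _ |>.2 hab
    have h2 : ((-a + b : A) : 𝓞 K) = -((a : 𝓞 K) - b) := by
      push_cast
      ring
    rw [h2]
    exact h1
  set Φ : Additive E →+ A ⧸ B.addSubgroupOf A := AddMonoidHom.mk'
    (fun u => QuotientAddGroup.mk ⟨((Additive.toMul u : E) : (𝓞 K)ˣ) - 1, (Additive.toMul u).2.1⟩)
    (by
      intro u w
      rw [← QuotientAddGroup.mk_add]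
      apply hmk
      have h1 := mem_four (Additive.toMul u).2.1 (Additive.toMul w).2.1
      refine (congrArg (· ∈ Ideal.span {(4 : 𝓞 K)} * 𝔣) ?_).mp h1
      push_cast
      simp only [toMul_add, Subgroup.coe_mul, Units.val_mul]
      ring) with hΦ
  have hsurj : Function.Surjective Φ := by
    intro w
    obtain ⟨m, rfl⟩ := QuotientAddGroup.mk_surjective w
    obtain ⟨z, hz, hzpos⟩ := exists_pos (𝔤 := Ideal.span {(4 : 𝓞 K)} * 𝔣)
      (mul_ne_zero four_ne h0) (1 + (m : 𝓞 K))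
    obtain ⟨u, hu, hu2⟩ := key (1 + (m : 𝓞 K) + z) (by
      have h1 := Ideal.add_mem _ (show (m : 𝓞 K) ∈ Ideal.span {(2 : 𝓞 K)} * 𝔣 from m.2) (two_le hz)
      refine (congrArg (· ∈ Ideal.span {(2 : 𝓞 K)} * 𝔣) ?_).mp h1
      ring) hzpos
    refine ⟨Additive.ofMul ⟨u, hu⟩, ?_⟩
    apply hmk
    have h1 := Ideal.add_mem _ hu2 hz
    refine (congrArg (· ∈ Ideal.span {(4 : 𝓞 K)} * 𝔣) ?_).mp h1
    simp only [toMul_ofMul]
    ring
  have hV : ∀ w : A ⧸ B.addSubgroupOf A, w + w = 0 := by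
    intro w
    obtain ⟨m, rfl⟩ := QuotientAddGroup.mk_surjective w
    rw [← QuotientAddGroup.mk_add, ← QuotientAddGroup.mk_zero]
    apply hmk
    have h1 := mem_four' m.2
    refine (congrArg (· ∈ Ideal.span {(4 : 𝓞 K)} * 𝔣) ?_).mp h1
    push_cast
    ring
  have h1 := card_le_of_units E (ray_units_torsion hR) hV Φ hsurj
  have h2 : Nat.card (A ⧸ B.addSubgroupOf A) = 2 ^ finrank ℚ K := index_two h0
  rw [h2] at h1
  exact absurd ((Nat.pow_le_pow_iff_right (by norm_num)).1 h1) (not_le.2 rank_lt)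

end Pool.Agent.R363.SD
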