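import Pool.Agent.R363.SD.Zeta

/-!
# The family of partial zeta functions of an Artin map
-/

set_option autoImplicit false
set_option linter.unusedSectionVars false

open NumberField Complex Filter Topology
open Pool.Agent.Y773 (LI)
open Pool.Agent.Y773.G (rl sg IsModChar ex)

namespace Pool.Agent.R363.SD

variable {K : Type} [Field K] [NumberField K]

section fam

variable {G : Type} [CommGroup G] {a : Ideal (𝓞 K) → G} {𝔪 : Ideal (𝓞 K)} {v : K →+* ℂ}

/-- `F g` is the partial zeta function of the class `g`. -/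
def ZF (𝔪 : Ideal (𝓞 K)) (a : Ideal (𝓞 K) → G) (g : G) (F : ℂ → ℂ) : Prop :=
  DifferentiableOn ℂ F {1}ᶜ ∧ ∀ s : ℂ, 1 < s.re →
    HasSum (fun I : {I : Ideal (𝓞 K) // Cop 𝔪 I ∧ a I = g} =>
      ((Ideal.absNorm I.1 : ℕ) : ℂ) ^ (-s)) (F s)

/-- orthogonality -/
lemma sum_chars [Fintype G] [DecidableEq G] (g h : G) :
    ∑ ψ : AddChar (Additive G) ℂ, ψ (Additive.ofMul g⁻¹) * ψ (Additive.ofMul h) =
      if h = g then (Fintype.card G : ℂ) else 0 := by
  have h1 : ∀ ψ : AddChar (Additive G) ℂ, ψ (Additive.ofMul g⁻¹) * ψ (Additive.ofMul h) =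
      ψ (Additive.ofMul (g⁻¹ * h)) := fun ψ => by
    rw [ofMul_mul, AddChar.map_add_eq_mul]
  rw [Finset.sum_congr rfl fun ψ _ => h1 ψ, AddChar.sum_apply_eq_ite]
  have h2 : Additive.ofMul (g⁻¹ * h) = 0 ↔ h = g := by
    rw [ofMul_eq_zero, inv_mul_eq_one, eq_comm]
  simp only [h2, Fintype.card_additive]

theorem exists_fam [Finite G] (h0 : 𝔪 ≠ ⊥) (h𝔪 : 𝔪 ≠ ⊤) (ha : ArtLike (RR v) 𝔪 a) :
    ∃ F : G → ℂ → ℂ, (∀ g, ZF 𝔪 a g (F g)) ∧ (∀ g, F g 0 = 0) ∧
      ∀ τ ∈ RR v, ∀ x : 𝓞 K, x - 1 ∈ 𝔪 → τ (x : K) < 0 → (∀ τ' ∈ RR v, τ' ≠ τ → 0 < τ' (x : K)) →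
        ∀ g, deriv (F g) 0 + deriv (F (g * a (Ideal.span {x}))) 0 = 0 := by
  classical
  have := Fintype.ofFinite G
  choose e he using fun ψ : AddChar (Additive G) ℂ => chi_isModChar (h𝔪 := h𝔪) h0 ha ψ
  choose L hL1 hL2 hL3 hL4 using fun ψ => exists_L (he ψ)
  have hcard : (Fintype.card G : ℂ) ≠ 0 := Nat.cast_ne_zero.2 Fintype.card_ne_zero
  set F : G → ℂ → ℂ := fun g s => (Fintype.card G : ℂ)⁻¹ *
    ∑ ψ : AddChar (Additive G) ℂ, ψ (Additive.ofMul g⁻¹) * L ψ s with hF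
  have hdiff : ∀ g, DifferentiableOn ℂ (F g) {1}ᶜ := by
    intro g
    refine DifferentiableOn.const_mul ?_ _
    exact DifferentiableOn.fun_sum fun ψ _ => (hL1 ψ).const_mul _
  have hderiv : ∀ g, deriv (F g) 0 = (Fintype.card G : ℂ)⁻¹ *
      ∑ ψ : AddChar (Additive G) ℂ, ψ (Additive.ofMul g⁻¹) * deriv (L ψ) 0 := by
    intro g
    have hd : ∀ ψ, DifferentiableAt ℂ (L ψ) 0 := fun ψ =>
      (hL1 ψ).differentiableAt (isOpen_compl_singleton.mem_nhds (by simp))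
    rw [hF]
    simp only
    rw [deriv_const_mul _ (DifferentiableAt.fun_sum fun ψ _ => (hd ψ).const_mul _),
      deriv_fun_sum fun ψ _ => (hd ψ).const_mul _]
    congr 1
    exact Finset.sum_congr rfl fun ψ _ => deriv_const_mul _ (hd ψ)
  refine ⟨F, fun g => ⟨hdiff g, fun s hs => ?_⟩, fun g => ?_, ?_⟩
  · have h1 : HasSum (fun I : Ideal (𝓞 K) => (Fintype.card G : ℂ)⁻¹ *
        ∑ ψ : AddChar (Additive G) ℂ, ψ (Additive.ofMul g⁻¹) *
          (chi h𝔪 ha ψ I * ((Ideal.absNorm I : ℕ) : ℂ) ^ (-s))) (F g s) := by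
      refine HasSum.mul_left _ (hasSum_sum fun ψ _ => HasSum.mul_left _ ?_)
      rw [hL2 ψ s hs]
      exact (Pool.Agent.Y773.G.summable_LI (he ψ).norm_le_one hs).hasSum
    have h2 : (fun I : Ideal (𝓞 K) => (Fintype.card G : ℂ)⁻¹ *
        ∑ ψ : AddChar (Additive G) ℂ, ψ (Additive.ofMul g⁻¹) *
          (chi h𝔪 ha ψ I * ((Ideal.absNorm I : ℕ) : ℂ) ^ (-s))) =
        Set.indicator {I : Ideal (𝓞 K) | Cop 𝔪 I ∧ a I = g}
          (fun I => ((Ideal.absNorm I : ℕ) : ℂ) ^ (-s)) := by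
      funext I
      by_cases hI : IsCoprime I 𝔪
      · have h3 : ∑ ψ : AddChar (Additive G) ℂ, ψ (Additive.ofMul g⁻¹) *
          (chi h𝔪 ha ψ I * ((Ideal.absNorm I : ℕ) : ℂ) ^ (-s)) =
          (∑ ψ : AddChar (Additive G) ℂ, ψ (Additive.ofMul g⁻¹) * ψ (Additive.ofMul (a I))) *
            ((Ideal.absNorm I : ℕ) : ℂ) ^ (-s) := by
          rw [Finset.sum_mul]
          refine Finset.sum_congr rfl fun ψ _ => ?_
          rw [chi_of_coprime ha ψ hI, mul_assoc]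
        rw [h3, sum_chars]
        by_cases hg : a I = g
        · rw [if_pos hg, Set.indicator_of_mem (show I ∈ {I : Ideal (𝓞 K) | Cop 𝔪 I ∧ a I = g} from
            ⟨(cop_iff h𝔪).2 hI, hg⟩), ← mul_assoc, inv_mul_cancel₀ hcard, one_mul]
        · rw [if_neg hg, Set.indicator_of_notMem (fun h => hg h.2), zero_mul, mul_zero]
      · rw [Set.indicator_of_notMem (fun h => hI ((cop_iff h𝔪).1 h.1)), Finset.sum_eq_zero,
          mul_zero]
        intro ψ _
        rw [chi_of_not ha ψ hI, zero_mul, mul_zero]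
    rw [h2] at h1
    exact (hasSum_subtype_iff_indicator (s := {I : Ideal (𝓞 K) | Cop 𝔪 I ∧ a I = g})).2 h1
  · rw [hF]
    simp only
    rw [Finset.sum_eq_zero, mul_zero]
    intro ψ _
    obtain ⟨φ, -, hφ⟩ := exists_good_embedding (v := v) (sig_v h0 ha (he ψ))
    rw [hL3 ψ ⟨φ, hφ⟩, mul_zero]
  · intro τ hτ x hx1 hx hx' g
    have hx0 : x ≠ 0 := by
      rintro rfl
      simp at hx
    rw [hderiv, hderiv, ← mul_add, ← Finset.sum_add_distrib, Finset.sum_eq_zero, mul_zero]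
    intro ψ _
    set c := a (Ideal.span {x}) with hc
    have hcc : c * c = 1 := by
      rw [hc, ← ha.mul _ _ (cop_span hx0 hx1) (cop_span hx0 hx1),
        Ideal.span_singleton_mul_span_singleton]
      exact ha.ray _ (ray_sq hx0 hx1)
    have hci : c⁻¹ = c := inv_eq_of_mul_eq_one_left hcc
    have h1 : ψ (Additive.ofMul (g * c)⁻¹) =
        ψ (Additive.ofMul g⁻¹) * ψ (Additive.ofMul c) := by
      rw [mul_inv, hci, ofMul_mul, AddChar.map_add_eq_mul]
    rw [h1]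
    have h2 : ψ (Additive.ofMul c) * ψ (Additive.ofMul c) = 1 := by
      rw [← AddChar.map_add_eq_mul, ← ofMul_mul, hcc, ofMul_one, AddChar.map_zero_eq_one]
    rcases mul_self_eq_one_iff.1 h2 with h3 | h3
    · have h4 := hL4 ψ (two_zero h0 ha (he ψ) hτ hx1 hx hx' h3)
      rw [h4]
      ring
    · rw [h3]
      ring

/-- uniqueness of the continuation -/
lemma eq_of_eq_re {F F' : ℂ → ℂ} (h : DifferentiableOn ℂ F {1}ᶜ) (h' : DifferentiableOn ℂ F' {1}ᶜ)
    (heq : ∀ s : ℂ, 1 < s.re → F s = F' s) : Set.EqOn F F' {1}ᶜ := by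
  have hpre : IsPreconnected ({1}ᶜ : Set ℂ) :=
    (isConnected_compl_singleton_of_one_lt_rank (by simp) 1).isPreconnected
  have hA := h.analyticOnNhd isOpen_compl_singleton
  have hA' := h'.analyticOnNhd isOpen_compl_singleton
  refine hA.eqOn_of_preconnected_of_eventuallyEq hA' hpre (z₀ := 2) (by simp) ?_
  have hopen : IsOpen {s : ℂ | 1 < s.re} := isOpen_lt continuous_const Complex.continuous_re
  filter_upwards [hopen.mem_nhds (show (2 : ℂ) ∈ {s : ℂ | 1 < s.re} by simp)] with s hs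
  exact heq s hs

lemma deriv_eq_of_eq_re {F F' : ℂ → ℂ} (h : DifferentiableOn ℂ F {1}ᶜ)
    (h' : DifferentiableOn ℂ F' {1}ᶜ) (heq : ∀ s : ℂ, 1 < s.re → F s = F' s) :
    F 0 = F' 0 ∧ deriv F 0 = deriv F' 0 := by
  have h1 := eq_of_eq_re h h' heq
  refine ⟨h1 (by simp), ?_⟩
  have h2 : F =ᶠ[𝓝 0] F' := by
    filter_upwards [isOpen_compl_singleton.mem_nhds (show (0 : ℂ) ∈ ({1}ᶜ : Set ℂ) by simp)]
      with s hs
    exact h1 hs
  exact h2.deriv_eq

lemma ZF.deriv_eq {g : G} {F F' : ℂ → ℂ} (h : ZF 𝔪 a g F) (h' : ZF 𝔪 a g F') :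
    deriv F 0 = deriv F' 0 :=
  (deriv_eq_of_eq_re h.1 h'.1 fun s hs => (h.2 s hs).unique (h'.2 s hs)).2

/-- the derivative at `0` is real -/
lemma ZF.real {g : G} {F : ℂ → ℂ} (h : ZF 𝔪 a g F) : ((deriv F 0).re : ℂ) = deriv F 0 := by
  have hdiff : DifferentiableOn ℂ (fun s => (starRingEnd ℂ) (F ((starRingEnd ℂ) s))) {1}ᶜ := by
    intro s hs
    have h1 : (starRingEnd ℂ) s ∈ ({1}ᶜ : Set ℂ) := by
      intro h2
      apply hs
      rw [Set.mem_singleton_iff] at h2 ⊢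
      have := congrArg (starRingEnd ℂ) h2
      simpa using this
    have h3 : DifferentiableAt ℂ F ((starRingEnd ℂ) s) :=
      h.1.differentiableAt (isOpen_compl_singleton.mem_nhds h1)
    have h4 := h3.hasDerivAt.conj_conj
    rw [Complex.conj_conj] at h4
    exact h4.differentiableAt.differentiableWithinAt
  have heq : ∀ s : ℂ, 1 < s.re → F s = (fun s => (starRingEnd ℂ) (F ((starRingEnd ℂ) s))) s := by
    intro s hs
    have h1 := (h.2 ((starRingEnd ℂ) s) (by simpa using hs)).map (starRingEnd ℂ)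
      Complex.continuous_conj
    refine (h.2 s hs).unique ?_
    convert h1 using 1
    funext I
    simp only [Function.comp]
    have h5 : ((Ideal.absNorm I.1 : ℕ) : ℂ).arg ≠ Real.pi := by
      rw [Complex.natCast_arg]
      exact Real.pi_ne_zero.symm
    have h6 := Complex.cpow_conj ((Ideal.absNorm I.1 : ℕ) : ℂ) (-s) h5
    rw [Complex.conj_natCast, map_neg] at h6
    rw [h6, Complex.conj_conj]
  have h6 := (deriv_eq_of_eq_re h.1 hdiff heq).2
  have h7 : DifferentiableAt ℂ F ((starRingEnd ℂ) 0) := by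
    rw [map_zero]
    exact h.1.differentiableAt (isOpen_compl_singleton.mem_nhds (by simp))
  have h8 := h7.hasDerivAt.conj_conj
  rw [Complex.conj_conj] at h8
  have h9 : deriv (fun s => (starRingEnd ℂ) (F ((starRingEnd ℂ) s))) 0 =
      (starRingEnd ℂ) (deriv F 0) := by
    have := h8.deriv
    rw [map_zero] at this
    exact this
  rw [h9] at h6
  exact (Complex.conj_eq_iff_re.1 h6.symm)

end fam

end Pool.Agent.R363.SD
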