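import Mathlib

/-!
# Lemmas on the algebraic closure of a number field
-/

set_option autoImplicit false
set_option linter.unusedSectionVars false

open NumberField IntermediateField

namespace Pool.Agent.R363.SD

variable {K : Type} [Field K] [NumberField K]

/-- the absolute Galois group -/
abbrev GK (K : Type) [Field K] := AlgebraicClosure K ≃ₐ[K] AlgebraicClosure K

/-- embeddings into `ℂ` extend -/
lemma exists_lift_emb (F : IntermediateField K (AlgebraicClosure K)) (φ : F →+* ℂ) :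
    ∃ g : AlgebraicClosure K →+* ℂ, ∀ x : F, g (x : AlgebraicClosure K) = φ x := by
  let _ : Algebra F ℂ := φ.toAlgebra
  have : Algebra.IsAlgebraic F (AlgebraicClosure K) := inferInstance
  refine ⟨(IsAlgClosed.lift (M := ℂ) (R := F) (S := AlgebraicClosure K)).toRingHom, fun x => ?_⟩
  exact (IsAlgClosed.lift (M := ℂ) (R := F) (S := AlgebraicClosure K)).commutes x

lemma mem_of_fixed (H : IntermediateField K (AlgebraicClosure K)) {x : AlgebraicClosure K}
    (h : ∀ σ : GK K, (∀ y ∈ H, σ y = y) → σ x = x) : x ∈ H := by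
  rw [← InfiniteGalois.fixedField_fixingSubgroup H, IntermediateField.mem_fixedField_iff]
  intro σ hσ
  refine h σ fun y hy => ?_
  rw [IntermediateField.mem_fixingSubgroup_iff] at hσ
  exact hσ y hy

/-- Kronecker -/
lemma root_of_unity_of_abs {x : AlgebraicClosure K} (hx : IsIntegral ℤ x)
    (h : ∀ g : AlgebraicClosure K →+* ℂ, ‖g x‖ = 1) : ∃ n : ℕ, 0 < n ∧ x ^ n = 1 := by
  have hint : IsIntegral K x := Algebra.IsIntegral.isIntegral x
  have : FiniteDimensional K K⟮x⟯ := adjoin.finiteDimensional hint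
  have : FiniteDimensional ℚ K⟮x⟯ := FiniteDimensional.trans ℚ K K⟮x⟯
  have h0 : CharZero K⟮x⟯ := charZero_of_injective_algebraMap (algebraMap K K⟮x⟯).injective
  have : NumberField K⟮x⟯ := ⟨⟩
  obtain ⟨n, hn, hxn⟩ := NumberField.Embeddings.pow_eq_one_of_norm_eq_one K⟮x⟯ ℂ
    (x := AdjoinSimple.gen K x) (by
      rw [← isIntegral_algebraMap_iff (algebraMap K⟮x⟯ (AlgebraicClosure K)).injective]
      exact hx) (fun φ => by
      obtain ⟨g, hg⟩ := exists_lift_emb K⟮x⟯ φ
      rw [← hg]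
      exact h g)
  refine ⟨n, hn, ?_⟩
  have h1 := congrArg (fun y : K⟮x⟯ => (y : AlgebraicClosure K)) hxn
  simpa using h1

/-- roots of unity are raised to powers -/
lemma exists_pow_of_root {ζ : AlgebraicClosure K} {n : ℕ} (hn : 0 < n) (hζ : ζ ^ n = 1)
    (σ : GK K) : ∃ m : ℕ, σ ζ = ζ ^ m := by
  have : NeZero n := ⟨hn.ne'⟩
  obtain ⟨m, hm⟩ := map_rootsOfUnity_eq_pow_self σ (rootsOfUnity.mkOfPowEq ζ hζ)
  exact ⟨m, hm⟩

lemma comm_root {ζ : AlgebraicClosure K} {n : ℕ} (hn : 0 < n) (hζ : ζ ^ n = 1) (σ τ : GK K) :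
    σ (τ ζ) = τ (σ ζ) := by
  obtain ⟨m, hm⟩ := exists_pow_of_root hn hζ σ
  obtain ⟨m', hm'⟩ := exists_pow_of_root hn hζ τ
  rw [hm, hm', map_pow, map_pow, hm, hm', ← pow_mul, ← pow_mul, mul_comm]

/-- complex conjugation -/
lemma exists_conj (ι : AlgebraicClosure K →+* ℂ) (τ : K →+* ℝ)
    (hτ : ι.comp (algebraMap K (AlgebraicClosure K)) = Complex.ofRealHom.comp τ) :
    ∃ c : GK K, ∀ x, ι (c x) = (starRingEnd ℂ) (ι x) := by
  obtain ⟨σ, hσ⟩ := NumberField.ComplexEmbedding.exists_comp_symm_eq_of_comp_eq (k := K) ι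
    ((starRingEnd ℂ).comp ι) (by
      rw [RingHom.comp_assoc, hτ]
      ext x
      simp)
  exact ⟨σ.symm, fun x => congrArg (fun f => f x) hσ⟩

lemma comm_of_abelian (M : IntermediateField K (AlgebraicClosure K)) [IsAbelianGalois K M]
    {x : AlgebraicClosure K} (hx : x ∈ M) (σ τ : GK K) : σ (τ x) = τ (σ x) := by
  have h1 : (AlgEquiv.restrictNormalHom M (σ * τ)) = (AlgEquiv.restrictNormalHom M (τ * σ)) := by
    rw [map_mul, map_mul]
    exact IsMulCommutative.is_comm.comm _ _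
  have h2 := congrArg (fun f : M ≃ₐ[K] M => ((f ⟨x, hx⟩ : M) : AlgebraicClosure K)) h1
  simp only [AlgEquiv.restrictNormalHom_apply] at h2
  exact h2

lemma abelian_of_comm (M : IntermediateField K (AlgebraicClosure K))
    (h : ∀ x ∈ M, ∀ σ τ : GK K, σ (τ x) = τ (σ x)) : IsAbelianGalois K M := by
  have hn : Normal K M := by
    rw [IntermediateField.normal_iff_forall_map_le']
    intro σ x hx
    obtain ⟨y, hy, rfl⟩ := hx
    refine mem_of_fixed M fun τ hτ => ?_
    change τ (σ y) = σ y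
    rw [← h y hy σ τ, hτ y hy]
  have hg : IsGalois K M := ⟨⟩
  refine { toIsGalois := hg, toIsMulCommutative := ?_ }
  rw [isMulCommutative_iff]
  intro a b
  obtain ⟨σ, rfl⟩ := AlgEquiv.restrictNormalHom_surjective (AlgebraicClosure K) a
  obtain ⟨τ, rfl⟩ := AlgEquiv.restrictNormalHom_surjective (AlgebraicClosure K) b
  ext x
  rw [← map_mul, ← map_mul, AlgEquiv.restrictNormalHom_apply, AlgEquiv.restrictNormalHom_apply]
  exact h x x.2 σ τ

end Pool.Agent.R363.SD
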