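import Pool.Agent.R363.SD.Even
import Pool.Agent.R363.SD.Field

/-!
# The logarithms of units in abelian extensions
-/

set_option autoImplicit false
set_option linter.unusedSectionVars false

open NumberField IntermediateField

namespace Pool.Agent.R363.SD

variable {K : Type} [Field K] [NumberField K]

/-- `g` lies above the same place of `K` as `ι` -/
def Above (ι g : AlgebraicClosure K →+* ℂ) : Prop :=
  InfinitePlace.mk (g.comp (algebraMap K (AlgebraicClosure K))) =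
    InfinitePlace.mk (ι.comp (algebraMap K (AlgebraicClosure K)))

lemma above_comp {ι g : AlgebraicClosure K →+* ℂ} (σ : GK K) :
    Above ι (g.comp (σ : AlgebraicClosure K →+* AlgebraicClosure K)) ↔ Above ι g := by
  unfold Above
  have h1 : (g.comp (σ : AlgebraicClosure K →+* AlgebraicClosure K)).comp
      (algebraMap K (AlgebraicClosure K)) = g.comp (algebraMap K (AlgebraicClosure K)) := by
    ext x
    simp
  rw [h1]

/-- a unit in the maximal abelian extension with absolute value one away from `ι` -/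
structure GoodUnit (ι : AlgebraicClosure K →+* ℂ) (u : AlgebraicClosure K) : Prop where
  ne : u ≠ 0
  int : IsIntegral ℤ u
  int_inv : IsIntegral ℤ u⁻¹
  comm : ∀ σ τ : GK K, σ (τ u) = τ (σ u)
  abs : ∀ g : AlgebraicClosure K →+* ℂ, ¬ Above ι g → ‖g u‖ = 1

variable {ι : AlgebraicClosure K →+* ℂ} {u w : AlgebraicClosure K}

lemma GoodUnit.one : GoodUnit ι (1 : AlgebraicClosure K) :=
  ⟨one_ne_zero, isIntegral_one, by rw [inv_one]; exact isIntegral_one, by simp, by simp⟩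

lemma GoodUnit.mul (hu : GoodUnit ι u) (hw : GoodUnit ι w) : GoodUnit ι (u * w) :=
  ⟨mul_ne_zero hu.ne hw.ne, hu.int.mul hw.int, by rw [mul_inv]; exact hu.int_inv.mul hw.int_inv,
    fun σ τ => by rw [map_mul, map_mul, map_mul, map_mul, hu.comm, hw.comm],
    fun g hg => by rw [map_mul, norm_mul, hu.abs g hg, hw.abs g hg, one_mul]⟩

lemma GoodUnit.inv (hu : GoodUnit ι u) : GoodUnit ι u⁻¹ :=
  ⟨inv_ne_zero hu.ne, hu.int_inv, by rw [inv_inv]; exact hu.int,
    fun σ τ => by rw [map_inv₀, map_inv₀, map_inv₀, map_inv₀, hu.comm],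
    fun g hg => by rw [map_inv₀, norm_inv, hu.abs g hg, inv_one]⟩

lemma isIntegral_gal (hu : IsIntegral ℤ u) (σ : GK K) : IsIntegral ℤ (σ u) :=
  hu.map (σ : AlgebraicClosure K →+* AlgebraicClosure K).toIntAlgHom

lemma GoodUnit.gal (hu : GoodUnit ι u) (ρ : GK K) : GoodUnit ι (ρ u) := by
  refine ⟨by rw [Ne, map_eq_zero_iff _ ρ.injective]; exact hu.ne, isIntegral_gal hu.int ρ,
    by rw [← map_inv₀]; exact isIntegral_gal hu.int_inv ρ, fun σ τ => ?_, fun g hg => ?_⟩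
  · have h1 : σ (τ (ρ u)) = ρ ((σ * τ) u) := hu.comm (σ * τ) ρ
    have h2 : τ (σ (ρ u)) = ρ ((τ * σ) u) := hu.comm (τ * σ) ρ
    rw [h1, h2]
    congr 1
    exact hu.comm σ τ
  · exact hu.abs (g.comp (ρ : AlgebraicClosure K →+* AlgebraicClosure K))
      (fun h => hg ((above_comp ρ).1 h))

lemma GoodUnit.root {ζ : AlgebraicClosure K} {n : ℕ} (hn : 0 < n) (hζ : ζ ^ n = 1) :
    GoodUnit ι ζ := by
  have h0 : ζ ≠ 0 := by
    rintro rfl
    rw [zero_pow hn.ne'] at hζ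
    exact zero_ne_one hζ
  have h1 : ∀ ξ : AlgebraicClosure K, ξ ^ n = 1 → IsIntegral ℤ ξ := fun ξ hξ =>
    IsIntegral.of_pow hn (by rw [hξ]; exact isIntegral_one)
  refine ⟨h0, h1 ζ hζ, h1 _ (by rw [inv_pow, hζ, inv_one]), fun σ τ => comm_root hn hζ σ τ,
    fun g _ => ?_⟩
  have h2 : ‖g ζ‖ ^ n = 1 := by rw [← norm_pow, ← map_pow, hζ, map_one, norm_one]
  exact (pow_eq_one_iff_of_nonneg (norm_nonneg _) hn.ne').1 h2

/-- the logarithms of good units, with a factor `d` -/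
def LL (ι : AlgebraicClosure K →+* ℂ) (d : ℝ) (f : GK K → ℝ) : Prop :=
  ∃ u, GoodUnit ι u ∧ ∀ σ, f σ = d * Real.log ‖ι (σ u)‖

lemma norm_ne_zero' {u : AlgebraicClosure K} (hu : u ≠ 0) (σ : GK K) : ‖ι (σ u)‖ ≠ 0 := by
  rw [norm_ne_zero_iff, Ne, map_eq_zero, map_eq_zero_iff _ σ.injective]
  exact hu

lemma LL.ti (ι : AlgebraicClosure K →+* ℂ) (d : ℝ) : TI (LL ι d) := by
  refine ⟨⟨1, GoodUnit.one, by simp⟩, ?_, ?_, ?_⟩
  · rintro f g ⟨u, hu, hf⟩ ⟨w, hw, hg⟩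
    refine ⟨u * w, hu.mul hw, fun σ => ?_⟩
    beta_reduce
    rw [map_mul, map_mul, norm_mul, Real.log_mul (norm_ne_zero' hu.ne σ) (norm_ne_zero' hw.ne σ),
      hf, hg, mul_add]
  · rintro f ⟨u, hu, hf⟩
    refine ⟨u⁻¹, hu.inv, fun σ => ?_⟩
    beta_reduce
    rw [map_inv₀, map_inv₀, norm_inv, Real.log_inv, hf, mul_neg]
  · rintro f ρ ⟨u, hu, hf⟩
    exact ⟨ρ u, hu.gal ρ, fun σ => hf (σ * ρ)⟩

/-- functions such that the exponentials are units, with the sign -/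
def LP (ι : AlgebraicClosure K →+* ℂ) (f : GK K → ℝ) : Prop :=
  ∃ u, GoodUnit ι u ∧ ∀ σ, ι (σ u) = Real.exp (2 * f σ)

lemma LP.ti (ι : AlgebraicClosure K →+* ℂ) : TI (LP ι) := by
  refine ⟨⟨1, GoodUnit.one, by simp⟩, ?_, ?_, ?_⟩
  · rintro f g ⟨u, hu, hf⟩ ⟨w, hw, hg⟩
    refine ⟨u * w, hu.mul hw, fun σ => ?_⟩
    rw [map_mul, map_mul, hf, hg, mul_add, Real.exp_add, Complex.ofReal_mul]
  · rintro f ⟨u, hu, hf⟩
    refine ⟨u⁻¹, hu.inv, fun σ => ?_⟩
    rw [map_inv₀, map_inv₀, hf, mul_neg, Real.exp_neg, Complex.ofReal_inv]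
  · rintro f ρ ⟨u, hu, hf⟩
    exact ⟨ρ u, hu.gal ρ, fun σ => hf (σ * ρ)⟩

/-- the absolute values above the place of `ι` -/
lemma above_norm {g : AlgebraicClosure K →+* ℂ} (hg : Above ι g) :
    ∃ σ : GK K, ∀ x, ‖g x‖ = ‖ι (σ x)‖ := by
  rcases InfinitePlace.mk_eq_iff.1 hg with h | h
  · obtain ⟨σ, hσ⟩ := NumberField.ComplexEmbedding.exists_comp_symm_eq_of_comp_eq (k := K) ι g
      h.symm
    refine ⟨σ.symm, fun x => ?_⟩
    rw [← hσ]
    rfl
  · obtain ⟨σ, hσ⟩ := NumberField.ComplexEmbedding.exists_comp_symm_eq_of_comp_eq (k := K) ι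
      ((starRingEnd ℂ).comp g) (by
        rw [RingHom.comp_assoc, ← h]
        rfl)
    refine ⟨σ.symm, fun x => ?_⟩
    have h1 := congrArg (fun f => ‖f x‖) hσ
    simp only [RingHom.comp_apply, RCLike.norm_conj] at h1
    rw [← h1]
    rfl

/-- an integer all of whose absolute values are one is a root of unity -/
lemma GoodUnit.root_of_abs {x : AlgebraicClosure K} (hx : GoodUnit ι x)
    (h : ∀ σ : GK K, ‖ι (σ x)‖ = 1) : ∃ n : ℕ, 0 < n ∧ x ^ n = 1 := by
  refine root_of_unity_of_abs hx.int fun g => ?_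
  by_cases hg : Above ι g
  · obtain ⟨σ, hσ⟩ := above_norm hg
    rw [hσ, h]
  · exact hx.abs g hg

/-- back from good units: the real case -/
lemma LL.real {τ : K →+* ℝ}
    (hτ : ι.comp (algebraMap K (AlgebraicClosure K)) = Complex.ofRealHom.comp τ)
    {H : IntermediateField K (AlgebraicClosure K)} {f : GK K → ℝ} (hf : LL ι 1 f)
    (hH : ∀ σ τ : GK K, (∀ x ∈ H, τ x = x) → f (σ * τ) = f σ) :
    ∃ ε ∈ H, GoodUnit ι ε ∧ (∀ σ, ι (σ ε) = Real.exp (2 * f σ)) ∧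
      ∀ y : AlgebraicClosure K, y ^ 2 = ε → ∀ σ τ : GK K, σ (τ y) = τ (σ y) := by
  obtain ⟨u, hu, hfu⟩ := hf
  obtain ⟨c, hc⟩ := exists_conj ι τ hτ
  have hval : ∀ σ : GK K, ι (σ (u * c u)) = Real.exp (2 * f σ) := by
    intro σ
    rw [map_mul, hu.comm σ c, map_mul, hc, Complex.mul_conj, Complex.normSq_eq_norm_sq, hfu σ,
      one_mul, two_mul, Real.exp_add, Real.exp_log (lt_of_le_of_ne (norm_nonneg _)
        (norm_ne_zero' hu.ne σ).symm), pow_two]
  have hcu := hu.gal c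
  refine ⟨u * c u, ?_, hu.mul hcu, hval, ?_⟩
  · refine mem_of_fixed H fun τ hτ => ?_
    apply ι.injective
    have h1 := hval τ
    have h2 := hval 1
    rw [h1, AlgEquiv.one_apply] at *
    rw [h2, ← hH 1 τ hτ, one_mul]
  · -- `c u / u` is a root of unity
    have hζ : ∃ n : ℕ, 0 < n ∧ (c u * u⁻¹) ^ n = 1 := by
      refine (hcu.mul hu.inv).root_of_abs fun σ => ?_
      rw [map_mul, hu.comm σ c, map_inv₀, map_mul, hc, map_inv₀, norm_mul, RCLike.norm_conj,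
        norm_inv, mul_inv_cancel₀ (norm_ne_zero' hu.ne σ)]
    obtain ⟨n, hn, hζ⟩ := hζ
    intro y hy
    have h1 : (y * u⁻¹) ^ (2 * n) = 1 := by
      rw [pow_mul, mul_pow, hy]
      have h2 : u * c u * u⁻¹ ^ 2 = c u * u⁻¹ := by
        field_simp [hu.ne]
      rw [h2, hζ]
    have h2 := (GoodUnit.root (ι := ι) (by omega) h1).mul hu
    rw [inv_mul_cancel_right₀ hu.ne] at h2
    exact h2.comm

end Pool.Agent.R363.SD
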