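import Pool.Agent.R363.SD.Quad

/-!
# The reductions to deep moduli
-/

set_option autoImplicit false
set_option linter.unusedSectionVars false

open NumberField IntermediateField

namespace Pool.Agent.R363.SD

variable {K : Type} [Field K] [NumberField K] {R : Set (K →+* ℝ)}

theorem tate_reduction {ι : AlgebraicClosure K →+* ℂ}
    (hR : R = RR (ι.comp (algebraMap K (AlgebraicClosure K)))) (hne : R.Nonempty)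
    (hall : ∀ g : AlgebraicClosure K →+* ℂ, ¬ Above ι g →
      ∃ τ ∈ R, g.comp (algebraMap K (AlgebraicClosure K)) = Complex.ofRealHom.comp τ)
    {τ₁ : K →+* ℝ} (hι : ι.comp (algebraMap K (AlgebraicClosure K)) = Complex.ofRealHom.comp τ₁)
    (C : ∀ 𝔣 : Ideal (𝓞 K), RayClassField R 𝔣) (n k : ℕ) (𝔪 𝔟 : Ideal (𝓞 K)) (h𝔪 : 𝔪 ≠ ⊥)
    (h𝔟 : 𝔟 ≠ ⊥) (h2 : ∀ 𝔭 : Ideal (𝓞 K), 𝔭.IsPrime → (2 : 𝓞 K) ∈ 𝔭 → 𝔪 ≤ 𝔭) :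
    (HoldsDeep R (fun 𝔣 => StarkTate ι (C 𝔣)) n k 𝔪 𝔟 →
      ForZeta R 𝔪 𝔪 0 (StarkTate ι (C 𝔪))) ∧
    ((∀ 𝔣 : Ideal (𝓞 K), 𝔣 ≠ ⊥ → 𝔣 ≤ 𝔪 → ForZeta R 𝔣 𝔣 0 (StarkTate ι (C 𝔣))) →
      HoldsDeep R (fun 𝔣 => StarkTate ι (C 𝔣)) n k 𝔪 𝔟) := by
  have e : ∀ 𝔣, StarkTate ι (C 𝔣) = RealStarkUnits ι (C 𝔣) := fun 𝔣 =>
    funext fun Z => propext (starkTate_iff ι (C 𝔣) Z)
  simp only [holdsDeep_iff, e]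
  exact ⟨fun h => real_descent hR hne hall hι C n k 𝔪 𝔟 h𝔪 h𝔟 h2 h,
    fun h => real_converse hR hall hι C n k 𝔪 𝔟 h𝔪 h2 h⟩

theorem stark_reduction {ι : AlgebraicClosure K →+* ℂ}
    (hR : R = RR (ι.comp (algebraMap K (AlgebraicClosure K)))) (hne : R.Nonempty)
    (hall : ∀ g : AlgebraicClosure K →+* ℂ, ¬ Above ι g →
      ∃ τ ∈ R, g.comp (algebraMap K (AlgebraicClosure K)) = Complex.ofRealHom.comp τ)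
    (C : ∀ 𝔣 : Ideal (𝓞 K), RayClassField R 𝔣) (n k : ℕ) (𝔪 𝔟 : Ideal (𝓞 K)) (h𝔪 : 𝔪 ≠ ⊥)
    (h𝔟 : 𝔟 ≠ ⊥) (h2 : ∀ 𝔭 : Ideal (𝓞 K), 𝔭.IsPrime → (2 : 𝓞 K) ∈ 𝔭 → 𝔪 ≤ 𝔭) :
    (HoldsDeep R (fun 𝔣 => Stark ι (C 𝔣)) n k 𝔪 𝔟 →
      ForZeta R 𝔪 𝔪 0 (Stark ι (C 𝔪))) ∧
    ((∀ 𝔣 : Ideal (𝓞 K), 𝔣 ≠ ⊥ → 𝔣 ≤ 𝔪 → ForZeta R 𝔣 𝔣 0 (Stark ι (C 𝔣))) →
      HoldsDeep R (fun 𝔣 => Stark ι (C 𝔣)) n k 𝔪 𝔟) := by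
  have e : ∀ 𝔣, Stark ι (C 𝔣) = PlainStarkUnits ι (C 𝔣) := fun 𝔣 =>
    funext fun Z => propext (stark_iff ι (C 𝔣) Z)
  simp only [holdsDeep_iff, e]
  exact ⟨fun h => plain_descent hR hne hall C n k 𝔪 𝔟 h𝔪 h𝔟 h2 h,
    fun h => plain_converse hR hall C n k 𝔪 𝔟 h𝔪 h2 h⟩

theorem complex_reduction {ι : AlgebraicClosure K →+* ℂ}
    (hR : R = RR (ι.comp (algebraMap K (AlgebraicClosure K)))) (hne : R.Nonempty)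
    (hall : ∀ g : AlgebraicClosure K →+* ℂ, ¬ Above ι g →
      ∃ τ ∈ R, g.comp (algebraMap K (AlgebraicClosure K)) = Complex.ofRealHom.comp τ)
    (C : ∀ 𝔣 : Ideal (𝓞 K), RayClassField R 𝔣) (n k : ℕ) (𝔪 𝔟 : Ideal (𝓞 K)) (h𝔪 : 𝔪 ≠ ⊥)
    (h𝔟 : 𝔟 ≠ ⊥) (h2 : ∀ 𝔭 : Ideal (𝓞 K), 𝔭.IsPrime → (2 : 𝓞 K) ∈ 𝔭 → 𝔪 ≤ 𝔭) :
    (HoldsDeep R (fun 𝔣 => StarkComplex ι (C 𝔣)) n k 𝔪 𝔟 →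
      ForZeta R 𝔪 𝔪 0 (StarkComplex ι (C 𝔪))) ∧
    ((∀ 𝔣 : Ideal (𝓞 K), 𝔣 ≠ ⊥ → 𝔣 ≤ 𝔪 → ForZeta R 𝔣 𝔣 0 (StarkComplex ι (C 𝔣))) →
      HoldsDeep R (fun 𝔣 => StarkComplex ι (C 𝔣)) n k 𝔪 𝔟) := by
  have e : ∀ 𝔣, StarkComplex ι (C 𝔣) = ComplexStarkUnit ι (C 𝔣) := fun 𝔣 =>
    funext fun Z => propext (starkComplex_iff ι (C 𝔣) Z)
  simp only [holdsDeep_iff, e]
  exact ⟨fun h => complex_descent hR hne hall C n k 𝔪 𝔟 h𝔪 h𝔟 h2 h,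
    fun h => complex_converse hR hall C n k 𝔪 𝔟 h𝔪 h2 h⟩

end Pool.Agent.R363.SD
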