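import Pool.Agent.R363.SD.Tate

/-!
# Partial zeta functions of abelian extensions
-/

set_option autoImplicit false
set_option linter.unusedSectionVars false

open NumberField IntermediateField

namespace Pool.Agent.R363.SD

variable {K : Type} [Field K] [NumberField K] {R : Set (K →+* ℝ)} {𝔪 : Ideal (𝓞 K)}
  {ι : AlgebraicClosure K →+* ℂ}

section push

open scoped IsMulCommutative

/-- the map between the Galois groups -/
lemma AbelianExtension.exists_map (E : AbelianExtension R 𝔪) (C : RayClassField R 𝔪)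
    (h0 : 𝔪 ≠ ⊥) : ∃ r : (C.H ≃ₐ[K] C.H) →* (E.H ≃ₐ[K] E.H),
      (∀ σ : GK K, r (C.res σ) = AlgEquiv.restrictNormalHom E.H σ) ∧
      ∀ I, Cop 𝔪 I → r (C.art I) = E.art I := by
  have key : ∀ σ τ : GK K, C.res σ = C.res τ →
      (AlgEquiv.restrictNormalHom E.H σ : E.H ≃ₐ[K] E.H) = AlgEquiv.restrictNormalHom E.H τ := by
    intro σ τ h
    obtain ⟨I, hI, hI'⟩ := C.art_surjective (C.res σ)
    rw [← E.compat C h0 σ I hI hI', ← E.compat C h0 τ I hI (hI'.trans h)]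
  have h1 : ∀ σ : GK K, (AlgEquiv.restrictNormalHom E.H
      (Function.surjInv C.res_surj (C.res σ)) : E.H ≃ₐ[K] E.H) =
        AlgEquiv.restrictNormalHom E.H σ := fun σ =>
    key _ _ (Function.surjInv_eq C.res_surj _)
  refine ⟨MonoidHom.mk' (fun g => AlgEquiv.restrictNormalHom E.H
    (Function.surjInv C.res_surj g)) ?_, h1, ?_⟩
  · intro g g'
    rw [← map_mul]
    apply key
    rw [map_mul, Function.surjInv_eq C.res_surj, Function.surjInv_eq C.res_surj,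
      Function.surjInv_eq C.res_surj]
  · intro I hI
    exact (E.compat C h0 _ I hI (Function.surjInv_eq C.res_surj _).symm).symm

/-- the derivatives of the partial zeta functions of `E` are sums of translates of those of the
ray class field -/
lemma AbelianExtension.push (E : AbelianExtension R 𝔪) (C : RayClassField R 𝔪) {v : K →+* ℂ}
    (hR : R = RR v) (h0 : 𝔪 ≠ ⊥) (h1 : 𝔪 ≠ ⊤) :
    ∃ F : (E.H ≃ₐ[K] E.H) → ℂ → ℂ, (∀ g, IsPartialZetaOf 𝔪 E.art g (F g)) ∧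
      ∃ f : GK K → ℝ, (∀ σ : GK K, -deriv (F (AlgEquiv.restrictNormalHom E.H σ)) 0 = f σ) ∧
      ∃ (J : Type) (_ : Fintype J) (ρ : J → GK K), ∀ σ, f σ = ∑ j, C.toRCG.ff (σ * ρ j) := by
  classical
  subst hR
  obtain ⟨r, hr1, hr2⟩ := E.exists_map C h0
  have := Fintype.ofFinite (C.H ≃ₐ[K] C.H)
  have hal : ArtLike (RR v) 𝔪 C.art := C.toRCG.artLike
  obtain ⟨F', hF', -, -⟩ := exists_fam (G := C.H ≃ₐ[K] C.H) h0 h1 hal
  have hd : ∀ g, DifferentiableAt ℂ (F' g) 0 := fun g =>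
    (hF' g).1.differentiableAt (isOpen_compl_singleton.mem_nhds (by simp))
  set F : (E.H ≃ₐ[K] E.H) → ℂ → ℂ := fun g s =>
    ∑ g' ∈ Finset.univ.filter (fun g' : C.H ≃ₐ[K] C.H => r g' = g), F' g' s with hF
  have hZF : ∀ g, ZF 𝔪 E.art g (F g) := fun g =>
    zf_push (a' := C.art) (a := E.art) (𝔣' := 𝔪) r hr2 hF' g
  have hder : ∀ g, deriv (F g) 0 =
      ∑ g' ∈ Finset.univ.filter (fun g' : C.H ≃ₐ[K] C.H => r g' = g), deriv (F' g') 0 :=
    fun g => deriv_fun_sum fun g' _ => hd g'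
  refine ⟨F, fun g => hZF g, fun σ => -(deriv (F (AlgEquiv.restrictNormalHom E.H σ)) 0).re,
    fun σ => ?_, r.ker, inferInstance, fun n => Function.surjInv C.res_surj n, fun σ => ?_⟩
  · rw [Complex.ofReal_neg, (hZF _).real]
  · beta_reduce
    rw [hder, Complex.re_sum, ← Finset.sum_neg_distrib]
    have h3 : ∀ n : r.ker, C.toRCG.ff (σ * Function.surjInv C.res_surj n) =
        -(deriv (F' (C.res σ * (n : C.H ≃ₐ[K] C.H))) 0).re := by
      intro n
      have h5 : C.res (σ * Function.surjInv C.res_surj n) =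
          C.res σ * (n : C.H ≃ₐ[K] C.H) := by
        rw [map_mul, Function.surjInv_eq C.res_surj]
      have h4 : C.toRCG.res (σ * Function.surjInv C.res_surj n) =
          C.res σ * (n : C.H ≃ₐ[K] C.H) := h5
      rw [C.toRCG.ff_eq (F := F' (C.res σ * (n : C.H ≃ₐ[K] C.H))) (by rw [h4]; exact hF' _)]
    rw [Finset.sum_congr rfl fun n _ => h3 n]
    rw [← Finset.sum_subtype (Finset.univ.filter (fun g' => r g' = 1))
      (fun x => by simp [MonoidHom.mem_ker]) (fun n => -(deriv (F' (C.res σ * n)) 0).re)]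
    symm
    refine Finset.sum_bij (fun n _ => C.res σ * n) ?_ ?_ ?_ ?_
    · intro n hn
      rw [Finset.mem_filter] at hn ⊢
      exact ⟨Finset.mem_univ _, by rw [map_mul, hn.2, mul_one, hr1]⟩
    · intro n _ n' _ hnn
      exact mul_left_cancel hnn
    · intro g' hg'
      rw [Finset.mem_filter] at hg'
      refine ⟨(C.res σ)⁻¹ * g', ?_, by rw [mul_inv_cancel_left]⟩
      rw [Finset.mem_filter]
      refine ⟨Finset.mem_univ _, ?_⟩
      rw [map_mul, hg'.2, map_inv, hr1, inv_mul_cancel]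
    · intro n _
      rfl

end push

section

variable (hall : ∀ g : AlgebraicClosure K →+* ℂ, ¬ Above ι g →
      ∃ τ ∈ R, g.comp (algebraMap K (AlgebraicClosure K)) = Complex.ofRealHom.comp τ)
  (hRι : ∀ τ ∈ R, InfinitePlace.mk (Complex.ofRealHom.comp τ) ≠
      InfinitePlace.mk (ι.comp (algebraMap K (AlgebraicClosure K))))

include hall in
lemma onIdeals_to_LL {C : RayClassField R 𝔪} {Z : Ideal (𝓞 K) → ℂ} {f : GK K → ℝ}
    (hm : Match C Z f) (h : TateOnIdeals ι C Z) : LL ι (localDegree ι) f := by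
  obtain ⟨Z', hZ', h⟩ := h
  refine tateFor_to_LL (H := C.H) hall (fun σ => ?_) h
  obtain ⟨A, hA, hAσ⟩ := C.art_surjective (C.res σ)
  have h1 : Z' (C.res σ) = f σ := by
    rw [← hAσ, ← hZ' A hA, hm σ A hA hAσ]
  exact h1

include hRι in
lemma LL_to_onIdeals {C : RayClassField R 𝔪} {Z : Ideal (𝓞 K) → ℂ} {f : GK K → ℝ}
    (hm : Match C Z f) (hf : ∀ σ τ, C.res σ = C.res τ → f σ = f τ)
    (h : LL ι (localDegree ι) f) : TateOnIdeals ι C Z := by
  refine ⟨fun g => f (Function.surjInv C.res_surj g), fun A hA => ?_, ?_⟩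
  · exact hm _ A hA (Function.surjInv_eq C.res_surj _).symm
  · refine LL_to_tateFor (H := C.H) hRι (fun σ => ?_) h
    have h1 : f (Function.surjInv C.res_surj (C.res σ)) = f σ :=
      hf _ _ (Function.surjInv_eq C.res_surj _)
    exact_mod_cast h1

end

/-- the ray class field as an abelian extension -/
def RayClassField.toExt (C : RayClassField R 𝔪) : AbelianExtension R 𝔪 where
  H := C.H
  art := C.art
  isAbelianExtension :=
    { finite := C.finite
      abelian := C.abelian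
      artin :=
        { mul := C.art_mul
          ray := C.toRCG.artLike.ray
          frobenius := C.isRayClassField.artin.frobenius } }

theorem tate_form {ι : AlgebraicClosure K →+* ℂ}
    (hR : R = RR (ι.comp (algebraMap K (AlgebraicClosure K)))) (hne : R.Nonempty)
    (hall : ∀ g : AlgebraicClosure K →+* ℂ, ¬ Above ι g →
      ∃ τ ∈ R, g.comp (algebraMap K (AlgebraicClosure K)) = Complex.ofRealHom.comp τ)
    (C : ∀ 𝔣 : Ideal (𝓞 K), RayClassField R 𝔣) (n k : ℕ) (𝔪 𝔟 : Ideal (𝓞 K)) (h𝔪 : 𝔪 ≠ ⊥)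
    (h𝔟 : 𝔟 ≠ ⊥) (h2 : ∀ 𝔭 : Ideal (𝓞 K), 𝔭.IsPrime → (2 : 𝓞 K) ∈ 𝔭 → 𝔪 ≤ 𝔭) :
    (HoldsDeep R (fun 𝔣 => TateOnIdeals ι (C 𝔣)) n k 𝔪 𝔟 →
      ∀ E : AbelianExtension R 𝔪, E.Tate ι) ∧
    ((∀ 𝔣 : Ideal (𝓞 K), 𝔣 ≠ ⊥ → 𝔣 ≤ 𝔪 → ∀ E : AbelianExtension R 𝔣, E.Tate ι) →
      HoldsDeep R (fun 𝔣 => TateOnIdeals ι (C 𝔣)) n k 𝔪 𝔟) := by
  have h2' : E2 𝔪 := h2
  constructor
  · intro h E
    rw [holdsDeep_iff] at h
    obtain ⟨F, hF, hP⟩ := general_descent hR hne C n k 𝔪 𝔟 h𝔪 h𝔟 h2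
      (P := fun 𝔣 => TateOnIdeals ι (C 𝔣)) (LL.ti ι (localDegree ι))
      (fun _ _ _ hm hP => onIdeals_to_LL hall hm hP)
      (fun _ _ _ hm hf hL => LL_to_onIdeals (mk_ne_of_RR hR) hm hf hL) h
    have hLL : LL ι (localDegree ι) (C 𝔪).toRCG.ff :=
      onIdeals_to_LL hall (match_zeta (C 𝔪) hF) hP
    obtain ⟨FE, hFE, f, hf, J, hJ, ρ, hfρ⟩ := E.push (C 𝔪) hR h𝔪 h2'.ne_top
    refine ⟨FE, hFE, LL_to_tateFor (H := E.H) (mk_ne_of_RR hR) hf ?_⟩
    have h3 : LL ι (localDegree ι) (fun σ => ∑ j, (C 𝔪).toRCG.ff (σ * ρ j)) :=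
      (LL.ti ι (localDegree ι)).sum Finset.univ fun j _ => (LL.ti ι (localDegree ι)).tr (ρ j) hLL
    rw [funext hfρ]
    exact h3
  · intro h
    rw [holdsDeep_iff]
    refine general_converse C n k 𝔪 𝔟 h𝔪 h2 (P := fun 𝔣 => TateOnIdeals ι (C 𝔣))
      (LL.ti ι (localDegree ι)) (fun _ _ _ hm hP => onIdeals_to_LL hall hm hP)
      (fun _ _ _ hm hf hL => LL_to_onIdeals (mk_ne_of_RR hR) hm hf hL) fun 𝔣 h0 hle => ?_
    obtain ⟨F, hF, hT⟩ := h 𝔣 h0 hle (C 𝔣).toExt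
    refine ⟨fun A => F ((C 𝔣).art A), fun A hA => ?_, _, fun A _ => rfl, hT⟩
    rw [isPartialZeta_iff (C 𝔣) hA]
    exact hF _

end Pool.Agent.R363.SD
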