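import Pool.Agent.R363.SD.Equiv

/-!
# Embeddings of real quadratic fields and of fields with one complex place
-/

set_option autoImplicit false
set_option linter.unusedSectionVars false

open NumberField IntermediateField

namespace Pool.Agent.R363.SD

variable {K : Type} [Field K] [NumberField K]

lemma ofReal_comp_injective {τ τ' : K →+* ℝ}
    (h : Complex.ofRealHom.comp τ = Complex.ofRealHom.comp τ') : τ = τ' := by
  ext x
  have := congrArg (fun f => f x) h
  simpa using this

/-- the embeddings of a real quadratic field -/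
lemma quadratic_cases (hK : Module.finrank ℚ K = 2) {σ₁ σ₂ : K →+* ℝ} (hσ : σ₁ ≠ σ₂)
    (φ : K →+* ℂ) : φ = Complex.ofRealHom.comp σ₁ ∨ φ = Complex.ofRealHom.comp σ₂ := by
  classical
  have hcard : Fintype.card (K →+* ℂ) = 2 := by
    rw [NumberField.Embeddings.card, hK]
  have hne : Complex.ofRealHom.comp σ₁ ≠ Complex.ofRealHom.comp σ₂ :=
    fun h => hσ (ofReal_comp_injective h)
  by_contra h
  push Not at h
  have h3 : ({Complex.ofRealHom.comp σ₁, Complex.ofRealHom.comp σ₂, φ} :
      Finset (K →+* ℂ)).card ≤ 2 := by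
    rw [← hcard]
    exact Finset.card_le_univ _
  rw [Finset.card_insert_of_notMem, Finset.card_insert_of_notMem, Finset.card_singleton] at h3
  · norm_num at h3
  · rw [Finset.mem_singleton]
    exact fun h4 => h.2 h4.symm
  · rw [Finset.mem_insert, Finset.mem_singleton]
    rintro (h4 | h4)
    · exact hne h4
    · exact h.1 h4.symm

theorem quadratic_embeddings (hK : Module.finrank ℚ K = 2) {σ₁ σ₂ : K →+* ℝ} (hσ : σ₁ ≠ σ₂)
    {ι : AlgebraicClosure K →+* ℂ}
    (hι : ι.comp (algebraMap K (AlgebraicClosure K)) = Complex.ofRealHom.comp σ₁) :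
    (({σ₂} : Set (K →+* ℝ)) = RR (ι.comp (algebraMap K (AlgebraicClosure K)))) ∧
    (∀ g : AlgebraicClosure K →+* ℂ, ¬ Above ι g →
      ∃ τ ∈ ({σ₂} : Set (K →+* ℝ)),
        g.comp (algebraMap K (AlgebraicClosure K)) = Complex.ofRealHom.comp τ) := by
  constructor
  · ext τ
    rw [Set.mem_singleton_iff]
    change τ = σ₂ ↔ Complex.ofRealHom.comp τ ≠ ι.comp (algebraMap K (AlgebraicClosure K))
    rw [hι]
    constructor
    · rintro rfl h
      exact hσ (ofReal_comp_injective h).symm
    · intro h
      rcases quadratic_cases hK hσ (Complex.ofRealHom.comp τ) with h1 | h1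
      · exact absurd h1 h
      · exact ofReal_comp_injective h1
  · intro g hg
    refine ⟨σ₂, rfl, ?_⟩
    rcases quadratic_cases hK hσ (g.comp (algebraMap K (AlgebraicClosure K))) with h1 | h1
    · exfalso
      apply hg
      unfold Above
      rw [h1, hι]
    · exact h1

end Pool.Agent.R363.SD
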