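import Pool.Agent.R363.SD.Fam

/-!
# Relations between partial zeta functions of different moduli
-/

set_option autoImplicit false
set_option linter.unusedSectionVars false

open NumberField Complex Filter Topology

namespace Pool.Agent.R363.SD

variable {K : Type} [Field K] [NumberField K]

section rel

variable {G G' : Type} [CommGroup G] [CommGroup G'] {a : Ideal (𝓞 K) → G} {a' : Ideal (𝓞 K) → G'}
  {𝔣 𝔣' : Ideal (𝓞 K)}

lemma zf_hasSum_iff {g : G} {s A : ℂ} :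
    HasSum (fun I : {I : Ideal (𝓞 K) // Cop 𝔣 I ∧ a I = g} =>
      ((Ideal.absNorm I.1 : ℕ) : ℂ) ^ (-s)) A ↔
    HasSum (Set.indicator {I : Ideal (𝓞 K) | Cop 𝔣 I ∧ a I = g}
      (fun I => ((Ideal.absNorm I : ℕ) : ℂ) ^ (-s))) A := by
  rw [← hasSum_subtype_iff_indicator]
  rfl

/-- push-forward of classes -/
lemma zf_push [Fintype G'] [DecidableEq G] (r : G' → G)
    (hr : ∀ I, Cop 𝔣' I → r (a' I) = a I) {F' : G' → ℂ → ℂ} (hF' : ∀ g', ZF 𝔣' a' g' (F' g'))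
    (g : G) : ZF 𝔣' a g (fun s => ∑ g' ∈ Finset.univ.filter (fun g' => r g' = g), F' g' s) := by
  classical
  refine ⟨DifferentiableOn.fun_sum fun g' _ => (hF' g').1, fun s hs => ?_⟩
  rw [zf_hasSum_iff]
  have h1 : Set.indicator {I : Ideal (𝓞 K) | Cop 𝔣' I ∧ a I = g}
      (fun I => ((Ideal.absNorm I : ℕ) : ℂ) ^ (-s)) =
      fun I => ∑ g' ∈ Finset.univ.filter (fun g' => r g' = g),
        Set.indicator {I : Ideal (𝓞 K) | Cop 𝔣' I ∧ a' I = g'}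
          (fun I => ((Ideal.absNorm I : ℕ) : ℂ) ^ (-s)) I := by
    funext I
    by_cases hI : Cop 𝔣' I
    · by_cases hg : a I = g
      · rw [Set.indicator_of_mem (show I ∈ {I : Ideal (𝓞 K) | Cop 𝔣' I ∧ a I = g} from ⟨hI, hg⟩),
          Finset.sum_eq_single (a' I)]
        · rw [Set.indicator_of_mem (show I ∈ {J : Ideal (𝓞 K) | Cop 𝔣' J ∧ a' J = a' I} from
            ⟨hI, rfl⟩)]
        · intro g' _ hne
          rw [Set.indicator_of_notMem]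
          exact fun h => hne h.2.symm
        · intro h
          exfalso
          apply h
          rw [Finset.mem_filter]
          exact ⟨Finset.mem_univ _, (hr I hI).trans hg⟩
      · rw [Set.indicator_of_notMem (fun h => hg h.2), Finset.sum_eq_zero]
        intro g' hg'
        rw [Set.indicator_of_notMem]
        intro h
        apply hg
        rw [← hr I hI, h.2]
        exact (Finset.mem_filter.1 hg').2
    · rw [Set.indicator_of_notMem (fun h => hI h.1), Finset.sum_eq_zero]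
      intro g' _
      rw [Set.indicator_of_notMem (fun h => hI h.1)]
  rw [h1]
  exact hasSum_sum fun g' _ => zf_hasSum_iff.1 ((hF' g').2 s hs)

lemma ZF.of_cop_iff {g : G} {F : ℂ → ℂ} (h : ZF 𝔣' a g F) (hc : ∀ I, Cop 𝔣 I ↔ Cop 𝔣' I) :
    ZF 𝔣 a g F := by
  refine ⟨h.1, fun s hs => ?_⟩
  have h1 := h.2 s hs
  rw [zf_hasSum_iff] at h1 ⊢
  simpa only [hc] using h1

lemma cop_mul_prime {𝔮 : Ideal (𝓞 K)} (hq : 𝔮.IsPrime) (hq0 : 𝔮 ≠ ⊥) (I : Ideal (𝓞 K)) :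
    Cop (𝔣 * 𝔮) I ↔ Cop 𝔣 I ∧ ¬ 𝔮 ∣ I := by
  unfold Cop
  rw [IsCoprime.mul_right_iff, and_assoc]
  refine and_congr_right fun _ => and_congr_right fun _ => ?_
  have hmax : 𝔮.IsMaximal := hq.isMaximal hq0
  rw [Ideal.isCoprime_iff_sup_eq, Ideal.dvd_iff_le]
  constructor
  · intro h hle
    rw [sup_eq_right.2 hle] at h
    exact hq.ne_top h
  · intro h
    by_contra h2
    apply h
    have h3 : 𝔮 = I ⊔ 𝔮 := hmax.eq_of_le h2 le_sup_right
    rw [h3]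
    exact le_sup_left

/-- removing an Euler factor -/
lemma zf_remove {𝔮 : Ideal (𝓞 K)} (hq : 𝔮.IsPrime) (hq0 : 𝔮 ≠ ⊥) (hqf : Cop 𝔣 𝔮)
    (hmul : ∀ J, Cop 𝔣 J → a (𝔮 * J) = a 𝔮 * a J)
    {g : G} {F F₂ : ℂ → ℂ} (hF : ZF 𝔣 a g F) (hF₂ : ZF 𝔣 a ((a 𝔮)⁻¹ * g) F₂) :
    ZF (𝔣 * 𝔮) a g (fun s => F s - ((Ideal.absNorm 𝔮 : ℕ) : ℂ) ^ (-s) * F₂ s) := by
  classical
  have hN : ((Ideal.absNorm 𝔮 : ℕ) : ℂ) ≠ 0 := by
    rw [Nat.cast_ne_zero, Ne, Ideal.absNorm_eq_zero_iff]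
    exact hq0
  refine ⟨hF.1.sub (DifferentiableOn.mul ?_ hF₂.1), fun s hs => ?_⟩
  · intro s _
    have : DifferentiableAt ℂ (fun s : ℂ => ((Ideal.absNorm 𝔮 : ℕ) : ℂ) ^ (-s)) s :=
      (differentiableAt_id.neg).const_cpow (Or.inl hN)
    exact this.differentiableWithinAt
  rw [zf_hasSum_iff]
  set f : Ideal (𝓞 K) → ℂ := fun I => ((Ideal.absNorm I : ℕ) : ℂ) ^ (-s) with hf
  have h1 := zf_hasSum_iff.1 (hF.2 s hs)
  have h2 := (zf_hasSum_iff.1 (hF₂.2 s hs)).mul_left (((Ideal.absNorm 𝔮 : ℕ) : ℂ) ^ (-s))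
  have hinj : Function.Injective (fun J : Ideal (𝓞 K) => 𝔮 * J) := fun J J' h =>
    mul_left_cancel₀ hq0 h
  have h3 : HasSum (Set.indicator {I : Ideal (𝓞 K) | (Cop 𝔣 I ∧ a I = g) ∧ 𝔮 ∣ I} f)
      (((Ideal.absNorm 𝔮 : ℕ) : ℂ) ^ (-s) * F₂ s) := by
    rw [← hinj.hasSum_iff]
    · refine (congrArg (fun h => HasSum h (((Ideal.absNorm 𝔮 : ℕ) : ℂ) ^ (-s) * F₂ s))
        (funext fun J => ?_)).mpr h2
      simp only [Function.comp]
      have hcop : Cop 𝔣 (𝔮 * J) ↔ Cop 𝔣 J := by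
        rw [cop_mul]
        exact ⟨fun h => h.2, fun h => ⟨hqf, h⟩⟩
      by_cases hJ : Cop 𝔣 J ∧ a J = (a 𝔮)⁻¹ * g
      · rw [Set.indicator_of_mem (show J ∈ {J : Ideal (𝓞 K) | Cop 𝔣 J ∧ a J = (a 𝔮)⁻¹ * g} from hJ),
          Set.indicator_of_mem]
        · rw [hf]
          simp only
          rw [map_mul, Nat.cast_mul, Complex.natCast_mul_natCast_cpow]
        · refine ⟨⟨hcop.2 hJ.1, ?_⟩, dvd_mul_right _ _⟩
          rw [hmul J hJ.1, hJ.2, mul_inv_cancel_left]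
      · rw [Set.indicator_of_notMem (show J ∉ {J : Ideal (𝓞 K) | Cop 𝔣 J ∧ a J = (a 𝔮)⁻¹ * g} from
          hJ), mul_zero, Set.indicator_of_notMem]
        rintro ⟨⟨h4, h5⟩, -⟩
        have h6 := hcop.1 h4
        apply hJ
        refine ⟨h6, ?_⟩
        rw [hmul J h6] at h5
        rw [← h5, inv_mul_cancel_left]
    · intro I hI
      refine Set.indicator_of_notMem ?_ _
      rintro ⟨-, J, hJ⟩
      exact hI ⟨J, hJ.symm⟩
  refine (congrArg (fun h => HasSum h (F s - ((Ideal.absNorm 𝔮 : ℕ) : ℂ) ^ (-s) * F₂ s))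
    (funext fun I => ?_)).mpr (h1.sub h3)
  by_cases hA : Cop 𝔣 I ∧ a I = g
  · by_cases hd : 𝔮 ∣ I
    · rw [Set.indicator_of_notMem, Set.indicator_of_mem (show I ∈ {I : Ideal (𝓞 K) | Cop 𝔣 I ∧ a I = g} from hA),
        Set.indicator_of_mem (show I ∈ {I : Ideal (𝓞 K) | (Cop 𝔣 I ∧ a I = g) ∧ 𝔮 ∣ I} from ⟨hA, hd⟩),
        sub_self]
      rintro ⟨h5, -⟩
      exact ((cop_mul_prime hq hq0 I).1 h5).2 hd
    · rw [Set.indicator_of_mem, Set.indicator_of_mem (show I ∈ {I : Ideal (𝓞 K) | Cop 𝔣 I ∧ a I = g} from hA),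
        Set.indicator_of_notMem (fun h => hd h.2), sub_zero]
      exact ⟨(cop_mul_prime hq hq0 I).2 ⟨hA.1, hd⟩, hA.2⟩
  · rw [Set.indicator_of_notMem, Set.indicator_of_notMem
      (show I ∉ {I : Ideal (𝓞 K) | Cop 𝔣 I ∧ a I = g} from hA),
      Set.indicator_of_notMem (show I ∉ {I : Ideal (𝓞 K) | (Cop 𝔣 I ∧ a I = g) ∧ 𝔮 ∣ I} from
        fun h => hA h.1), sub_zero]
    rintro ⟨h5, h6⟩
    exact hA ⟨((cop_mul_prime hq hq0 I).1 h5).1, h6⟩

end rel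

end Pool.Agent.R363.SD
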