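import Pool.Agent.R363.SD.Log

/-!
# Descent of units to a subfield after raising them to the power of the number of roots of unity
-/

set_option autoImplicit false
set_option linter.unusedSectionVars false

open NumberField IntermediateField

namespace Pool.Agent.R363.SD

variable {K : Type} [Field K] [NumberField K]

/-- the maximal abelian extension -/
def Kab (K : Type) [Field K] : IntermediateField K (AlgebraicClosure K) where
  carrier := {x | ∀ σ τ : GK K, σ (τ x) = τ (σ x)}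
  mul_mem' := by
    intro x y hx hy σ τ
    rw [map_mul, map_mul, map_mul, map_mul, hx σ τ, hy σ τ]
  add_mem' := by
    intro x y hx hy σ τ
    rw [map_add, map_add, map_add, map_add, hx σ τ, hy σ τ]
  algebraMap_mem' := by
    intro x σ τ
    simp
  inv_mem' := by
    intro x hx σ τ
    rw [map_inv₀, map_inv₀, map_inv₀, map_inv₀, hx σ τ]

lemma mem_Kab {x : AlgebraicClosure K} : x ∈ Kab K ↔ ∀ σ τ : GK K, σ (τ x) = τ (σ x) := Iff.rfl

lemma finite_torsion (H : Type) [Field H] [NumberField H] : Finite (CommGroup.torsion Hˣ) := by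
  have h1 := NumberField.Embeddings.finite_of_norm_le H ℂ 1
  refine Set.Finite.subset (h1.preimage (f := fun x : Hˣ => (x : H)) (fun x _ y _ h =>
    Units.ext h)) ?_ |>.to_subtype
  intro x hx
  rw [SetLike.mem_coe, CommGroup.mem_torsion, isOfFinOrder_iff_pow_eq_one] at hx
  obtain ⟨n, hn, hxn⟩ := hx
  have hxn' : (x : H) ^ n = 1 := by
    have := congrArg (fun y : Hˣ => (y : H)) hxn
    simpa using this
  refine ⟨IsIntegral.of_pow hn (by rw [hxn']; exact isIntegral_one), fun φ => ?_⟩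
  have h2 : ‖φ x‖ ^ n = 1 := by rw [← norm_pow, ← map_pow, hxn', map_one, norm_one]
  exact ((pow_eq_one_iff_of_nonneg (norm_nonneg _) hn.ne').1 h2).le

lemma rootCount_pos (H : Type) [Field H] [NumberField H] : 0 < rootCount H := by
  have := finite_torsion H
  exact Nat.card_pos

lemma pow_rootCount {H : Type} [Field H] {x : H} {n : ℕ} (hn : 0 < n) (hx : x ^ n = 1) :
    x ^ rootCount H = 1 := by
  have hx0 : x ≠ 0 := by
    rintro rfl
    rw [zero_pow hn.ne'] at hx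
    exact zero_ne_one hx
  have h1 : (Units.mk0 x hx0) ^ n = 1 := Units.ext (by simpa using hx)
  have h2 : Units.mk0 x hx0 ∈ CommGroup.torsion Hˣ := by
    rw [CommGroup.mem_torsion, isOfFinOrder_iff_pow_eq_one]
    exact ⟨n, hn, h1⟩
  have h3 : (⟨Units.mk0 x hx0, h2⟩ : CommGroup.torsion Hˣ) ^ Nat.card (CommGroup.torsion Hˣ) = 1 :=
    pow_card_eq_one'
  have h4 : (Units.mk0 x hx0) ^ Nat.card (CommGroup.torsion Hˣ) = 1 := by
    have h5 := congrArg Subtype.val h3
    rwa [Subgroup.coe_pow] at h5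
  have h6 := congrArg Units.val h4
  rwa [Units.val_pow_eq_pow_val, Units.val_mk0, Units.val_one] at h6

lemma order_dvd_rootCount {H : Type} [Field H] {x : H} {n : ℕ} (hn : 0 < n)
    (hx : IsPrimitiveRoot x n) : n ∣ rootCount H := by
  have hx0 : x ≠ 0 := hx.ne_zero hn.ne'
  have h1 : (Units.mk0 x hx0) ^ n = 1 := Units.ext (by simpa using hx.pow_eq_one)
  have h2 : Units.mk0 x hx0 ∈ CommGroup.torsion Hˣ := by
    rw [CommGroup.mem_torsion, isOfFinOrder_iff_pow_eq_one]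
    exact ⟨n, hn, h1⟩
  have h3 := orderOf_dvd_natCard (⟨Units.mk0 x hx0, h2⟩ : CommGroup.torsion Hˣ)
  have h4 : orderOf (⟨Units.mk0 x hx0, h2⟩ : CommGroup.torsion Hˣ) = n := by
    rw [← Subgroup.orderOf_coe, ← orderOf_units]
    exact hx.eq_orderOf.symm
  rwa [h4] at h3

lemma numberField_of_finite (M : IntermediateField K (AlgebraicClosure K))
    [FiniteDimensional K M] : NumberField M := by
  have : FiniteDimensional ℚ M := FiniteDimensional.trans ℚ K M
  have h0 : CharZero M := charZero_of_injective_algebraMap (algebraMap K M).injective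
  exact ⟨⟩

variable {ι : AlgebraicClosure K →+* ℂ}

/-- back from good units: the general case -/
lemma LL.general {d : ℝ} (hd : d ≠ 0) {H : IntermediateField K (AlgebraicClosure K)}
    [FiniteDimensional K H] {f : GK K → ℝ} (hf : LL ι d f)
    (hH : ∀ σ τ : GK K, (∀ x ∈ H, τ x = x) → f (σ * τ) = f σ) :
    ∃ ε ∈ H, GoodUnit ι ε ∧ (∀ σ, d * Real.log ‖ι (σ ε)‖ = rootCount H * f σ) ∧
      ∀ y : AlgebraicClosure K, y ^ rootCount H = ε → ∀ σ τ : GK K, σ (τ y) = τ (σ y) := by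
  obtain ⟨u, hu, hfu⟩ := hf
  set M : IntermediateField K (AlgebraicClosure K) := K⟮u⟯ with hM
  have hMfin : FiniteDimensional K M := adjoin.finiteDimensional (Algebra.IsIntegral.isIntegral u)
  have hMle : M ≤ Kab K := by
    rw [hM, adjoin_simple_le_iff, mem_Kab]
    exact hu.comm
  have hMab : IsAbelianGalois K M := abelian_of_comm M fun x hx => mem_Kab.1 (hMle hx)
  have hMnf := numberField_of_finite M
  have hHnf := numberField_of_finite H
  set N := rootCount M with hN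
  have hN0 : 0 < N := rootCount_pos M
  have huM : u ∈ M := mem_adjoin_simple_self K u
  have hgalM : ∀ (σ : GK K) (x : AlgebraicClosure K), x ∈ M → σ x ∈ M := by
    intro σ x hx
    refine mem_of_fixed M fun τ hτ => ?_
    rw [← mem_Kab.1 (hMle hx) σ τ, hτ x hx]
  -- the cocycle
  have hcoc : ∀ τ : GK K, (∀ x ∈ H, τ x = x) → (τ u * u⁻¹) ^ N = 1 := by
    intro τ hτ
    have h1 : ∃ n : ℕ, 0 < n ∧ (τ u * u⁻¹) ^ n = 1 := by
      refine ((hu.gal τ).mul hu.inv).root_of_abs fun σ => ?_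
      have h2 := hH σ τ hτ
      rw [hfu, hfu] at h2
      have h3 := mul_left_cancel₀ hd h2
      have h4 : ‖ι (σ (τ u))‖ = ‖ι (σ u)‖ := by
        refine Real.log_injOn_pos ?_ ?_ h3
        · exact lt_of_le_of_ne (norm_nonneg _) (norm_ne_zero' (hu.gal τ).ne σ).symm
        · exact lt_of_le_of_ne (norm_nonneg _) (norm_ne_zero' hu.ne σ).symm
      rw [map_mul, map_mul, map_inv₀, map_inv₀, norm_mul, norm_inv, h4,
        mul_inv_cancel₀ (norm_ne_zero' hu.ne σ)]
    obtain ⟨n, hn, h1⟩ := h1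
    have h5 : τ u * u⁻¹ ∈ M := M.mul_mem (hgalM τ u huM) (M.inv_mem huM)
    have h6 : (⟨τ u * u⁻¹, h5⟩ : M) ^ n = 1 := Subtype.ext (by simpa using h1)
    have h7 := congrArg (fun y : M => (y : AlgebraicClosure K)) (pow_rootCount hn h6)
    simpa using h7
  -- the ideal
  set J : Ideal ℤ :=
    { carrier := {m : ℤ | ∃ ξ : AlgebraicClosure K, ξ ^ N = 1 ∧ ∀ σ : GK K, (∀ x ∈ H, σ x = x) →
        σ ξ = (σ u * u⁻¹) ^ m * ξ}
      add_mem' := by
        rintro m m' ⟨ξ, hξ, h⟩ ⟨ξ', hξ', h'⟩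
        refine ⟨ξ * ξ', by rw [mul_pow, hξ, hξ', one_mul], fun σ hσ => ?_⟩
        have h0 : σ u * u⁻¹ ≠ 0 := ((hu.gal σ).mul hu.inv).ne
        rw [map_mul, h σ hσ, h' σ hσ, zpow_add₀ h0]
        ring
      zero_mem' := ⟨1, one_pow _, fun σ _ => by simp⟩
      smul_mem' := by
        rintro c m ⟨ξ, hξ, h⟩
        refine ⟨ξ ^ c, by rw [← zpow_natCast, ← zpow_mul, mul_comm, zpow_mul, zpow_natCast, hξ,
          one_zpow], fun σ hσ => ?_⟩
        rw [map_zpow₀, h σ hσ, mul_zpow, ← zpow_mul, smul_eq_mul, mul_comm m c] } with hJ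
  obtain ⟨g, hmem⟩ : ∃ g : ℕ, ∀ m : ℤ, m ∈ J ↔ (g : ℤ) ∣ m := by
    obtain ⟨g, hg⟩ := (IsPrincipalIdealRing.principal J).principal
    refine ⟨g.natAbs, fun m => ?_⟩
    rw [hg, Int.natAbs_dvd]
    exact Ideal.mem_span_singleton
  have hNJ : (g : ℤ) ∣ (N : ℤ) := by
    rw [← hmem]
    refine ⟨1, one_pow _, fun σ hσ => ?_⟩
    rw [map_one, mul_one, zpow_natCast, hcoc σ hσ]
  have hNn : NeZero N := ⟨hN0.ne'⟩
  have hNz : NeZero ((N : ℕ) : AlgebraicClosure K) := ⟨by exact_mod_cast hN0.ne'⟩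
  obtain ⟨ζ, hζ⟩ := HasEnoughRootsOfUnity.exists_primitiveRoot (AlgebraicClosure K) N
  have hκ : ∀ τ : GK K, (∀ x ∈ H, τ x = x) → ∀ k : ℕ, τ ζ = ζ ^ k →
      (g : ℤ) ∣ (k : ℤ) - 1 := by
    intro τ hτ k hk
    rw [← hmem]
    refine ⟨τ u * u⁻¹, hcoc τ hτ, fun σ hσ => ?_⟩
    -- powers
    obtain ⟨i, -, hi⟩ := hζ.eq_pow_of_pow_eq_one (hcoc σ hσ)
    have h1 : τ (σ u * u⁻¹) = (σ u * u⁻¹) ^ k := by
      rw [← hi, map_pow, hk, ← pow_mul, ← pow_mul, mul_comm]
    have h0 : σ u * u⁻¹ ≠ 0 := ((hu.gal σ).mul hu.inv).ne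
    have hu0 := hu.ne
    have hσu : σ u ≠ 0 := (hu.gal σ).ne
    have hτu : τ u ≠ 0 := (hu.gal τ).ne
    have h2 : σ (τ u) = (σ u * u⁻¹) ^ k * τ u := by
      rw [hu.comm σ τ, ← h1, map_mul, map_inv₀, inv_mul_cancel_right₀ hτu]
    rw [map_mul, map_inv₀, h2, zpow_sub₀ h0, zpow_natCast, zpow_one]
    field_simp
  have hgN : g ∣ N := by exact_mod_cast hNJ
  have hg0 : g ≠ 0 := by
    rintro rfl
    rw [zero_dvd_iff] at hgN
    exact hN0.ne' hgN
  obtain ⟨q, hq⟩ := hgN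
  have hη : IsPrimitiveRoot (ζ ^ q) g := by
    refine hζ.pow hN0 ?_
    rw [hq, mul_comm]
  have hηH : ζ ^ q ∈ H := by
    refine mem_of_fixed H fun τ hτ => ?_
    obtain ⟨k, hk⟩ := exists_pow_of_root hN0 hζ.pow_eq_one τ
    have h1 := hκ τ hτ k hk
    rw [map_pow, hk, ← pow_mul]
    have h2 : (g * q : ℤ) ∣ ((k * q : ℕ) : ℤ) - (q : ℕ) := by
      obtain ⟨t, ht⟩ := h1
      refine ⟨t, ?_⟩
      push_cast
      have : (k : ℤ) = g * t + 1 := by
        rw [← ht]; ring
      rw [this]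
      ring
    have h3 : (ζ ^ ((k * q : ℕ) : ℤ) : AlgebraicClosure K) = ζ ^ ((q : ℕ) : ℤ) := by
      rw [← sub_add_cancel ((k * q : ℕ) : ℤ) (q : ℕ), zpow_add₀ (hζ.ne_zero hN0.ne')]
      have h4 : ζ ^ (((k * q : ℕ) : ℤ) - (q : ℕ)) = 1 := by
        rw [hζ.zpow_eq_one_iff_dvd]
        rw [hq]
        push_cast at h2 ⊢
        exact h2
      rw [h4, one_mul]
    rw [zpow_natCast, zpow_natCast] at h3
    exact h3
  have hdvd : g ∣ rootCount H := by
    refine order_dvd_rootCount (x := ⟨ζ ^ q, hηH⟩) (Nat.pos_of_ne_zero hg0) ?_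
    exact IsPrimitiveRoot.of_map_of_injective (f := algebraMap H (AlgebraicClosure K)) hη
      (algebraMap H (AlgebraicClosure K)).injective
  have heJ : ((rootCount H : ℕ) : ℤ) ∈ J := by
    rw [hmem]
    exact_mod_cast hdvd
  obtain ⟨ξ, hξ, hξ2⟩ := heJ
  have hξg : GoodUnit ι ξ := GoodUnit.root hN0 hξ
  have hupow : ∀ n : ℕ, GoodUnit ι (u ^ n) := by
    intro n
    induction n with
    | zero => rw [pow_zero]; exact GoodUnit.one
    | succ n ih => rw [pow_succ]; exact ih.mul hu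
  refine ⟨u ^ rootCount H * ξ⁻¹, ?_, (hupow _).mul hξg.inv, fun σ => ?_, fun y hy => ?_⟩
  · refine mem_of_fixed H fun σ hσ => ?_
    have hu0 := hu.ne
    have hξ0 := hξg.ne
    have hσu : σ u ≠ 0 := (hu.gal σ).ne
    rw [map_mul, map_inv₀, map_pow, hξ2 σ hσ, zpow_natCast]
    field_simp
    rw [div_pow]
    field_simp
  · have h1 : ‖ι (σ ξ)‖ = 1 := by
      have h2 : ‖ι (σ ξ)‖ ^ N = 1 := by
        rw [← norm_pow, ← map_pow, ← map_pow, hξ, map_one, map_one, norm_one]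
      exact (pow_eq_one_iff_of_nonneg (norm_nonneg _) hN0.ne').1 h2
    rw [map_mul, map_mul, map_inv₀, map_inv₀, norm_mul, norm_inv, h1, inv_one, mul_one, map_pow,
      map_pow, norm_pow, Real.log_pow, hfu σ]
    ring
  · have he := rootCount_pos H
    have h1 : (y * u⁻¹) ^ (rootCount H * N) = 1 := by
      have hu0 := hu.ne
      have h2 : (y * u⁻¹) ^ rootCount H = ξ⁻¹ := by
        rw [mul_pow, hy, mul_right_comm, ← mul_pow, mul_inv_cancel₀ hu0, one_pow, one_mul]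
      rw [pow_mul, h2, inv_pow, hξ, inv_one]
    have h3 := (GoodUnit.root (ι := ι) (Nat.mul_pos he hN0) h1).mul hu
    rw [inv_mul_cancel_right₀ hu.ne] at h3
    exact h3.comm

end Pool.Agent.R363.SD
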