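import Pool.Agent.R363.SD.Compat

/-!
# From Stark units to logarithms and back
-/

set_option autoImplicit false
set_option linter.unusedSectionVars false

open NumberField IntermediateField

namespace Pool.Agent.R363.SD

variable {K : Type} [Field K] [NumberField K] {R : Set (K →+* ℝ)} {𝔪 : Ideal (𝓞 K)}

section

variable (C : RayClassField R 𝔪)

lemma RayClassField.res_surj : Function.Surjective C.res :=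
  AlgEquiv.restrictNormalHom_surjective (AlgebraicClosure K)

open scoped IsMulCommutative in
/-- the Artin map as data on the absolute Galois group -/
noncomputable def RayClassField.toRCG : RCG (GK K) R 𝔪 where
  G := C.H ≃ₐ[K] C.H
  grp := inferInstance
  fin := inferInstance
  res := C.res
  res_surj := C.res_surj
  art := C.art
  art_mul := C.art_mul
  art_eq_iff := C.art_eq_iff
  art_surj := C.art_surjective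

lemma isPartialZeta_iff {A : Ideal (𝓞 K)} (hA : Cop 𝔪 A) {F : ℂ → ℂ} :
    IsPartialZeta R 𝔪 A F ↔ ZF 𝔪 C.toRCG.art (C.toRCG.art A) F := by
  have h1 : ∀ I : Ideal (𝓞 K), (Cop 𝔪 I ∧ SameClass R 𝔪 I A) ↔
      (Cop 𝔪 I ∧ C.toRCG.art I = C.toRCG.art A) := fun I =>
    and_congr_right fun hI => (C.art_eq_iff I A hI hA).symm
  refine and_congr Iff.rfl (forall_congr' fun s => imp_congr_right fun _ => ?_)
  exact (Equiv.subtypeEquivRight h1).hasSum_iff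
    (f := fun I : {I : Ideal (𝓞 K) // Cop 𝔪 I ∧ C.toRCG.art I = C.toRCG.art A} =>
      ((Ideal.absNorm I.1 : ℕ) : ℂ) ^ (-s))

end

/-- the tower of all ray class fields -/
noncomputable def towerOf (C : ∀ 𝔣 : Ideal (𝓞 K), RayClassField R 𝔣) : Tower (GK K) R where
  D 𝔣 _ := (C 𝔣).toRCG
  compat 𝔣 𝔣' _ h' hle σ I hI h := compat (C 𝔣) h' hle (C 𝔣') σ I hI h
  frob 𝔣 _ h hb ρ := exists_prime (C 𝔣) h hb ρ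

/-- `Z` and `f` are the same function, on the ideals and on the absolute Galois group -/
def Match (C : RayClassField R 𝔪) (Z : Ideal (𝓞 K) → ℂ) (f : GK K → ℝ) : Prop :=
  ∀ (σ : GK K) (A : Ideal (𝓞 K)), Cop 𝔪 A → C.art A = C.res σ → Z A = f σ

lemma Match.diff {C : RayClassField R 𝔪} {Z : Ideal (𝓞 K) → ℂ} {f : GK K → ℝ}
    (h : Match C Z f) {𝔠 : Ideal (𝓞 K)} (hc : Cop 𝔪 𝔠) {ρ : GK K} (hρ : C.art 𝔠 = C.res ρ) :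
    Match C (fun A => Z A - Z (A * 𝔠)) (fun σ => f σ - f (σ * ρ)) := by
  intro σ A hA hσ
  beta_reduce
  rw [h σ A hA hσ, h (σ * ρ) (A * 𝔠) (cop_mul.2 ⟨hA, hc⟩)
    (by rw [C.art_mul A 𝔠 hA hc, hσ, hρ, map_mul]), Complex.ofReal_sub]

lemma dk_of_differences {C : RayClassField R 𝔪} {𝔪₀ : Ideal (𝓞 K)}
    {P : (Ideal (𝓞 K) → ℂ) → Prop} {L : (GK K → ℝ) → Prop} {S : Set (GK K)}
    (hS : ∀ ρ ∈ S, ∃ γ : 𝓞 K, γ - 1 ∈ 𝔪₀ ∧ Cop 𝔪 (Ideal.span {γ}) ∧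
      C.art (Ideal.span {γ}) = C.res ρ)
    (hPL : ∀ Z f, Match C Z f → P Z → L f) (k : ℕ) :
    ∀ Z f, Match C Z f → Differences 𝔪₀ 𝔪 P k Z → Dk L S k f := by
  induction k with
  | zero => exact hPL
  | succ k ih =>
    intro Z f hZf h ρ hρ
    obtain ⟨γ, hγ, hc, h1⟩ := hS ρ hρ
    exact ih _ _ (hZf.diff hc h1) (h γ hγ hc)

/-- the derivatives of the partial zeta functions -/
lemma match_zeta (C : RayClassField R 𝔪) {F : Ideal (𝓞 K) → ℂ → ℂ}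
    (hF : ∀ A : Ideal (𝓞 K), Cop 𝔪 A → IsPartialZeta R 𝔪 A (F A)) :
    Match C (fun A => -deriv (F A) 0) C.toRCG.ff := by
  intro σ A hA hσ
  have h1 := (isPartialZeta_iff C hA).1 (hF A hA)
  have h2 : ZF 𝔪 C.toRCG.art (C.toRCG.res σ) (F A) := by
    have : C.toRCG.res σ = C.toRCG.art A := hσ.symm
    rw [this]
    exact h1
  rw [C.toRCG.ff_eq h2, Complex.ofReal_neg, h2.real]

/-- existence of the partial zeta functions -/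
lemma exists_partialZeta {v : K →+* ℂ} (hR : R = RR v) (h0 : 𝔪 ≠ ⊥) (h𝔪 : 𝔪 ≠ ⊤)
    (C : RayClassField R 𝔪) :
    ∃ F : Ideal (𝓞 K) → ℂ → ℂ, ∀ A : Ideal (𝓞 K), Cop 𝔪 A → IsPartialZeta R 𝔪 A (F A) := by
  subst hR
  obtain ⟨F, hF, -, -⟩ := exists_fam h0 h𝔪 C.toRCG.artLike
  exact ⟨fun A => F (C.toRCG.art A), fun A hA => (isPartialZeta_iff C hA).2 (hF _)⟩

/-- **The descent for a general property.** -/
theorem general_descent {v : K →+* ℂ} (hR : R = RR v) (hne : R.Nonempty)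
    (C : ∀ 𝔣 : Ideal (𝓞 K), RayClassField R 𝔣) (n k : ℕ) (𝔪 𝔟 : Ideal (𝓞 K)) (h𝔪 : 𝔪 ≠ ⊥)
    (h𝔟 : 𝔟 ≠ ⊥) (h2 : ∀ 𝔭 : Ideal (𝓞 K), 𝔭.IsPrime → (2 : 𝓞 K) ∈ 𝔭 → 𝔪 ≤ 𝔭)
    {P : Ideal (𝓞 K) → (Ideal (𝓞 K) → ℂ) → Prop} {L : (GK K → ℝ) → Prop} (hL : TI L)
    (hPL : ∀ 𝔣 Z f, Match (C 𝔣) Z f → P 𝔣 Z → L f)
    (hLP : ∀ 𝔣 Z f, Match (C 𝔣) Z f → (∀ σ τ, (C 𝔣).res σ = (C 𝔣).res τ → f σ = f τ) →
      L f → P 𝔣 Z)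
    (h : ∀ s : Finset (Ideal (𝓞 K)), s.card = n →
      (∀ 𝔮 ∈ s, 𝔮.IsPrime ∧ (Ideal.absNorm 𝔮).Prime ∧ IsCoprime 𝔮 𝔟 ∧
        ∃ γ : 𝓞 K, 𝔮 = Ideal.span {γ} ∧ γ - 1 ∈ 𝔪) →
      ∃ 𝔣 : Ideal (𝓞 K), 𝔣 ≠ ⊥ ∧ 𝔣 ≤ Ideal.span {(4 : 𝓞 K)} ^ (n + k) * 𝔪 * ∏ 𝔮 ∈ s, 𝔮 ∧
        (∀ 𝔭 : Ideal (𝓞 K), 𝔭.IsPrime → 𝔣 ≤ 𝔭 → 𝔪 * ∏ 𝔮 ∈ s, 𝔮 ≤ 𝔭) ∧
        ForZeta R 𝔪 𝔣 k (P 𝔣)) :
    ForZeta R 𝔪 𝔪 0 (P 𝔪) := by
  have h2' : E2 𝔪 := h2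
  obtain ⟨F, hF⟩ := exists_partialZeta hR h𝔪 h2'.ne_top (C 𝔪)
  refine ⟨F, hF, ?_⟩
  have hm := match_zeta (C 𝔪) hF
  refine hLP 𝔪 _ _ hm (fun σ τ hστ => (C 𝔪).toRCG.ff_of_res hστ) ?_
  subst hR
  refine (towerOf C).descent hne (fun 𝔣 h0 h1 hE => even_ker hne h0 _) hL n k 𝔪 𝔟 h𝔪 h𝔟 h2'
    fun s hs hs' => ?_
  obtain ⟨𝔣, h𝔣, hle, hpr, F', hF', hP'⟩ := h s hs (fun 𝔮 hq => by
    obtain ⟨⟨h3, -, h4, h5⟩, h6⟩ := hs' 𝔮 hq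
    exact ⟨h3, h4, h6, h5⟩)
  refine ⟨𝔣, h𝔣, hle, hpr, ?_⟩
  have hle2 : 𝔣 ≤ 𝔪 := hle.trans (Ideal.mul_le_left.trans Ideal.mul_le_right)
  refine dk_of_differences (fun ρ hρ => ?_) (hPL 𝔣) k _ _ (match_zeta (C 𝔣) hF') hP'
  obtain ⟨I, hI, hI'⟩ := (C 𝔣).art_surjective ((C 𝔣).res ρ)
  obtain ⟨γ, rfl, hγ⟩ := (towerOf C).gen_of_S h𝔪 h𝔣 hle2 hρ hI hI'
  exact ⟨γ, hγ, hI, hI'⟩

end Pool.Agent.R363.SD
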