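import Pool.Agent.R363.SD.Main
import Pool.Agent.R363.SD.Defs2

/-!
# Tate's form
-/

set_option autoImplicit false
set_option linter.unusedSectionVars false

open NumberField IntermediateField

namespace Pool.Agent.R363.SD

variable {K : Type} [Field K] [NumberField K] {R : Set (K →+* ℝ)} {𝔪 : Ideal (𝓞 K)}
  {ι : AlgebraicClosure K →+* ℂ}

/-- the embedding `ι` of the algebraic closure on a subfield -/
noncomputable def embOn (H : IntermediateField K (AlgebraicClosure K))
    (ι : AlgebraicClosure K →+* ℂ) : H →+* ℂ := ι.comp (algebraMap H (AlgebraicClosure K))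

/-- With `W` the number of roots of unity in `H`: there is a unit `u` of `H` such that
`log |g u| = W Z(g)` for the normalised absolute value of `ι` and all `g` in the Galois group, `u` has
absolute value `1` above `R`, and `H(u^(1/W))` is abelian over `K`. -/
def TateFor (R : Set (K →+* ℝ)) (ι : AlgebraicClosure K →+* ℂ)
    (H : IntermediateField K (AlgebraicClosure K)) (Z : (H ≃ₐ[K] H) → ℂ) : Prop :=
  HasTateUnitWith (AbelianRoot (rootCount H) H) R (embOn H ι) (localDegree ι) (rootCount H) Z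

lemma AbelianExtension.finite (E : AbelianExtension R 𝔪) : FiniteDimensional K E.H :=
  E.isAbelianExtension.finite

lemma AbelianExtension.abelian (E : AbelianExtension R 𝔪) : IsAbelianGalois K E.H :=
  E.isAbelianExtension.abelian

lemma AbelianExtension.artin (E : AbelianExtension R 𝔪) : IsArtinMapMod R 𝔪 E.art :=
  E.isAbelianExtension.artin

lemma localDegree_ne (ι : AlgebraicClosure K →+* ℂ) : ((localDegree ι : ℕ) : ℝ) ≠ 0 := by
  unfold localDegree
  exact Nat.cast_ne_zero.2 InfinitePlace.mult_ne_zero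

lemma abs_ext' {H : IntermediateField K (AlgebraicClosure K)} {u : (𝓞 H)ˣ}
    (hg : GoodUnit ι (uel u))
    (hRι : ∀ τ ∈ R, InfinitePlace.mk (Complex.ofRealHom.comp τ) ≠
      InfinitePlace.mk (ι.comp (algebraMap K (AlgebraicClosure K)))) :
    ∀ τ ∈ R, ∀ g : H →+* ℂ, g.comp (algebraMap K H) = Complex.ofRealHom.comp τ →
      ‖g ((u : 𝓞 H) : H)‖ = 1 := by
  intro τ hτ g hgτ
  obtain ⟨g', hg'⟩ := exists_lift_emb H g
  rw [← hg']
  refine hg.abs g' ?_
  unfold Above
  have h1 : g'.comp (algebraMap K (AlgebraicClosure K)) = Complex.ofRealHom.comp τ := by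
    rw [← hgτ]
    ext x
    exact hg' (algebraMap K H x)
  rw [h1]
  exact hRι τ hτ

lemma abs_res' {H : IntermediateField K (AlgebraicClosure K)} {u : (𝓞 H)ˣ}
    (h : ∀ τ ∈ R, ∀ g : H →+* ℂ, g.comp (algebraMap K H) = Complex.ofRealHom.comp τ →
      ‖g ((u : 𝓞 H) : H)‖ = 1)
    (hall : ∀ g : AlgebraicClosure K →+* ℂ, ¬ Above ι g →
      ∃ τ ∈ R, g.comp (algebraMap K (AlgebraicClosure K)) = Complex.ofRealHom.comp τ) :
    ∀ g : AlgebraicClosure K →+* ℂ, ¬ Above ι g → ‖g (uel u)‖ = 1 := by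
  intro g hg
  obtain ⟨τ, hτ, hgτ⟩ := hall g hg
  exact h τ hτ (g.comp (algebraMap H (AlgebraicClosure K))) (by
    rw [← hgτ]
    rfl)

lemma res_uel (H : IntermediateField K (AlgebraicClosure K)) [Normal K H] (u : (𝓞 H)ˣ)
    (σ : GK K) : embOn H ι (AlgEquiv.restrictNormalHom H σ ((u : 𝓞 H) : H)) = ι (σ (uel u)) :=
  congrArg ι (AlgEquiv.restrictNormalHom_apply H σ ((u : 𝓞 H) : H))

lemma tateFor_to_LL (hall : ∀ g : AlgebraicClosure K →+* ℂ, ¬ Above ι g →
      ∃ τ ∈ R, g.comp (algebraMap K (AlgebraicClosure K)) = Complex.ofRealHom.comp τ)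
    {H : IntermediateField K (AlgebraicClosure K)} [FiniteDimensional K H] [IsAbelianGalois K H]
    {Z : (H ≃ₐ[K] H) → ℂ} {f : GK K → ℝ}
    (hZ : ∀ σ : GK K, Z (AlgEquiv.restrictNormalHom H σ) = f σ) (h : TateFor R ι H Z) :
    LL ι (localDegree ι) f := by
  have hnf := numberField_of_finite H
  have he := rootCount_pos H
  obtain ⟨u, ⟨h1, h3⟩, h4⟩ := h
  obtain ⟨y, hy⟩ := IsAlgClosed.exists_pow_nat_eq (uel u) he
  have hgy : GoodUnit ι y := good_of_root u he hy (h4 y hy) (abs_res' h3 hall)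
  refine ⟨y, hgy, fun σ => ?_⟩
  have h7 := h1 (AlgEquiv.restrictNormalHom H σ)
  rw [res_uel, hZ σ, ← hy, map_pow, map_pow, norm_pow, Real.log_pow] at h7
  have h8 : (localDegree ι : ℝ) * ((rootCount H : ℝ) * Real.log ‖ι (σ y)‖) =
      (rootCount H : ℝ) * f σ := by exact_mod_cast h7
  have he' : (rootCount H : ℝ) ≠ 0 := by exact_mod_cast he.ne'
  apply mul_left_cancel₀ he'
  rw [← h8]
  ring

lemma LL_to_tateFor (hRι : ∀ τ ∈ R, InfinitePlace.mk (Complex.ofRealHom.comp τ) ≠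
      InfinitePlace.mk (ι.comp (algebraMap K (AlgebraicClosure K))))
    {H : IntermediateField K (AlgebraicClosure K)} [FiniteDimensional K H] [IsAbelianGalois K H]
    {Z : (H ≃ₐ[K] H) → ℂ} {f : GK K → ℝ}
    (hZ : ∀ σ : GK K, Z (AlgEquiv.restrictNormalHom H σ) = f σ)
    (h : LL ι (localDegree ι) f) : TateFor R ι H Z := by
  have hnf := numberField_of_finite H
  have he := rootCount_pos H
  obtain ⟨ε, hεH, hεg, hεv, hεr⟩ := LL.general (localDegree_ne ι) (H := H) h (fun σ τ hτ => by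
    have h1 : AlgEquiv.restrictNormalHom H τ = (1 : H ≃ₐ[K] H) := by
      ext x
      rw [AlgEquiv.one_apply]
      exact (AlgEquiv.restrictNormalHom_apply H τ x).trans (hτ x x.2)
    have h2 : ((f (σ * τ) : ℝ) : ℂ) = (f σ : ℝ) := by
      rw [← hZ, ← hZ, map_mul, h1, mul_one]
    exact_mod_cast h2)
  obtain ⟨u, hu⟩ := exists_unit hεH hεg
  have hu' : uel u = ε := hu
  refine ⟨u, ⟨fun g => ?_, abs_ext' (by rw [hu']; exact hεg) hRι⟩, fun y hy => ?_⟩
  · obtain ⟨σ, rfl⟩ := AlgEquiv.restrictNormalHom_surjective (K₁ := H) (AlgebraicClosure K) g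
    rw [res_uel, hZ σ, hu', hεv σ]
    push_cast
    rfl
  · apply abelian_adjoin
    have hy' : y ^ rootCount H = ε := by
      rw [← hu']
      exact hy
    exact hεr y hy'

/-- the Frobenius property determines the Artin symbols of the kernels -/
lemma art_eq_of_frob' {𝔣 : Ideal (𝓞 K)} {H : IntermediateField K (AlgebraicClosure K)}
    [Normal K H] {art : Ideal (𝓞 K) → (H ≃ₐ[K] H)}
    (hart : ∀ P : Ideal (𝓞 K), P.IsPrime → Cop 𝔣 P → IsFrobenius P (art P))
    {L : IntermediateField K (AlgebraicClosure K)} [Normal K L] (hL : H ≤ L)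
    {σ : GK K} {D : ℕ} (hD : ∀ (p : ℕ), ¬ p ∣ D →
      ∀ (F : Type) [Field F] [CharP F p] (f : 𝓞 H →+* F) (a b : H ≃ₐ[K] H),
        (∀ x : 𝓞 H, f (a • x) = f (b • x)) → a = b)
    {p : ℕ} [Fact p.Prime] (hpD : ¬ p ∣ D) (f : 𝓞 L →+* AlgebraicClosure (ZMod p))
    (hf : ∀ x : 𝓞 L, f (AlgEquiv.restrictNormalHom L σ • x) = f x ^ p)
    (hP : Cop 𝔣 (RingHom.ker (f.comp (algebraMap (𝓞 K) (𝓞 L)))))
    (hN : Ideal.absNorm (RingHom.ker (f.comp (algebraMap (𝓞 K) (𝓞 L)))) = p) :
    art (RingHom.ker (f.comp (algebraMap (𝓞 K) (𝓞 L)))) = AlgEquiv.restrictNormalHom H σ := by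
  have hchar : CharP (AlgebraicClosure (ZMod p)) p := inferInstance
  refine hD p hpD (AlgebraicClosure (ZMod p)) (f.comp (incl hL)) _ _ fun x => ?_
  set P := RingHom.ker (f.comp (algebraMap (𝓞 K) (𝓞 L))) with hPdef
  have hPp : P.IsPrime := RingHom.ker_isPrime _
  set Q := RingHom.ker (f.comp (incl hL)) with hQdef
  have hQp : Q.IsPrime := RingHom.ker_isPrime _
  have hunder : Q.comap (algebraMap (𝓞 K) (𝓞 H)) = P := by
    ext y
    rw [Ideal.mem_comap, hQdef, hPdef, RingHom.mem_ker, RingHom.mem_ker]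
    have h1 : incl hL (algebraMap (𝓞 K) (𝓞 H) y) = algebraMap (𝓞 K) (𝓞 L) y := by
      apply RingOfIntegers.coe_injective
      apply Subtype.val_injective
      rw [incl_coe]
      rfl
    rw [RingHom.comp_apply, RingHom.comp_apply, h1]
  have h2 : art P • x - x ^ Ideal.absNorm P ∈ Q := hart P hPp hP Q hQp hunder x
  rw [hN, hQdef, RingHom.mem_ker, map_sub, sub_eq_zero, map_pow] at h2
  rw [h2]
  have h3 : incl hL (AlgEquiv.restrictNormalHom H σ • x) =
      AlgEquiv.restrictNormalHom L σ • incl hL x := by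
    apply RingOfIntegers.coe_injective
    apply Subtype.val_injective
    rw [incl_coe]
    have e1 : (((AlgEquiv.restrictNormalHom H σ • x : 𝓞 H) : H) : AlgebraicClosure K) =
        σ ((x : H) : AlgebraicClosure K) :=
      AlgEquiv.restrictNormalHom_apply H σ (x : H)
    have e2 : (((AlgEquiv.restrictNormalHom L σ • incl hL x : 𝓞 L) : L) : AlgebraicClosure K) =
        σ (((incl hL x : 𝓞 L) : L) : AlgebraicClosure K) :=
      AlgEquiv.restrictNormalHom_apply L σ _
    rw [e1, e2, incl_coe]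
  rw [RingHom.comp_apply, RingHom.comp_apply, h3, hf]

lemma IsArtinMapMod.same {H : Type} [Field H] [Algebra K H] [IsAbelianGalois K H]
    {art : Ideal (𝓞 K) → (H ≃ₐ[K] H)} (h : IsArtinMapMod R 𝔪 art) {I J : Ideal (𝓞 K)}
    (hI : Cop 𝔪 I) (hJ : Cop 𝔪 J) (hIJ : SameClass R 𝔪 I J) : art I = art J := by
  obtain ⟨x, y, hx, hy, hxy⟩ := hIJ
  have h1 := h.mul _ _ (cop_span hx.1 hx.2.1) hI
  have h2 := h.mul _ _ (cop_span hy.1 hy.2.1) hJ
  rw [hxy, h2, h.ray x hx, h.ray y hy, one_mul, one_mul] at h1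
  exact h1.symm

namespace AbelianExtension

variable (E : AbelianExtension R 𝔪)

instance : FiniteDimensional K E.H := E.finite
instance : IsAbelianGalois K E.H := E.abelian

/-- compatibility of the Artin maps -/
theorem compat (C : RayClassField R 𝔪) (h0 : 𝔪 ≠ ⊥) (σ : GK K) (I : Ideal (𝓞 K))
    (hI : Cop 𝔪 I) (h : C.art I = C.res σ) : E.art I = AlgEquiv.restrictNormalHom E.H σ := by
  set L := C.H ⊔ E.H with hL
  have hLfin : FiniteDimensional K L := inferInstance
  have hLn : Normal K L := inferInstance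
  have hnf := numberField_of_finite C.H
  have hnf' := numberField_of_finite E.H
  have hnfL := numberField_of_finite L
  obtain ⟨D, hD0, hD⟩ := frob_sep (K := K) (H := C.H)
  obtain ⟨D', hD0', hD'⟩ := frob_sep (K := K) (H := E.H)
  have hN0 : 0 < Ideal.absNorm 𝔪 := by
    rw [Nat.pos_iff_ne_zero, Ne, Ideal.absNorm_eq_zero_iff]
    exact h0
  obtain ⟨p, hp, hpD, f, hf⟩ := exists_frob L σ (D * D' * Ideal.absNorm 𝔪)
    (Nat.mul_pos (Nat.mul_pos hD0 hD0') hN0)
  have hpD1 : ¬ p ∣ D := fun h => hpD ((h.mul_right _).mul_right _)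
  have hpD2 : ¬ p ∣ D' := fun h => hpD ((h.mul_left _).mul_right _)
  have hpD3 : ¬ p ∣ Ideal.absNorm 𝔪 := fun h => hpD (h.mul_left _)
  obtain ⟨hPp, hPm, hNP, hpP⟩ := ker_props hf
  set P := RingHom.ker (f.comp (algebraMap (𝓞 K) (𝓞 L))) with hP
  have hcop : Cop 𝔪 P := ⟨hPm, coprime_of_norm hPp hPm hpP hpD3⟩
  have h1 := art_eq_of_frob C (L := L) le_sup_left hD hpD1 f hf hcop hNP
  have h2 := art_eq_of_frob' E.artin.frobenius (L := L) le_sup_right hD' hpD2 f hf hcop hNP
  rw [← h1, C.art_eq_iff I P hI hcop] at h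
  rw [E.artin.same hI hcop h]
  exact h2

end AbelianExtension

end Pool.Agent.R363.SD
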