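import Pool.Agent.R363.SD.Stark

/-!
# Stark units and good units
-/

set_option autoImplicit false
set_option linter.unusedSectionVars false

open NumberField IntermediateField

namespace Pool.Agent.R363.SD

variable {K : Type} [Field K] [NumberField K] {R : Set (K →+* ℝ)} {𝔪 : Ideal (𝓞 K)}
  {ι : AlgebraicClosure K →+* ℂ}

/-- good units of `H` are units of the ring of integers -/
lemma exists_unit {H : IntermediateField K (AlgebraicClosure K)} {ε : AlgebraicClosure K}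
    (h : ε ∈ H) (hg : GoodUnit ι ε) :
    ∃ u : (𝓞 H)ˣ, (((u : 𝓞 H) : H) : AlgebraicClosure K) = ε := by
  have h1 : IsIntegral ℤ (⟨ε, h⟩ : H) := by
    rw [← isIntegral_algebraMap_iff (algebraMap H (AlgebraicClosure K)).injective]
    exact hg.int
  have h2 : IsIntegral ℤ (⟨ε, h⟩ : H)⁻¹ := by
    rw [← isIntegral_algebraMap_iff (algebraMap H (AlgebraicClosure K)).injective, map_inv₀]
    exact hg.int_inv
  have h0 : (⟨ε, h⟩ : H) ≠ 0 := fun h3 => hg.ne (congrArg Subtype.val h3)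
  refine ⟨⟨⟨⟨ε, h⟩, h1⟩, ⟨(⟨ε, h⟩ : H)⁻¹, h2⟩, ?_, ?_⟩, rfl⟩
  · apply RingOfIntegers.coe_injective
    exact mul_inv_cancel₀ h0
  · apply RingOfIntegers.coe_injective
    exact inv_mul_cancel₀ h0

/-- the underlying element of a unit -/
noncomputable def uel {H : IntermediateField K (AlgebraicClosure K)} (u : (𝓞 H)ˣ) :
    AlgebraicClosure K := (((u : 𝓞 H) : H) : AlgebraicClosure K)

lemma uel_mem {H : IntermediateField K (AlgebraicClosure K)} (u : (𝓞 H)ˣ) : uel u ∈ H :=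
  ((u : 𝓞 H) : H).2

lemma uel_int {H : IntermediateField K (AlgebraicClosure K)} (u : (𝓞 H)ˣ) :
    IsIntegral ℤ (uel u) := by
  have h1 : IsIntegral ℤ ((u : 𝓞 H) : H) := RingOfIntegers.isIntegral_coe _
  exact (isIntegral_algebraMap_iff (algebraMap H (AlgebraicClosure K)).injective).2 h1

lemma uel_inv {H : IntermediateField K (AlgebraicClosure K)} (u : (𝓞 H)ˣ) :
    uel u⁻¹ = (uel u)⁻¹ := by
  refine eq_inv_of_mul_eq_one_left ?_
  have h1 : ((u⁻¹ : (𝓞 H)ˣ) : 𝓞 H) * (u : 𝓞 H) = 1 := Units.inv_mul u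
  exact congrArg (fun x : 𝓞 H => ((x : H) : AlgebraicClosure K)) h1

lemma uel_ne {H : IntermediateField K (AlgebraicClosure K)} (u : (𝓞 H)ˣ) : uel u ≠ 0 := by
  intro h
  have h1 := uel_inv u
  have h2 : (uel u⁻¹) * uel u = 1 := by
    have h1 : ((u⁻¹ : (𝓞 H)ˣ) : 𝓞 H) * (u : 𝓞 H) = 1 := Units.inv_mul u
    exact congrArg (fun x : 𝓞 H => ((x : H) : AlgebraicClosure K)) h1
  rw [h, mul_zero] at h2
  exact zero_ne_one h2

/-- a root of a unit with abelian root and absolute values one is a good unit -/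
lemma good_of_root {H : IntermediateField K (AlgebraicClosure K)} (u : (𝓞 H)ˣ) {n : ℕ}
    (hn : 0 < n) {y : AlgebraicClosure K} (hy : y ^ n = uel u)
    (hab : IsAbelianGalois K ↥(H ⊔ IntermediateField.adjoin K {y}))
    (habs : ∀ g : AlgebraicClosure K →+* ℂ, ¬ Above ι g → ‖g (uel u)‖ = 1) : GoodUnit ι y := by
  refine ⟨?_, IsIntegral.of_pow hn (by rw [hy]; exact uel_int u), IsIntegral.of_pow hn (by
    rw [inv_pow, hy, ← uel_inv]; exact uel_int u⁻¹), fun σ τ => ?_, fun g hg => ?_⟩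
  · rintro rfl
    rw [zero_pow hn.ne'] at hy
    exact uel_ne u hy.symm
  · refine comm_of_abelian (H ⊔ IntermediateField.adjoin K {y}) ?_ σ τ
    exact (le_sup_right : IntermediateField.adjoin K {y} ≤ _) (mem_adjoin_simple_self K y)
  · have h1 := habs g hg
    rw [← hy, map_pow, norm_pow] at h1
    exact (pow_eq_one_iff_of_nonneg (norm_nonneg _) hn.ne').1 h1

lemma abelian_adjoin {H : IntermediateField K (AlgebraicClosure K)} [IsAbelianGalois K H]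
    {y : AlgebraicClosure K} (hy : ∀ σ τ : GK K, σ (τ y) = τ (σ y)) :
    IsAbelianGalois K ↥(H ⊔ IntermediateField.adjoin K {y}) := by
  have h1 : H ⊔ IntermediateField.adjoin K {y} ≤ Kab K := by
    refine sup_le (fun x hx => mem_Kab.2 (comm_of_abelian H hx)) ?_
    rw [adjoin_simple_le_iff, mem_Kab]
    exact hy
  exact abelian_of_comm _ fun x hx => mem_Kab.1 (h1 hx)

/-- the conjugate of a unit under the Artin symbol -/
noncomputable def eps (C : RayClassField R 𝔪) (u : (𝓞 C.H)ˣ) (A : Ideal (𝓞 K)) : (𝓞 C.H)ˣ :=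
  Units.map (MulSemiringAction.toRingHom (C.H ≃ₐ[K] C.H) (𝓞 C.H) (C.art A) : 𝓞 C.H →* 𝓞 C.H) u

lemma eps_coe (C : RayClassField R 𝔪) (u : (𝓞 C.H)ˣ) (A : Ideal (𝓞 K)) :
    (eps C u A : 𝓞 C.H) = C.art A • (u : 𝓞 C.H) := rfl

lemma eps_mul (C : RayClassField R 𝔪) (u : (𝓞 C.H)ˣ) {A B : Ideal (𝓞 K)} (hA : Cop 𝔪 A)
    (hB : Cop 𝔪 B) : C.art B • (eps C u A : 𝓞 C.H) = eps C u (A * B) := by
  rw [eps_coe, eps_coe, smul_smul, C.art_mul A B hA hB]
  congr 1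
  exact IsMulCommutative.is_comm.comm _ _

lemma eps_uel (C : RayClassField R 𝔪) (u : (𝓞 C.H)ˣ) {A : Ideal (𝓞 K)} {σ : GK K}
    (h : C.art A = C.res σ) : uel (eps C u A) = σ (uel u) := by
  unfold uel
  rw [eps_coe, h]
  exact AlgEquiv.restrictNormalHom_apply C.H σ ((u : 𝓞 C.H) : C.H)

/-- extending embeddings -/
lemma abs_ext {C : RayClassField R 𝔪} {u : (𝓞 C.H)ˣ} (hg : GoodUnit ι (uel u))
    (hRι : ∀ τ ∈ R, InfinitePlace.mk (Complex.ofRealHom.comp τ) ≠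
      InfinitePlace.mk (ι.comp (algebraMap K (AlgebraicClosure K)))) :
    ∀ τ ∈ R, ∀ g : C.H →+* ℂ, g.comp (algebraMap K C.H) = Complex.ofRealHom.comp τ →
      ‖g ((u : 𝓞 C.H) : C.H)‖ = 1 := by
  intro τ hτ g hgτ
  obtain ⟨g', hg'⟩ := exists_lift_emb C.H g
  rw [← hg']
  refine hg.abs g' ?_
  unfold Above
  have h1 : g'.comp (algebraMap K (AlgebraicClosure K)) = Complex.ofRealHom.comp τ := by
    rw [← hgτ]
    ext x
    exact hg' (algebraMap K C.H x)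
  rw [h1]
  exact hRι τ hτ

lemma abs_res {C : RayClassField R 𝔪} {u : (𝓞 C.H)ˣ}
    (h : ∀ τ ∈ R, ∀ g : C.H →+* ℂ, g.comp (algebraMap K C.H) = Complex.ofRealHom.comp τ →
      ‖g ((u : 𝓞 C.H) : C.H)‖ = 1)
    (hall : ∀ g : AlgebraicClosure K →+* ℂ, ¬ Above ι g →
      ∃ τ ∈ R, g.comp (algebraMap K (AlgebraicClosure K)) = Complex.ofRealHom.comp τ) :
    ∀ g : AlgebraicClosure K →+* ℂ, ¬ Above ι g → ‖g (uel u)‖ = 1 := by
  intro g hg
  obtain ⟨τ, hτ, hgτ⟩ := hall g hg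
  exact h τ hτ (g.comp (algebraMap C.H (AlgebraicClosure K))) (by
    rw [← hgτ]
    rfl)

section real

variable (hall : ∀ g : AlgebraicClosure K →+* ℂ, ¬ Above ι g →
      ∃ τ ∈ R, g.comp (algebraMap K (AlgebraicClosure K)) = Complex.ofRealHom.comp τ)
  (hRι : ∀ τ ∈ R, InfinitePlace.mk (Complex.ofRealHom.comp τ) ≠
      InfinitePlace.mk (ι.comp (algebraMap K (AlgebraicClosure K))))

include hall in
lemma real_to_LL {C : RayClassField R 𝔪} {Z : Ideal (𝓞 K) → ℂ} {f : GK K → ℝ}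
    (hm : Match C Z f) (h : RealStarkUnits ι C Z) : LL ι 1 f := by
  obtain ⟨ε, hε⟩ := h
  obtain ⟨h1, h2, h3, h4⟩ := hε ⊤ (cop_top 𝔪)
  obtain ⟨y, hy⟩ := IsAlgClosed.exists_pow_nat_eq (uel (ε ⊤)) (n := 2) (by norm_num)
  have hgy : GoodUnit ι y := good_of_root (ε ⊤) (by norm_num) hy (h4 y hy) (abs_res h3 hall)
  refine ⟨y, hgy, fun σ => ?_⟩
  obtain ⟨A, hA, hAσ⟩ := C.art_surjective (C.res σ)
  have h5 : uel (ε A) = σ (uel (ε ⊤)) := by
    have h6 := h2 A hA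
    rw [Ideal.top_mul] at h6
    unfold uel
    rw [← h6, hAσ]
    exact AlgEquiv.restrictNormalHom_apply C.H σ ((ε ⊤ : 𝓞 C.H) : C.H)
  have h6 := (hε A hA).1
  have h7 : ι (uel (ε A)) = Complex.exp (2 * Z A) := h6
  rw [h5, ← hy, map_pow, map_pow, hm σ A hA hAσ] at h7
  have h8 : ‖ι (σ y)‖ ^ 2 = Real.exp (2 * f σ) := by
    rw [← norm_pow, h7, Complex.norm_exp]
    simp
  have h9 : ‖ι (σ y)‖ = Real.exp (f σ) := by
    have h10 : Real.exp (f σ) ^ 2 = Real.exp (2 * f σ) := by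
      rw [← Real.exp_nat_mul]
      norm_num
    rw [← h10] at h8
    exact (pow_left_inj₀ (norm_nonneg _) (Real.exp_pos _).le (by norm_num)).1 h8
  rw [h9, Real.log_exp, one_mul]

include hRι in
lemma LL_to_real {C : RayClassField R 𝔪} {Z : Ideal (𝓞 K) → ℂ} {f : GK K → ℝ}
    {τ₁ : K →+* ℝ} (hι : ι.comp (algebraMap K (AlgebraicClosure K)) = Complex.ofRealHom.comp τ₁)
    (hm : Match C Z f) (hf : ∀ σ τ, C.res σ = C.res τ → f σ = f τ) (h : LL ι 1 f) :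
    RealStarkUnits ι C Z := by
  obtain ⟨ε, hεH, hεg, hεv, hεr⟩ := LL.real hι (H := C.H) h (fun σ τ hτ => by
    apply hf
    rw [map_mul]
    have h1 : C.res τ = 1 := by
      ext x
      rw [AlgEquiv.one_apply]
      exact (AlgEquiv.restrictNormalHom_apply C.H τ x).trans (hτ x x.2)
    rw [h1, mul_one])
  obtain ⟨u, hu⟩ := exists_unit hεH hεg
  have hu' : uel u = ε := hu
  refine ⟨eps C u, fun A hA => ?_⟩
  obtain ⟨σ, hσ⟩ := C.res_surj (C.art A)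
  have h1 := eps_uel C u hσ.symm
  rw [hu'] at h1
  refine ⟨?_, fun B hB => eps_mul C u hA hB, ?_, fun y hy => ?_⟩
  · have h2 : ι (uel (eps C u A)) = Complex.exp (2 * Z A) := by
      rw [h1, hεv σ, hm σ A hA hσ.symm]
      push_cast
      rfl
    exact h2
  · exact abs_ext (by rw [h1]; exact hεg.gal σ) hRι
  · apply abelian_adjoin
    have h2 : y ^ 2 = σ ε := by
      rw [← h1]
      exact hy
    have h3 : (σ.symm y) ^ 2 = ε := by
      rw [← map_pow, h2, AlgEquiv.symm_apply_apply]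
    have h4 := hεr _ h3
    have h5 : σ.symm y ∈ Kab K := h4
    intro a b
    have h6 : y = σ (σ.symm y) := (AlgEquiv.apply_symm_apply σ y).symm
    have h7 : ∀ a b : GK K, a (b (σ (σ.symm y))) = b (a (σ (σ.symm y))) := by
      intro a b
      have e1 : a (b (σ (σ.symm y))) = σ ((a * b) (σ.symm y)) := h4 (a * b) σ
      have e2 : b (a (σ (σ.symm y))) = σ ((b * a) (σ.symm y)) := h4 (b * a) σ
      rw [e1, e2]
      congr 1
      exact h4 a b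
    rw [← h6] at h7
    exact h7 a b

include hall in
lemma plain_to_LP {C : RayClassField R 𝔪} {Z : Ideal (𝓞 K) → ℂ} {f : GK K → ℝ}
    (hm : Match C Z f) (h : PlainStarkUnits ι C Z) : LP ι f := by
  obtain ⟨ε, hε⟩ := h
  obtain ⟨h1, h2, h3⟩ := hε ⊤ (cop_top 𝔪)
  refine ⟨uel (ε ⊤), ⟨uel_ne _, uel_int _, by rw [← uel_inv]; exact uel_int _,
    comm_of_abelian C.H (uel_mem _), abs_res h3 hall⟩, fun σ => ?_⟩
  obtain ⟨A, hA, hAσ⟩ := C.art_surjective (C.res σ)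
  have h5 : uel (ε A) = σ (uel (ε ⊤)) := by
    have h6 := h2 A hA
    rw [Ideal.top_mul] at h6
    unfold uel
    rw [← h6, hAσ]
    exact AlgEquiv.restrictNormalHom_apply C.H σ ((ε ⊤ : 𝓞 C.H) : C.H)
  have h7 : ι (uel (ε A)) = Complex.exp (2 * Z A) := (hε A hA).1
  rw [h5, hm σ A hA hAσ] at h7
  rw [h7]
  push_cast
  rfl

include hRι in
lemma LP_to_plain {C : RayClassField R 𝔪} {Z : Ideal (𝓞 K) → ℂ} {f : GK K → ℝ}
    (hm : Match C Z f) (hf : ∀ σ τ, C.res σ = C.res τ → f σ = f τ) (h : LP ι f) :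
    PlainStarkUnits ι C Z := by
  obtain ⟨ε, hεg, hεv⟩ := h
  have hεH : ε ∈ C.H := by
    refine mem_of_fixed C.H fun τ hτ => ?_
    apply ι.injective
    have h1 : f τ = f 1 := by
      apply hf
      rw [map_one]
      ext x
      rw [AlgEquiv.one_apply]
      exact (AlgEquiv.restrictNormalHom_apply C.H τ x).trans (hτ x x.2)
    have h2 := hεv 1
    rw [AlgEquiv.one_apply] at h2
    rw [hεv τ, h2, h1]
  obtain ⟨u, hu⟩ := exists_unit hεH hεg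
  have hu' : uel u = ε := hu
  refine ⟨eps C u, fun A hA => ?_⟩
  obtain ⟨σ, hσ⟩ := C.res_surj (C.art A)
  have h1 := eps_uel C u hσ.symm
  rw [hu'] at h1
  refine ⟨?_, fun B hB => eps_mul C u hA hB, ?_⟩
  · have h2 : ι (uel (eps C u A)) = Complex.exp (2 * Z A) := by
      rw [h1, hεv σ, hm σ A hA hσ.symm]
      push_cast
      rfl
    exact h2
  · exact abs_ext (by rw [h1]; exact hεg.gal σ) hRι

include hall in
lemma complex_to_LL {C : RayClassField R 𝔪} {Z : Ideal (𝓞 K) → ℂ} {f : GK K → ℝ}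
    (hm : Match C Z f) (h : ComplexStarkUnit ι C Z) : LL ι 2 f := by
  have hnf := numberField_of_finite C.H
  have he := rootCount_pos C.H
  obtain ⟨u, h1, h3, h4⟩ := h
  obtain ⟨y, hy⟩ := IsAlgClosed.exists_pow_nat_eq (uel u) he
  have hgy : GoodUnit ι y := good_of_root u he hy (h4 y hy) (abs_res h3 hall)
  refine ⟨y, hgy, fun σ => ?_⟩
  obtain ⟨A, hA, hAσ⟩ := C.art_surjective (C.res σ)
  have h5 : uel (eps C u A) = σ (uel u) := eps_uel C u hAσ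
  have h7 : Z A = ((1 / (rootCount C.H : ℝ)) * Real.log (‖ι (uel (eps C u A))‖ ^ 2) : ℝ) := h1 A hA
  rw [hm σ A hA hAσ, h5, ← hy, map_pow, map_pow, norm_pow] at h7
  have h8 : f σ = 1 / (rootCount C.H : ℝ) *
      Real.log ((‖ι (σ y)‖ ^ rootCount C.H) ^ 2) := by exact_mod_cast h7
  have he' : (rootCount C.H : ℝ) ≠ 0 := by exact_mod_cast he.ne'
  rw [h8, Real.log_pow, Real.log_pow]
  field_simp
  push_cast
  ring

include hRι in
lemma LL_to_complex {C : RayClassField R 𝔪} {Z : Ideal (𝓞 K) → ℂ} {f : GK K → ℝ}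
    (hm : Match C Z f) (hf : ∀ σ τ, C.res σ = C.res τ → f σ = f τ) (h : LL ι 2 f) :
    ComplexStarkUnit ι C Z := by
  have hnf := numberField_of_finite C.H
  have he := rootCount_pos C.H
  obtain ⟨ε, hεH, hεg, hεv, hεr⟩ := LL.general (by norm_num) (H := C.H) h (fun σ τ hτ => by
    apply hf
    rw [map_mul]
    have h1 : C.res τ = 1 := by
      ext x
      rw [AlgEquiv.one_apply]
      exact (AlgEquiv.restrictNormalHom_apply C.H τ x).trans (hτ x x.2)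
    rw [h1, mul_one])
  obtain ⟨u, hu⟩ := exists_unit hεH hεg
  have hu' : uel u = ε := hu
  refine ⟨u, fun A hA => ?_, abs_ext (by rw [hu']; exact hεg) hRι, fun y hy => ?_⟩
  · obtain ⟨σ, hσ⟩ := C.res_surj (C.art A)
    have h1 := eps_uel C u hσ.symm
    rw [hu'] at h1
    have h2 : Z A = ((1 / (rootCount C.H : ℝ)) *
        Real.log (‖ι (uel (eps C u A))‖ ^ 2) : ℝ) := by
      have he' : (rootCount C.H : ℝ) ≠ 0 := by exact_mod_cast he.ne'
      rw [hm σ A hA hσ.symm, h1, Real.log_pow]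
      have h3 := hεv σ
      congr 1
      field_simp
      push_cast
      linarith
    exact h2
  · apply abelian_adjoin
    have hy' : y ^ rootCount C.H = ε := by
      rw [← hu']
      exact hy
    exact hεr y hy'

end real

/-! ### The three descents -/

lemma mk_ne_of_RR {v : K →+* ℂ} (hR : R = RR v) :
    ∀ τ ∈ R, InfinitePlace.mk (Complex.ofRealHom.comp τ) ≠ InfinitePlace.mk v := by
  intro τ hτ h
  rw [mk_ofReal_eq_iff] at h
  rw [hR] at hτ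
  exact hτ h

theorem real_descent (hR : R = RR (ι.comp (algebraMap K (AlgebraicClosure K)))) (hne : R.Nonempty)
    (hall : ∀ g : AlgebraicClosure K →+* ℂ, ¬ Above ι g →
      ∃ τ ∈ R, g.comp (algebraMap K (AlgebraicClosure K)) = Complex.ofRealHom.comp τ)
    {τ₁ : K →+* ℝ} (hι : ι.comp (algebraMap K (AlgebraicClosure K)) = Complex.ofRealHom.comp τ₁)
    (C : ∀ 𝔣 : Ideal (𝓞 K), RayClassField R 𝔣) (n k : ℕ) (𝔪 𝔟 : Ideal (𝓞 K)) (h𝔪 : 𝔪 ≠ ⊥)
    (h𝔟 : 𝔟 ≠ ⊥) (h2 : ∀ 𝔭 : Ideal (𝓞 K), 𝔭.IsPrime → (2 : 𝓞 K) ∈ 𝔭 → 𝔪 ≤ 𝔭)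
    (h : DeepHyp R n k 𝔪 𝔟 fun 𝔣 => RealStarkUnits ι (C 𝔣)) :
    ForZeta R 𝔪 𝔪 0 (RealStarkUnits ι (C 𝔪)) :=
  general_descent hR hne C n k 𝔪 𝔟 h𝔪 h𝔟 h2 (P := fun 𝔣 => RealStarkUnits ι (C 𝔣))
    (LL.ti ι 1) (fun _ _ _ hm hP => real_to_LL hall hm hP)
    (fun _ _ _ hm hf hL => LL_to_real (mk_ne_of_RR hR) hι hm hf hL) h

theorem plain_descent (hR : R = RR (ι.comp (algebraMap K (AlgebraicClosure K))))
    (hne : R.Nonempty)
    (hall : ∀ g : AlgebraicClosure K →+* ℂ, ¬ Above ι g →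
      ∃ τ ∈ R, g.comp (algebraMap K (AlgebraicClosure K)) = Complex.ofRealHom.comp τ)
    (C : ∀ 𝔣 : Ideal (𝓞 K), RayClassField R 𝔣) (n k : ℕ) (𝔪 𝔟 : Ideal (𝓞 K)) (h𝔪 : 𝔪 ≠ ⊥)
    (h𝔟 : 𝔟 ≠ ⊥) (h2 : ∀ 𝔭 : Ideal (𝓞 K), 𝔭.IsPrime → (2 : 𝓞 K) ∈ 𝔭 → 𝔪 ≤ 𝔭)
    (h : DeepHyp R n k 𝔪 𝔟 fun 𝔣 => PlainStarkUnits ι (C 𝔣)) :
    ForZeta R 𝔪 𝔪 0 (PlainStarkUnits ι (C 𝔪)) :=
  general_descent hR hne C n k 𝔪 𝔟 h𝔪 h𝔟 h2 (P := fun 𝔣 => PlainStarkUnits ι (C 𝔣))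
    (LP.ti ι) (fun _ _ _ hm hP => plain_to_LP hall hm hP)
    (fun _ _ _ hm hf hL => LP_to_plain (mk_ne_of_RR hR) hm hf hL) h

theorem complex_descent (hR : R = RR (ι.comp (algebraMap K (AlgebraicClosure K))))
    (hne : R.Nonempty)
    (hall : ∀ g : AlgebraicClosure K →+* ℂ, ¬ Above ι g →
      ∃ τ ∈ R, g.comp (algebraMap K (AlgebraicClosure K)) = Complex.ofRealHom.comp τ)
    (C : ∀ 𝔣 : Ideal (𝓞 K), RayClassField R 𝔣) (n k : ℕ) (𝔪 𝔟 : Ideal (𝓞 K)) (h𝔪 : 𝔪 ≠ ⊥)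
    (h𝔟 : 𝔟 ≠ ⊥) (h2 : ∀ 𝔭 : Ideal (𝓞 K), 𝔭.IsPrime → (2 : 𝓞 K) ∈ 𝔭 → 𝔪 ≤ 𝔭)
    (h : DeepHyp R n k 𝔪 𝔟 fun 𝔣 => ComplexStarkUnit ι (C 𝔣)) :
    ForZeta R 𝔪 𝔪 0 (ComplexStarkUnit ι (C 𝔪)) :=
  general_descent hR hne C n k 𝔪 𝔟 h𝔪 h𝔟 h2 (P := fun 𝔣 => ComplexStarkUnit ι (C 𝔣))
    (LL.ti ι 2) (fun _ _ _ hm hP => complex_to_LL hall hm hP)
    (fun _ _ _ hm hf hL => LL_to_complex (mk_ne_of_RR hR) hm hf hL) h

end Pool.Agent.R363.SD
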