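import Pool.Agent.R363.SD.Ana
import Pool.Agent.Y773.HK.Unf3

/-!
# Partial zeta functions of the classes of an Artin map
-/

set_option autoImplicit false
set_option linter.unusedSectionVars false

open NumberField Complex Filter Topology
open Pool.Agent.Y773 (LI)
open Pool.Agent.Y773.G (rl sg IsModChar ex)

namespace Pool.Agent.R363.SD

variable {K : Type} [Field K] [NumberField K]

/-- the real embeddings different from `v` -/
def RR (v : K →+* ℂ) : Set (K →+* ℝ) := {τ | Complex.ofRealHom.comp τ ≠ v}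

/-- `a` is multiplicative on the ideals coprime to `𝔪` and trivial on the ray. -/
structure ArtLike {G : Type} [CommGroup G] (R : Set (K →+* ℝ)) (𝔪 : Ideal (𝓞 K))
    (a : Ideal (𝓞 K) → G) : Prop where
  mul : ∀ I J, Cop 𝔪 I → Cop 𝔪 J → a (I * J) = a I * a J
  ray : ∀ x, Ray R 𝔪 x → a (Ideal.span {x}) = 1

lemma cop_iff {𝔪 I : Ideal (𝓞 K)} (h : 𝔪 ≠ ⊤) : Cop 𝔪 I ↔ IsCoprime I 𝔪 := by
  constructor
  · exact fun h => h.2
  · intro hI
    refine ⟨?_, hI⟩
    rintro rfl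
    apply h
    rw [Ideal.isCoprime_iff_sup_eq, bot_sup_eq] at hI
    exact hI

lemma cop_top (𝔪 : Ideal (𝓞 K)) : Cop 𝔪 (⊤ : Ideal (𝓞 K)) :=
  ⟨top_ne_bot, by rw [Ideal.isCoprime_iff_sup_eq, top_sup_eq]⟩

lemma cop_mul {𝔪 I J : Ideal (𝓞 K)} : Cop 𝔪 (I * J) ↔ Cop 𝔪 I ∧ Cop 𝔪 J := by
  unfold Cop
  rw [IsCoprime.mul_left_iff, Ne, Ne, Ne, Ideal.mul_eq_bot]
  tauto

lemma cop_span {𝔪 : Ideal (𝓞 K)} {x : 𝓞 K} (hx0 : x ≠ 0) (hx : x - 1 ∈ 𝔪) :
    Cop 𝔪 (Ideal.span {x}) := by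
  refine ⟨by simpa using hx0, ?_⟩
  rw [Ideal.isCoprime_iff_exists]
  refine ⟨x, Ideal.mem_span_singleton_self x, 1 - x, ?_, by ring⟩
  have := 𝔪.neg_mem hx
  rwa [neg_sub] at this

section fam

variable {G : Type} [CommGroup G] {a : Ideal (𝓞 K) → G} {𝔪 : Ideal (𝓞 K)} {R : Set (K →+* ℝ)}

lemma ArtLike.top (ha : ArtLike R 𝔪 a) : a ⊤ = 1 := by
  have h1 := ha.mul ⊤ ⊤ (cop_top 𝔪) (cop_top 𝔪)
  rw [Ideal.top_mul] at h1
  exact (mul_eq_left.mp h1.symm)

open Classical in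
/-- the ray class character of a character of `G` -/
noncomputable def chi (h𝔪 : 𝔪 ≠ ⊤) (ha : ArtLike R 𝔪 a) (ψ : AddChar (Additive G) ℂ) :
    Ideal (𝓞 K) →*₀ ℂ where
  toFun I := if IsCoprime I 𝔪 then ψ (Additive.ofMul (a I)) else 0
  map_zero' := by
    rw [if_neg]
    intro h
    apply h𝔪
    rw [Ideal.isCoprime_iff_sup_eq] at h
    simpa using h
  map_one' := by
    rw [if_pos isCoprime_one_left, Ideal.one_eq_top, ha.top, ofMul_one, AddChar.map_zero_eq_one]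
  map_mul' I J := by
    by_cases hI : IsCoprime I 𝔪
    · by_cases hJ : IsCoprime J 𝔪
      · rw [if_pos (hI.mul_left hJ), if_pos hI, if_pos hJ,
          ha.mul I J ((cop_iff h𝔪).2 hI) ((cop_iff h𝔪).2 hJ), ofMul_mul, AddChar.map_add_eq_mul]
      · rw [if_neg hJ, if_neg (fun h => hJ h.of_mul_left_right), mul_zero]
    · rw [if_neg hI, if_neg (fun h => hI h.of_mul_left_left), zero_mul]

lemma chi_of_coprime {h𝔪 : 𝔪 ≠ ⊤} (ha : ArtLike R 𝔪 a) (ψ : AddChar (Additive G) ℂ)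
    {I : Ideal (𝓞 K)} (hI : IsCoprime I 𝔪) : chi h𝔪 ha ψ I = ψ (Additive.ofMul (a I)) :=
  if_pos hI

lemma chi_of_not {h𝔪 : 𝔪 ≠ ⊤} (ha : ArtLike R 𝔪 a) (ψ : AddChar (Additive G) ℂ)
    {I : Ideal (𝓞 K)} (hI : ¬ IsCoprime I 𝔪) : chi h𝔪 ha ψ I = 0 :=
  if_neg hI

variable [Finite G]

lemma chi_isModChar {h𝔪 : 𝔪 ≠ ⊤} (h0 : 𝔪 ≠ ⊥) (ha : ArtLike R 𝔪 a)
    (ψ : AddChar (Additive G) ℂ) : ∃ e : InfinitePlace K → ℕ, IsModChar 𝔪 e (chi h𝔪 ha ψ) := by
  obtain ⟨e, he1, he2, he3⟩ := Pool.Agent.Y772.G.t_sig K 𝔪 (chi h𝔪 ha ψ) h0 (by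
    intro x hx0 hx hpos
    rw [chi_of_coprime ha ψ (cop_span hx0 hx).2, ha.ray x ⟨hx0, hx, fun τ _ => hpos τ⟩, ofMul_one,
      AddChar.map_zero_eq_one])
  refine ⟨e, ⟨h0, h𝔪, he1, he2, ?_, he3⟩⟩
  intro I
  by_cases hI : IsCoprime I 𝔪
  · rw [chi_of_coprime ha ψ hI]
    simp only [hI, iff_true]
    intro h
    have h1 := ψ.map_add_eq_mul (Additive.ofMul (a I)) (-Additive.ofMul (a I))
    rw [add_neg_cancel, AddChar.map_zero_eq_one, h, zero_mul] at h1
    exact one_ne_zero h1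
  · rw [chi_of_not ha ψ hI]
    simp [hI]

/-- an element congruent to `1` whose image is trivial and which is negative at exactly one real
place of a set containing all real places where the signature is not zero -/
lemma sig_zero {e : InfinitePlace K → ℕ} {η : Ideal (𝓞 K) →*₀ ℂ} (h : IsModChar 𝔪 e η)
    {w : InfinitePlace K} {x : 𝓞 K} (hx0 : x ≠ 0) (hx : x - 1 ∈ 𝔪) (h1 : η (Ideal.span {x}) = 1)
    (hw : rl w (x : K) < 0)
    (hw' : ∀ w' : InfinitePlace K, w' ≠ w → e w' = 0 ∨ 0 < rl w' (x : K)) : e w = 0 := by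
  classical
  have h2 := h.sig x hx0 hx
  rw [h1] at h2
  unfold sg at h2
  rw [← Finset.mul_prod_erase _ _ (Finset.mem_univ w), Finset.prod_eq_one, mul_one,
    sign_neg hw] at h2
  · have h3 := h.sig_le w
    interval_cases h4 : e w
    · rfl
    · norm_num at h2
  · intro w' hw1
    rcases hw' w' (Finset.ne_of_mem_erase hw1) with h3 | h3
    · rw [h3, pow_zero]
    · rw [sign_pos h3]; simp

/-- the place of `v` -/
lemma exists_good_embedding {e : InfinitePlace K → ℕ} {v : K →+* ℂ}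
    (h : (InfinitePlace.mk v).IsReal → e (InfinitePlace.mk v) = 0) :
    ∃ φ : K →+* ℂ, InfinitePlace.mk φ = InfinitePlace.mk v ∧ ex e φ = 0 := by
  classical
  refine ⟨(InfinitePlace.mk v).embedding, InfinitePlace.mk_embedding _, ?_⟩
  unfold ex
  rw [InfinitePlace.mk_embedding]
  split_ifs with h1 h2
  · exact h h1
  · rfl
  · exact absurd rfl h2

lemma isReal_mk_ofReal (τ : K →+* ℝ) :
    ComplexEmbedding.IsReal (Complex.ofRealHom.comp τ) := by
  rw [ComplexEmbedding.isReal_iff]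
  ext x
  simp [ComplexEmbedding.conjugate_coe_eq]

lemma rl_mk (τ : K →+* ℝ) (x : K) :
    rl (InfinitePlace.mk (Complex.ofRealHom.comp τ)) x = τ x := by
  have hw : (InfinitePlace.mk (Complex.ofRealHom.comp τ)).IsReal := ⟨_, isReal_mk_ofReal τ, rfl⟩
  have h1 : ((rl (InfinitePlace.mk (Complex.ofRealHom.comp τ)) x : ℝ) : ℂ) =
      InfinitePlace.embedding (InfinitePlace.mk (Complex.ofRealHom.comp τ)) x := by
    rw [Pool.Agent.Y772.G.rl_real hw]
    exact InfinitePlace.embedding_of_isReal_apply _ x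
  rw [InfinitePlace.embedding_mk_eq_of_isReal (isReal_mk_ofReal τ)] at h1
  exact Complex.ofReal_injective h1

lemma mk_ofReal_eq_iff (τ : K →+* ℝ) (v : K →+* ℂ) :
    InfinitePlace.mk (Complex.ofRealHom.comp τ) = InfinitePlace.mk v ↔
      Complex.ofRealHom.comp τ = v := by
  rw [InfinitePlace.mk_eq_iff, ComplexEmbedding.isReal_iff.1 (isReal_mk_ofReal τ), or_self]

lemma exists_ofReal_of_isReal {w : InfinitePlace K} (hw : w.IsReal) :
    ∃ τ : K →+* ℝ, InfinitePlace.mk (Complex.ofRealHom.comp τ) = w := by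
  refine ⟨InfinitePlace.embedding_of_isReal hw, ?_⟩
  have h1 : Complex.ofRealHom.comp (InfinitePlace.embedding_of_isReal hw) = w.embedding := by
    ext x
    exact InfinitePlace.embedding_of_isReal_apply hw x
  rw [h1, InfinitePlace.mk_embedding]

/-- the signature vanishes at the place of `v` -/
lemma sig_v {v : K →+* ℂ} {h𝔪 : 𝔪 ≠ ⊤} (h0 : 𝔪 ≠ ⊥) (ha : ArtLike (RR v) 𝔪 a)
    {ψ : AddChar (Additive G) ℂ} {e : InfinitePlace K → ℕ} (he : IsModChar 𝔪 e (chi h𝔪 ha ψ))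
    (hr : (InfinitePlace.mk v).IsReal) : e (InfinitePlace.mk v) = 0 := by
  obtain ⟨x, hx0, hx1, hx2, hx3⟩ := Pool.Agent.Y772.G.exists_neg h0 (InfinitePlace.mk v)
  have hray : Ray (RR v) 𝔪 x := by
    refine ⟨hx0, hx1, fun τ hτ => ?_⟩
    rw [← rl_mk]
    refine hx3 _ fun _ h => ?_
    rw [mk_ofReal_eq_iff] at h
    exact hτ h
  refine sig_zero he hx0 hx1 ?_ (hx2 hr) fun w' hw' => Or.inr (hx3 w' fun _ => hw')
  rw [chi_of_coprime ha ψ (cop_span hx0 hx1).2, ha.ray x hray, ofMul_one, AddChar.map_zero_eq_one]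

/-- the square of an integer congruent to `1` is in the ray -/
lemma ray_sq {x : 𝓞 K} (hx0 : x ≠ 0) (hx1 : x - 1 ∈ 𝔪) : Ray R 𝔪 (x * x) := by
  refine ⟨mul_ne_zero hx0 hx0, ?_, fun τ _ => ?_⟩
  · have h1 := 𝔪.add_mem (𝔪.mul_mem_left x hx1) hx1
    have h2 : x * (x - 1) + (x - 1) = x * x - 1 := by ring
    rwa [h2] at h1
  · push_cast
    rw [map_mul]
    have : τ (x : K) ≠ 0 := by
      rw [Ne, map_eq_zero]
      simpa using hx0
    exact mul_self_pos.2 this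

/-- the derivative at `0` vanishes when the character is trivial on an element which is negative
exactly at the real place of `τ` -/
lemma two_zero {v : K →+* ℂ} {h𝔪 : 𝔪 ≠ ⊤} (h0 : 𝔪 ≠ ⊥) (ha : ArtLike (RR v) 𝔪 a)
    {ψ : AddChar (Additive G) ℂ} {e : InfinitePlace K → ℕ} (he : IsModChar 𝔪 e (chi h𝔪 ha ψ))
    {τ : K →+* ℝ} (hτ : τ ∈ RR v) {x : 𝓞 K} (hx1 : x - 1 ∈ 𝔪) (hx : τ (x : K) < 0)
    (hx' : ∀ τ' ∈ RR v, τ' ≠ τ → 0 < τ' (x : K))
    (hψ : ψ (Additive.ofMul (a (Ideal.span {x}))) = 1) :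
    ∃ φ φ' : K →+* ℂ, φ ≠ φ' ∧ ex e φ = 0 ∧ ex e φ' = 0 := by
  classical
  have hx0 : x ≠ 0 := by
    rintro rfl
    simp at hx
  obtain ⟨φ, hφ1, hφ2⟩ := exists_good_embedding (v := v) (sig_v h0 ha he)
  refine ⟨φ, Complex.ofRealHom.comp τ, ?_, hφ2, ?_⟩
  · intro h
    rw [h, mk_ofReal_eq_iff] at hφ1
    exact hτ hφ1
  · have hr : (InfinitePlace.mk (Complex.ofRealHom.comp τ)).IsReal := ⟨_, isReal_mk_ofReal τ, rfl⟩
    unfold ex
    rw [if_pos hr]
    refine sig_zero he hx0 hx1 ?_ (by rw [rl_mk]; exact hx) fun w' hw' => ?_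
    · rw [chi_of_coprime ha ψ (cop_span hx0 hx1).2, hψ]
    · by_cases hv : w' = InfinitePlace.mk v
      · left
        rcases InfinitePlace.isReal_or_isComplex w' with hw | hw
        · rw [hv] at hw ⊢
          exact sig_v h0 ha he hw
        · exact he.cpx w' hw
      · rcases InfinitePlace.isReal_or_isComplex w' with hw | hw
        · right
          obtain ⟨τ', hτ'⟩ := exists_ofReal_of_isReal hw
          rw [← hτ', rl_mk]
          refine hx' τ' ?_ ?_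
          · intro h
            apply hv
            rw [← hτ', h]
          · rintro rfl
            exact hw' hτ'.symm
        · left
          exact he.cpx w' hw

end fam

end Pool.Agent.R363.SD
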